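import Mathlib

set_option autoImplicit false

namespace Pool.Agent.Helper28.FG

open Filter Topology Set

/-- A pair of convex bodies `M ⊆ int K` such that for every boundary point `x` of `K` there is a
functional `g` with `g (x - q) = 1` for all `q` touched by a support line of `M` through `x`. -/
structure GP {E : Type*} [NormedAddCommGroup E] [NormedSpace ℝ E] (M K : Set E) : Prop where
  Mc : IsCompact M
  Mcv : Convex ℝ M
  Mint : (interior M).Nonempty
  Kc : IsCompact K
  Kcv : Convex ℝ K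
  MK : M ⊆ interior K
  fl : ∀ x ∈ frontier K, ∃ g : E →L[ℝ] ℝ, ∀ q ∈ M,
    (∀ t : ℝ, x + t • (q - x) ∉ interior M) → g (x - q) = 1

section

variable {E : Type*} [NormedAddCommGroup E] [NormedSpace ℝ E]

/-- a functional which is bounded above on `M` by `c` is smaller than `c` in the interior -/
lemma interior_lt {M : Set E} {f : E →L[ℝ] ℝ} (hf : f ≠ 0) {c : ℝ} (h : ∀ z ∈ M, f z ≤ c)
    {y : E} (hy : y ∈ interior M) : f y < c := by
  obtain ⟨v, hv⟩ : ∃ v, f v ≠ 0 := by
    by_contra hcon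
    push Not at hcon
    exact hf (ContinuousLinearMap.ext hcon)
  have hc : ContinuousAt (fun t : ℝ => y + t • v) 0 := by fun_prop
  have hev : ∀ᶠ t : ℝ in 𝓝 0, y + t • v ∈ interior M := by
    apply hc.eventually
    simp only [zero_smul, add_zero]
    exact isOpen_interior.mem_nhds hy
  obtain ⟨ε, hε, hball⟩ := Metric.eventually_nhds_iff.1 hev
  have h1 := h _ (interior_subset (hball (show dist (ε / 2) 0 < ε by
    rw [Real.dist_eq, sub_zero, abs_of_pos (by linarith)]; linarith)))
  have h2 := h _ (interior_subset (hball (show dist (-(ε / 2)) 0 < ε by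
    rw [Real.dist_eq, sub_zero, abs_neg, abs_of_pos (by linarith)]; linarith)))
  rw [map_add, map_smul, smul_eq_mul] at h1 h2
  rcases lt_or_gt_of_ne hv with h3 | h3
  · nlinarith
  · nlinarith

lemma eq_zero_of_const {M : Set E} (hM : (interior M).Nonempty) {g : E →L[ℝ] ℝ} {c : ℝ}
    (h : ∀ y ∈ M, g y = c) : g = 0 := by
  by_contra hg
  obtain ⟨y, hy⟩ := hM
  have := interior_lt hg (fun z hz => (h z hz).le) hy
  rw [h y (interior_subset hy)] at this
  exact lt_irrefl _ this

variable [FiniteDimensional ℝ E]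

lemma exists_ker (hd : 2 ≤ Module.finrank ℝ E) (e : E →L[ℝ] ℝ) : ∃ v : E, v ≠ 0 ∧ e v = 0 := by
  have h1 : LinearMap.ker (e : E →ₗ[ℝ] ℝ) ≠ ⊥ := by
    apply LinearMap.ker_ne_bot_of_finrank_lt
    rw [Module.finrank_self]
    omega
  obtain ⟨v, hv, hv0⟩ := Submodule.exists_mem_ne_zero_of_ne_bot h1
  exact ⟨v, hv0, hv⟩

/-- Step 1: no hyperplane through an exterior point `x` contains all points touched by
support hyperplanes through `x`. -/
lemma step1 (hd : 2 ≤ Module.finrank ℝ E) {M : Set E} (Mc : IsCompact M) (Mcv : Convex ℝ M)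
    (Mint : (interior M).Nonempty) {x : E} (hx : x ∉ M) (g : E →L[ℝ] ℝ)
    (h : ∀ f : E →L[ℝ] ℝ, f ≠ 0 → ∀ q ∈ M, (∀ y ∈ M, f y ≤ f q) → f q = f x → g q = g x) :
    g = 0 := by
  obtain ⟨e, u, he1, he2⟩ := geometric_hahn_banach_point_closed Mcv Mc.isClosed hx
  have hne : M.Nonempty := Mint.mono interior_subset
  have hpos : ∀ y ∈ M, 0 < e (y - x) := fun y hy => by
    rw [map_sub]; linarith [he2 y hy]
  -- touching points
  have key : ∀ g' : E →L[ℝ] ℝ, ∃ m : ℝ, (∀ y ∈ M, g' (y - x) ≤ m * e (y - x)) ∧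
      ∃ y₁ ∈ M, g' (y₁ - x) = m * e (y₁ - x) ∧ (g' - m • e ≠ 0 → g y₁ = g x) := by
    intro g'
    have hc : ContinuousOn (fun y => g' (y - x) / e (y - x)) M := by
      apply ContinuousOn.div
      · fun_prop
      · fun_prop
      · intro y hy
        exact (hpos y hy).ne'
    obtain ⟨y₁, hy₁, hmax⟩ := Mc.exists_isMaxOn hne hc
    set m := g' (y₁ - x) / e (y₁ - x) with hm
    have h1 : ∀ y ∈ M, g' (y - x) ≤ m * e (y - x) := by
      intro y hy
      have := hmax hy
      change g' (y - x) / e (y - x) ≤ m at this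
      rw [div_le_iff₀ (hpos y hy)] at this
      exact this
    have h2 : g' (y₁ - x) = m * e (y₁ - x) := by
      rw [hm]
      have := (hpos y₁ hy₁).ne'
      field_simp
    refine ⟨m, h1, y₁, hy₁, h2, ?_⟩
    intro hf
    apply h (g' - m • e) hf y₁ hy₁
    · intro y hy
      have a1 := h1 y hy
      simp only [map_sub] at a1 h2
      simp only [sub_apply, smul_apply, smul_eq_mul]
      linarith
    · simp only [map_sub] at h2
      simp only [sub_apply, smul_apply, smul_eq_mul]
      linarith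
  -- multiples of e
  have hmult : ∀ m : ℝ, g = m • e → g = 0 := by
    intro m hg
    obtain ⟨v, hv0, hv⟩ := exists_ker hd e
    obtain ⟨g', hg'⟩ := SeparatingDual.exists_ne_zero (R := ℝ) hv0
    obtain ⟨m', -, y₁, hy₁, -, h3⟩ := key g'
    have hne' : g' - m' • e ≠ 0 := by
      intro h0
      have := congrArg (fun f : E →L[ℝ] ℝ => f v) h0
      simp only [sub_apply, smul_apply, smul_eq_mul, hv,
        mul_zero, sub_zero, zero_apply] at this
      exact hg' this
    have h4 := h3 hne'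
    have h5 : g (y₁ - x) = 0 := by rw [map_sub, h4, sub_self]
    rw [hg, smul_apply, smul_eq_mul] at h5
    rcases mul_eq_zero.1 h5 with h6 | h6
    · rw [hg, h6, zero_smul]
    · exact absurd h6 (hpos y₁ hy₁).ne'
  obtain ⟨m, h1, y₁, hy₁, h2, h3⟩ := key g
  obtain ⟨m', h1', y₂, hy₂, h2', h3'⟩ := key (-g)
  by_cases hg1 : g - m • e = 0
  · exact hmult m (sub_eq_zero.1 hg1)
  by_cases hg2 : -g - m' • e = 0
  · apply hmult (-m')
    have h4 : -g = m' • e := sub_eq_zero.1 hg2
    refine ContinuousLinearMap.ext fun z => ?_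
    have h5 := congrArg (fun f : E →L[ℝ] ℝ => f z) h4
    simp only [neg_apply, smul_apply, smul_eq_mul] at h5 ⊢
    linarith
  have a1 := h3 hg1
  have a2 := h3' hg2
  have hm0 : m = 0 := by
    have : g (y₁ - x) = 0 := by rw [map_sub, a1, sub_self]
    rw [this] at h2
    rcases mul_eq_zero.1 h2.symm with h | h
    · exact h
    · exact absurd h (hpos y₁ hy₁).ne'
  have hm'0 : m' = 0 := by
    have : (-g) (y₂ - x) = 0 := by
      rw [neg_apply, map_sub, a2, sub_self, neg_zero]
    rw [this] at h2'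
    rcases mul_eq_zero.1 h2'.symm with h | h
    · exact h
    · exact absurd h (hpos y₂ hy₂).ne'
  apply eq_zero_of_const Mint (c := g x)
  intro y hy
  have b1 := h1 y hy
  have b2 := h1' y hy
  rw [hm0, zero_mul, map_sub] at b1
  rw [hm'0, zero_mul, neg_apply, map_sub] at b2
  linarith

omit [FiniteDimensional ℝ E] in
/-- exit of a ray -/
lemma ray_exit {K : Set E} (Kc : IsCompact K) {q : E} (hq : q ∈ interior K) {v : E} (hv : v ≠ 0) :
    ∃ ρ : ℝ, 0 < ρ ∧ q + ρ • v ∈ frontier K := by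
  set S : Set ℝ := {t | 0 ≤ t ∧ q + t • v ∈ K} with hS
  have hSc : IsClosed S := by
    apply IsClosed.inter isClosed_Ici
    have : Continuous (fun t : ℝ => q + t • v) := by fun_prop
    exact Kc.isClosed.preimage this
  obtain ⟨R, hR⟩ := Kc.isBounded.exists_norm_le
  have hvn : 0 < ‖v‖ := norm_pos_iff.2 hv
  have hSb : S ⊆ Icc 0 ((R + ‖q‖) / ‖v‖) := by
    rintro t ⟨ht0, ht⟩
    refine ⟨ht0, ?_⟩
    rw [le_div_iff₀ hvn]
    have h1 := hR _ ht
    have h2 : ‖t • v‖ ≤ ‖q + t • v‖ + ‖q‖ := by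
      have : t • v = (q + t • v) - q := by abel
      conv_lhs => rw [this]
      exact norm_sub_le _ _
    rw [norm_smul, Real.norm_of_nonneg ht0] at h2
    linarith
  have hScomp : IsCompact S := isCompact_Icc.of_isClosed_subset hSc hSb
  have hSne : S.Nonempty := ⟨0, le_rfl, by simpa using interior_subset hq⟩
  obtain ⟨T, hT, hmax⟩ := hScomp.exists_isGreatest hSne
  have hTK : q + T • v ∈ K := hT.2
  have hTi : q + T • v ∉ interior K := by
    intro hi
    have hc : ContinuousAt (fun t : ℝ => q + t • v) T := by fun_prop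
    have hev : ∀ᶠ t : ℝ in 𝓝 T, q + t • v ∈ interior K :=
      hc.eventually (isOpen_interior.mem_nhds hi)
    obtain ⟨ε, hε, hball⟩ := Metric.eventually_nhds_iff.1 hev
    have h1 : q + (T + ε / 2) • v ∈ K := interior_subset (hball (by
      rw [Real.dist_eq, add_sub_cancel_left, abs_of_pos (by linarith)]; linarith))
    have h2 : T + ε / 2 ∈ S := ⟨by linarith [hT.1], h1⟩
    have := hmax h2
    linarith
  refine ⟨T, ?_, ?_⟩
  · rcases hT.1.lt_or_eq with h | h
    · exact h
    · exfalso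
      apply hTi
      rw [← h, zero_smul, add_zero]
      exact hq
  · rw [Kc.isClosed.frontier_eq]
    exact ⟨hTK, hTi⟩

omit [FiniteDimensional ℝ E] in
lemma ray_unique {K : Set E} (Kcv : Convex ℝ K) (Kcl : IsClosed K) {q : E} (hq : q ∈ interior K)
    {v : E} {ρ ρ' : ℝ} (h0 : 0 < ρ) (h0' : 0 < ρ') (h1 : q + ρ • v ∈ frontier K)
    (h1' : q + ρ' • v ∈ frontier K) : ρ = ρ' := by
  have key : ∀ ρ ρ' : ℝ, 0 < ρ → 0 < ρ' → q + ρ • v ∈ frontier K → q + ρ' • v ∈ frontier K →
      ¬ ρ < ρ' := by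
    intro ρ ρ' h0 h0' h1 h1' hlt
    rw [Kcl.frontier_eq] at h1 h1'
    apply h1.2
    have h2 := Kcv.openSegment_interior_self_subset_interior hq h1'.1
    apply h2
    rw [openSegment_eq_image_lineMap]
    refine ⟨ρ / ρ', ⟨by positivity, by rw [div_lt_one h0']; exact hlt⟩, ?_⟩
    rw [AffineMap.lineMap_apply]
    simp only [vsub_eq_sub, add_sub_cancel_left, vadd_eq_add, smul_smul]
    rw [div_mul_cancel₀ _ h0'.ne']
    abel
  rcases lt_trichotomy ρ ρ' with h | h | h
  · exact absurd h (key ρ ρ' h0 h0' h1 h1')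
  · exact h
  · exact absurd h (key ρ' ρ h0' h0 h1' h1)

end

end Pool.Agent.Helper28.FG
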