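import Mathlib

set_option autoImplicit false

namespace Pool.Agent.Helper28.FG

open Filter Topology Set

/-- Polynomial functions of degree at most two. -/
def IsQuad {E : Type*} [AddCommGroup E] [Module ℝ E] (q : E → ℝ) : Prop :=
  ∃ (B : E →ₗ[ℝ] E →ₗ[ℝ] ℝ) (L : E →ₗ[ℝ] ℝ) (c : ℝ), ∀ y, q y = B y y + L y + c

section

variable {E : Type*} [AddCommGroup E] [Module ℝ E]

lemma isQuad_mul (l₁ l₂ : E →ₗ[ℝ] ℝ) : IsQuad (fun y => l₁ y * l₂ y) :=
  ⟨l₁.smulRight l₂, 0, 0, fun y => by simp⟩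

lemma isQuad_lin (l : E →ₗ[ℝ] ℝ) : IsQuad (fun y => l y) :=
  ⟨0, l, 0, fun y => by simp⟩

lemma isQuad_const (c : ℝ) : IsQuad (fun _ : E => c) :=
  ⟨0, 0, c, fun y => by simp⟩

lemma IsQuad.add {q q' : E → ℝ} (h : IsQuad q) (h' : IsQuad q') : IsQuad (fun y => q y + q' y) := by
  obtain ⟨B, L, c, h⟩ := h
  obtain ⟨B', L', c', h'⟩ := h'
  refine ⟨B + B', L + L', c + c', fun y => ?_⟩
  change q y + q' y = _
  rw [h, h']
  simp only [LinearMap.add_apply]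
  ring

lemma IsQuad.smul {q : E → ℝ} (h : IsQuad q) (t : ℝ) : IsQuad (fun y => t * q y) := by
  obtain ⟨B, L, c, h⟩ := h
  refine ⟨t • B, t • L, t * c, fun y => ?_⟩
  change t * q y = _
  rw [h]
  simp only [LinearMap.smul_apply, smul_eq_mul]
  ring

lemma IsQuad.comp_affine {F : Type*} [AddCommGroup F] [Module ℝ F] {q : F → ℝ} (h : IsQuad q)
    (T : E →ₗ[ℝ] F) (p : E) : IsQuad (fun y => q (T (y - p))) := by
  obtain ⟨B, L, c, h⟩ := h
  refine ⟨B.compl₁₂ T T, L.comp T - (B.flip (T p)).comp T - (B (T p)).comp T,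
    B (T p) (T p) - L (T p) + c, fun y => ?_⟩
  change q (T (y - p)) = _
  rw [h]
  simp only [map_sub, LinearMap.sub_apply, LinearMap.compl₁₂_apply, LinearMap.comp_apply,
    LinearMap.flip_apply]
  ring

/-- restriction to a line -/
lemma IsQuad.line {q : E → ℝ} (h : IsQuad q) (y v : E) :
    ∃ a b : ℝ, ∀ t : ℝ, q (y + t • v) = a * t ^ 2 + b * t + q y := by
  obtain ⟨B, L, c, h⟩ := h
  refine ⟨B v v, B y v + B v y + L v, fun t => ?_⟩
  rw [h, h]
  simp only [map_add, map_smul, LinearMap.add_apply, LinearMap.smul_apply, smul_eq_mul]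
  ring

lemma poly_zero_of_three {a b c t₁ t₂ t₃ : ℝ} (h12 : t₁ ≠ t₂) (h13 : t₁ ≠ t₃) (h23 : t₂ ≠ t₃)
    (h1 : a * t₁ ^ 2 + b * t₁ + c = 0) (h2 : a * t₂ ^ 2 + b * t₂ + c = 0)
    (h3 : a * t₃ ^ 2 + b * t₃ + c = 0) : a = 0 ∧ b = 0 ∧ c = 0 := by
  have e1 : (t₁ - t₂) * (a * (t₁ + t₂) + b) = 0 := by linear_combination h1 - h2
  have e2 : (t₁ - t₃) * (a * (t₁ + t₃) + b) = 0 := by linear_combination h1 - h3
  have f1 : a * (t₁ + t₂) + b = 0 := by
    rcases mul_eq_zero.1 e1 with h | h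
    · exact absurd (by linarith) h12
    · exact h
  have f2 : a * (t₁ + t₃) + b = 0 := by
    rcases mul_eq_zero.1 e2 with h | h
    · exact absurd (by linarith) h13
    · exact h
  have g1 : a * (t₂ - t₃) = 0 := by linear_combination f1 - f2
  have ha : a = 0 := by
    rcases mul_eq_zero.1 g1 with h | h
    · exact h
    · exact absurd (by linarith) h23
  have hb : b = 0 := by rw [ha] at f1; linarith
  refine ⟨ha, hb, ?_⟩
  rw [ha, hb] at h1
  linarith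

lemma IsQuad.zero_line {q : E → ℝ} (h : IsQuad q) (y v : E) {t₁ t₂ t₃ : ℝ} (h12 : t₁ ≠ t₂)
    (h13 : t₁ ≠ t₃) (h23 : t₂ ≠ t₃) (h1 : q (y + t₁ • v) = 0) (h2 : q (y + t₂ • v) = 0)
    (h3 : q (y + t₃ • v) = 0) (t : ℝ) : q (y + t • v) = 0 := by
  obtain ⟨a, b, hab⟩ := h.line y v
  rw [hab] at h1 h2 h3
  obtain ⟨ha, hb, hc⟩ := poly_zero_of_three h12 h13 h23 h1 h2 h3
  rw [hab, ha, hb, hc]
  ring

end

lemma IsQuad.zero_of_open {E : Type*} [NormedAddCommGroup E] [NormedSpace ℝ E] {q : E → ℝ}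
    (h : IsQuad q) {O : Set E} (hO : IsOpen O) (hne : O.Nonempty) (h0 : ∀ y ∈ O, q y = 0) (y : E) :
    q y = 0 := by
  obtain ⟨y₀, hy₀⟩ := hne
  have hc : ContinuousAt (fun t : ℝ => y₀ + t • (y - y₀)) 0 := by fun_prop
  have hev : ∀ᶠ t : ℝ in 𝓝 0, y₀ + t • (y - y₀) ∈ O := by
    apply hc.eventually
    simp only [zero_smul, add_zero]
    exact hO.mem_nhds hy₀
  obtain ⟨ε, hε, hball⟩ := Metric.eventually_nhds_iff.1 hev
  have hz : ∀ t : ℝ, |t| < ε → q (y₀ + t • (y - y₀)) = 0 := fun t ht =>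
    h0 _ (hball (by simpa [Real.dist_eq] using ht))
  have := h.zero_line y₀ (y - y₀) (t₁ := 0) (t₂ := ε / 2) (t₃ := ε / 3)
    (by linarith) (by linarith) (by linarith) (hz 0 (by simpa using hε))
    (hz _ (by rw [abs_of_pos (by linarith)]; linarith))
    (hz _ (by rw [abs_of_pos (by linarith)]; linarith)) 1
  simpa using this

end Pool.Agent.Helper28.FG
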