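import Mathlib

set_option autoImplicit false

namespace Pool.Agent.Helper28.FG

open Filter Topology Set

/-- The coordinate plane. -/
abbrev V := ℝ × ℝ

/-- The standard pairing of the plane. -/
def dot (a b : V) : ℝ := a.1 * b.1 + a.2 * b.2

/-- Rotation by a right angle. -/
def perp (v : V) : V := (-v.2, v.1)

lemma common_slope (f₀ f₁ c : ℝ → ℝ)
    (h0 : ∀ s s', f₀ s + c s * (s' - s) ≤ f₀ s')
    (h1 : ∀ s s', f₁ s + c s * (s' - s) ≤ f₁ s') (a b : ℝ) :
    f₁ b - f₀ b = f₁ a - f₀ a := by
  have key : ∀ a b : ℝ, a ≤ b → f₁ b - f₀ b = f₁ a - f₀ a := by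
    intro a b hab
    have step : ∀ (h : ℝ), 0 ≤ h → ∀ n : ℕ,
        |(f₁ (a + n * h) - f₀ (a + n * h)) - (f₁ a - f₀ a)| ≤ h * (c (a + n * h) - c a) := by
      intro h hh n
      induction n with
      | zero => simp
      | succ n ih =>
        have e1 := h0 (a + n * h) (a + (n + 1 : ℕ) * h)
        have e2 := h1 (a + n * h) (a + (n + 1 : ℕ) * h)
        have e3 := h0 (a + (n + 1 : ℕ) * h) (a + n * h)
        have e4 := h1 (a + (n + 1 : ℕ) * h) (a + n * h)
        rw [abs_le] at ih ⊢
        push_cast at *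
        constructor <;> nlinarith
    have bound : ∀ n : ℕ, |(f₁ b - f₀ b) - (f₁ a - f₀ a)| ≤ (b - a) * (c b - c a) / (n + 1 : ℝ) := by
      intro n
      have hn : (0 : ℝ) < n + 1 := by positivity
      have h2 := step ((b - a) / (n + 1)) (by apply div_nonneg; linarith; linarith) (n + 1)
      have h3 : a + ((n + 1 : ℕ) : ℝ) * ((b - a) / (n + 1)) = b := by
        push_cast
        field_simp
        ring
      rw [h3] at h2
      calc _ ≤ _ := h2
        _ = _ := by ring
    have hlim : Tendsto (fun n : ℕ => (b - a) * (c b - c a) / (n + 1 : ℝ)) atTop (𝓝 0) := by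
      have := tendsto_const_div_atTop_nhds_zero_nat ((b - a) * (c b - c a))
      have h2 := (tendsto_add_atTop_iff_nat 1).2 this
      simpa using h2
    have h4 : |(f₁ b - f₀ b) - (f₁ a - f₀ a)| ≤ 0 := ge_of_tendsto' hlim bound
    have h5 := abs_nonpos_iff.1 h4
    linarith
  rcases le_total a b with h | h
  · exact key a b h
  · exact (key b a h).symm

/-- mixed difference -/
def T (X : ℝ → ℝ) (s p q : ℝ) : ℝ := X (s + p + q) - X (s + p) - X (s + q) + X s

lemma T_nsmul_left (X : ℝ → ℝ) (p q k : ℝ) (h : ∀ s, T X s p q = k) (n : ℕ) :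
    ∀ s, T X s (n * p) q = n * k := by
  induction n with
  | zero => intro s; simp [T]
  | succ n ih =>
    intro s
    have h1 := ih s
    have h2 := h (s + n * p)
    simp only [T] at *
    push_cast
    have e1 : s + (↑n + 1) * p + q = s + ↑n * p + p + q := by ring
    have e2 : s + (↑n + 1) * p = s + ↑n * p + p := by ring
    rw [e1, e2]
    linarith

lemma T_symm (X : ℝ → ℝ) (s p q : ℝ) : T X s p q = T X s q p := by
  simp only [T]
  have e1 : s + p + q = s + q + p := by ring
  rw [e1]
  ring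

lemma T_nsmul (X : ℝ → ℝ) (p q k : ℝ) (h : ∀ s, T X s p q = k) (n m : ℕ) :
    ∀ s, T X s (n * p) (m * q) = n * m * k := by
  intro s
  have h1 := T_nsmul_left X p q k h n
  have h2 : ∀ s, T X s q (n * p) = n * k := fun s => by rw [T_symm]; exact h1 s
  have h3 := T_nsmul_left X q (n * p) (n * k) h2 m s
  rw [T_symm, h3]
  ring

lemma quad_of_mixed (X : ℝ → ℝ) (hX : Continuous X) (a c : ℝ) (ha : a ≠ 0) (hc : c ≠ 0)
    (κ : ℝ → ℝ) (h : ∀ s e, T X s (e * a) (e * c) = κ e) :
    ∃ A, ∀ s σ, X (s + σ) + X (s - σ) - 2 * X s = A * σ ^ 2 := by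
  -- telescoping
  have h1 : ∀ (n m : ℕ) (e s : ℝ), T X s (n * (e * a)) (m * (e * c)) = n * m * κ e :=
    fun n m e s => T_nsmul X _ _ _ (fun s => h s e) n m s
  have hk : ∀ (n : ℕ) (e : ℝ), κ (n * e) = n ^ 2 * κ e := by
    intro n e
    rw [← h 0 (n * e), mul_assoc, mul_assoc, h1]
    ring
  have hTc : ∀ s : ℝ, Continuous (fun z : ℝ × ℝ => T X s z.1 z.2) := by
    intro s
    unfold T
    fun_prop
  -- rational multiples
  have hr : ∀ (s x : ℝ) (n m : ℕ), 0 < n →
      T X s (x * a) (((m : ℝ) / n * x) * c) = (m : ℝ) / n * κ x := by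
    intro s x n m hn
    have hn' : (n : ℝ) ≠ 0 := by positivity
    have e := h1 n m (x / n) s
    have e2 := hk n (x / n)
    have e3 : (n : ℝ) * (x / n) = x := by field_simp
    rw [e3] at e2
    have e4 : (n : ℝ) * (x / n * a) = x * a := by field_simp
    have e5 : (m : ℝ) * (x / n * c) = ((m : ℝ) / n * x) * c := by field_simp
    rw [e4, e5] at e
    rw [e, e2]
    field_simp
  have hl : ∀ (s x : ℝ) (n m : ℕ), 0 < n →
      T X s (((m : ℝ) / n * x) * a) (x * c) = (m : ℝ) / n * κ x := by
    intro s x n m hn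
    have hn' : (n : ℝ) ≠ 0 := by positivity
    have e := h1 m n (x / n) s
    have e2 := hk n (x / n)
    have e3 : (n : ℝ) * (x / n) = x := by field_simp
    rw [e3] at e2
    have e4 : (n : ℝ) * (x / n * c) = x * c := by field_simp
    have e5 : (m : ℝ) * (x / n * a) = ((m : ℝ) / n * x) * a := by field_simp
    rw [e4, e5] at e
    rw [e, e2]
    field_simp
  have hfl : ∀ y : ℝ, 0 ≤ y → Tendsto (fun n : ℕ => ((⌊y * (n + 1 : ℕ)⌋₊ : ℕ) : ℝ) / ((n + 1 : ℕ) : ℝ))
      atTop (𝓝 y) := by
    intro y hy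
    have := tendsto_nat_floor_mul_div_atTop hy (R := ℝ)
    have h2 := this.comp (tendsto_natCast_atTop_atTop (R := ℝ))
    exact (tendsto_add_atTop_iff_nat 1).2 h2
  -- real multiples
  have hr' : ∀ (s x y : ℝ), 0 ≤ y → T X s (x * a) ((y * x) * c) = y * κ x := by
    intro s x y hy
    have t1 : Tendsto (fun n : ℕ => T X s (x * a)
        ((((⌊y * (n + 1 : ℕ)⌋₊ : ℕ) : ℝ) / ((n + 1 : ℕ) : ℝ) * x) * c)) atTop
        (𝓝 (T X s (x * a) ((y * x) * c))) := by
      have h3 : Continuous (fun y : ℝ => T X s (x * a) ((y * x) * c)) := by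
        unfold T; fun_prop
      exact (h3.tendsto y).comp (hfl y hy)
    have t2 : Tendsto (fun n : ℕ => ((⌊y * (n + 1 : ℕ)⌋₊ : ℕ) : ℝ) / ((n + 1 : ℕ) : ℝ) * κ x) atTop
        (𝓝 (y * κ x)) := (hfl y hy).mul_const _
    refine tendsto_nhds_unique t1 ?_
    refine t2.congr ?_
    intro n
    exact (hr s x (n + 1) _ (Nat.succ_pos n)).symm
  have hl' : ∀ (s x y : ℝ), 0 ≤ y → T X s ((y * x) * a) (x * c) = y * κ x := by
    intro s x y hy
    have t1 : Tendsto (fun n : ℕ => T X s
        ((((⌊y * (n + 1 : ℕ)⌋₊ : ℕ) : ℝ) / ((n + 1 : ℕ) : ℝ) * x) * a) (x * c)) atTop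
        (𝓝 (T X s ((y * x) * a) (x * c))) := by
      have h3 : Continuous (fun y : ℝ => T X s ((y * x) * a) (x * c)) := by
        unfold T; fun_prop
      exact (h3.tendsto y).comp (hfl y hy)
    have t2 : Tendsto (fun n : ℕ => ((⌊y * (n + 1 : ℕ)⌋₊ : ℕ) : ℝ) / ((n + 1 : ℕ) : ℝ) * κ x) atTop
        (𝓝 (y * κ x)) := (hfl y hy).mul_const _
    refine tendsto_nhds_unique t1 ?_
    refine t2.congr ?_
    intro n
    exact (hl s x (n + 1) _ (Nat.succ_pos n)).symm
  -- quadratic behaviour of κ
  have hκ : ∀ x : ℝ, 0 < x → κ x = x ^ 2 * κ 1 := by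
    intro x hx
    have e1 := hr' 0 x (1 / x) (by positivity)
    have e2 := hl' 0 1 x hx.le
    have e3 : (1 / x * x) * c = 1 * c := by field_simp
    rw [e3] at e1
    rw [mul_one] at e2
    rw [e1] at e2
    field_simp at e2
    linarith
  have hf : ∀ (s x y : ℝ), 0 < x → 0 < y → T X s (x * a) (y * c) = x * y * κ 1 := by
    intro s x y hx hy
    have e1 := hr' s x (y / x) (by positivity)
    have e2 : y / x * x = y := by field_simp
    rw [e2, hκ x hx] at e1
    rw [e1]
    field_simp
  refine ⟨κ 1 / (a * c), ?_⟩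
  have main : ∀ s σ, 0 < σ → X (s + σ) + X (s - σ) - 2 * X s = κ 1 / (a * c) * σ ^ 2 := by
    intro s σ hσ
    rcases lt_or_gt_of_ne ha with ha' | ha' <;> rcases lt_or_gt_of_ne hc with hc' | hc'
    · have e := hf (s + σ) (σ / (-a)) (σ / (-c)) (div_pos hσ (by linarith)) (div_pos hσ (by linarith))
      have e1 : σ / (-a) * a = -σ := by field_simp
      have e2 : σ / (-c) * c = -σ := by field_simp
      rw [e1, e2] at e
      simp only [T] at e
      have e3 : s + σ + -σ + -σ = s - σ := by ring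
      have e4 : s + σ + -σ = s := by ring
      rw [e3, e4] at e
      have e5 : σ / -a * (σ / -c) * κ 1 = κ 1 / (a * c) * σ ^ 2 := by field_simp
      linarith
    · have e := hf s (σ / (-a)) (σ / c) (div_pos hσ (by linarith)) (div_pos hσ (by linarith))
      have e1 : σ / (-a) * a = -σ := by field_simp
      have e2 : σ / c * c = σ := by field_simp
      rw [e1, e2] at e
      simp only [T] at e
      have e3 : s + -σ + σ = s := by ring
      have e4 : s + -σ = s - σ := by ring
      rw [e3, e4] at e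
      have e5 : σ / -a * (σ / c) * κ 1 = - (κ 1 / (a * c) * σ ^ 2) := by field_simp
      linarith
    · have e := hf s (σ / a) (σ / (-c)) (div_pos hσ (by linarith)) (div_pos hσ (by linarith))
      have e1 : σ / a * a = σ := by field_simp
      have e2 : σ / (-c) * c = -σ := by field_simp
      rw [e1, e2] at e
      simp only [T] at e
      have e3 : s + σ + -σ = s := by ring
      have e4 : s + -σ = s - σ := by ring
      rw [e3, e4] at e
      have e5 : σ / a * (σ / -c) * κ 1 = - (κ 1 / (a * c) * σ ^ 2) := by field_simp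
      linarith
    · have e := hf (s - σ) (σ / a) (σ / c) (div_pos hσ (by linarith)) (div_pos hσ (by linarith))
      have e1 : σ / a * a = σ := by field_simp
      have e2 : σ / c * c = σ := by field_simp
      rw [e1, e2] at e
      simp only [T] at e
      have e3 : s - σ + σ + σ = s + σ := by ring
      have e4 : s - σ + σ = s := by ring
      rw [e3, e4] at e
      have e5 : σ / a * (σ / c) * κ 1 = κ 1 / (a * c) * σ ^ 2 := by field_simp
      linarith
  intro s σ
  rcases lt_trichotomy σ 0 with h0 | h0 | h0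
  · have e := main s (-σ) (by linarith)
    have e3 : s - -σ = s + σ := by ring
    have e4 : s + -σ = s - σ := by ring
    rw [e3, e4] at e
    linarith [e, (by ring : (-σ) ^ 2 = σ ^ 2)]
  · subst h0; simp; ring
  · exact main s σ h0

lemma T_of_quad (X : ℝ → ℝ) (A : ℝ)
    (h : ∀ s σ, X (s + σ) + X (s - σ) - 2 * X s = A * σ ^ 2) (s p q : ℝ) :
    T X s p q = A * (p * q) := by
  have e1 := h (s + (p + q) / 2) ((p + q) / 2)
  have e2 := h (s + (p + q) / 2) ((p - q) / 2)
  have i1 : s + (p + q) / 2 + (p + q) / 2 = s + p + q := by ring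
  have i2 : s + (p + q) / 2 - (p + q) / 2 = s := by ring
  have i3 : s + (p + q) / 2 + (p - q) / 2 = s + p := by ring
  have i4 : s + (p + q) / 2 - (p - q) / 2 = s + q := by ring
  rw [i1, i2] at e1
  rw [i3, i4] at e2
  simp only [T]
  nlinarith


/-- A function on the plane all of whose mixed differences in the directions `α v`, `perp v`
vanish is quadratic, and its second form makes these directions conjugate. -/
theorem limit_core (G : V → ℝ) (hG : Continuous G) (α : V → V)
    (hαc : ContinuousOn α {0}ᶜ) (hαv : ∀ v, v ≠ 0 → dot (α v) v ≠ 0)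
    (hconv : ∀ y h, 0 ≤ G (y + h) + G (y - h) - 2 * G y)
    (hne : ∃ y h, G (y + h) + G (y - h) - 2 * G y ≠ 0)
    (hMD : ∀ v, v ≠ 0 → ∀ y (s t : ℝ),
      G (y + s • α v + t • perp v) - G (y + s • α v) - G (y + t • perp v) + G y = 0) :
    ∃ A B C : ℝ, 0 < A ∧ 0 < A * C - B ^ 2 ∧ ∀ v, v ≠ 0 →
      A * ((α v).1 * (perp v).1) + B * ((α v).1 * (perp v).2 + (α v).2 * (perp v).1)
        + C * ((α v).2 * (perp v).2) = 0 := by
  have hv1 : ((1, 0) : V) ≠ 0 := by
    intro h
    have := congrArg Prod.fst h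
    simp at this
  set a₁ : V := α (1, 0) with ha₁
  set p : ℝ := a₁.1 with hp
  set q : ℝ := a₁.2 with hq
  have hp0 : p ≠ 0 := by
    have := hαv (1, 0) hv1
    simpa [dot] using this
  -- decomposition of vectors
  have hdec : ∀ u : V, u = (u.1 / p) • a₁ + (u.2 - u.1 * q / p) • ((0, 1) : V) := by
    intro u
    ext
    · simp [← hp, hp0]
    · simp only [Prod.snd_add, Prod.smul_snd, smul_eq_mul, ← hq]
      field_simp
      ring
  have hperp1 : perp (1, 0) = ((0, 1) : V) := by simp [perp]
  set X : ℝ → ℝ := fun s => G (s • a₁) with hX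
  set Y : ℝ → ℝ := fun t => G (t • ((0, 1) : V)) - G 0 with hY
  have hXc : Continuous X := by simp only [hX]; fun_prop
  have hYc : Continuous Y := by simp only [hY]; fun_prop
  have hXY : ∀ s t : ℝ, G (s • a₁ + t • ((0, 1) : V)) = X s + Y t := by
    intro s t
    have := hMD (1, 0) hv1 0 s t
    rw [hperp1, ← ha₁] at this
    simp only [zero_add] at this
    simp only [hX, hY]
    linarith
  have hfun : ∀ v, v ≠ 0 → ∀ s t e : ℝ,
      T X s (e * ((α v).1 / p)) (e * ((perp v).1 / p))
      + T Y t (e * ((α v).2 - (α v).1 * q / p)) (e * ((perp v).2 - (perp v).1 * q / p)) = 0 := by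
    intro v hv s t e
    have h1 := hMD v hv (s • a₁ + t • ((0, 1) : V)) e e
    have d1 := hdec (α v)
    have d2 := hdec (perp v)
    set a := (α v).1 / p
    set b := (α v).2 - (α v).1 * q / p
    set c := (perp v).1 / p
    set d := (perp v).2 - (perp v).1 * q / p
    rw [d1, d2] at h1
    have g1 : s • a₁ + t • ((0, 1) : V) + e • (a • a₁ + b • ((0, 1) : V))
        + e • (c • a₁ + d • ((0, 1) : V))
        = (s + e * a + e * c) • a₁ + (t + e * b + e * d) • ((0, 1) : V) := by
      module
    have g2 : s • a₁ + t • ((0, 1) : V) + e • (a • a₁ + b • ((0, 1) : V))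
        = (s + e * a) • a₁ + (t + e * b) • ((0, 1) : V) := by
      module
    have g3 : s • a₁ + t • ((0, 1) : V) + e • (c • a₁ + d • ((0, 1) : V))
        = (s + e * c) • a₁ + (t + e * d) • ((0, 1) : V) := by
      module
    rw [g1, g2, g3, hXY, hXY, hXY, hXY] at h1
    simp only [T]
    linarith
  -- existence of good directions
  have hαc1 : ∀ v : V, v ≠ 0 → ContinuousAt α v := fun v hv =>
    hαc.continuousAt (IsOpen.mem_nhds isOpen_compl_singleton hv)
  obtain ⟨v₂, hv₂, ha₂, hc₂⟩ : ∃ v : V, v ≠ 0 ∧ (α v).1 ≠ 0 ∧ (perp v).1 ≠ 0 := by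
    have hcont : ContinuousAt (fun e : ℝ => (α (1, e)).1) 0 := by
      have : ContinuousAt (fun e : ℝ => ((1, e) : V)) 0 := by fun_prop
      have h2 : ContinuousAt (fun e : ℝ => α (1, e)) 0 :=
        ContinuousAt.comp (f := fun e : ℝ => ((1, e) : V)) (g := α) (hαc1 (1, 0) hv1) this
      exact continuousAt_fst.comp h2
    have hev := hcont.eventually_ne (show (α (1, (0 : ℝ))).1 ≠ 0 from hp0)
    obtain ⟨ε, hε, hb⟩ := Metric.eventually_nhds_iff.1 hev
    refine ⟨(1, ε / 2), ?_, ?_, ?_⟩
    · intro h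
      have := congrArg Prod.fst h
      simp at this
    · apply hb
      rw [Real.dist_eq, sub_zero, abs_of_pos (by linarith)]
      linarith
    · simp [perp]
      linarith
  obtain ⟨v₃, hv₃, hb₃, hd₃⟩ : ∃ v : V, v ≠ 0 ∧ (α v).2 - (α v).1 * q / p ≠ 0 ∧
      (perp v).2 - (perp v).1 * q / p ≠ 0 := by
    have hvs : ((-q, p) : V) ≠ 0 := by
      intro h
      have := congrArg Prod.snd h
      simp at this
      exact hp0 this
    have hcont : ContinuousAt (fun e : ℝ => (α ((-q, p) + e • a₁)).2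
        - (α ((-q, p) + e • a₁)).1 * q / p) 0 := by
      have : ContinuousAt (fun e : ℝ => (((-q, p) + e • a₁) : V)) 0 := by fun_prop
      have h2 : ContinuousAt (fun e : ℝ => α ((-q, p) + e • a₁)) 0 := by
        refine ContinuousAt.comp (f := fun e : ℝ => (((-q, p) + e • a₁) : V)) (g := α) ?_ this
        simpa using hαc1 _ hvs
      have h3 := continuousAt_fst.comp h2
      have h4 := continuousAt_snd.comp h2
      exact h4.sub ((h3.mul_const q).div_const p)
    have hne0 : (α ((-q, p) + (0 : ℝ) • a₁)).2 - (α ((-q, p) + (0 : ℝ) • a₁)).1 * q / p ≠ 0 := by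
      simp only [zero_smul, add_zero]
      have := hαv _ hvs
      intro h0
      apply this
      simp only [dot]
      field_simp at h0
      linarith
    have hev := hcont.eventually_ne hne0
    have hcont2 : ContinuousAt (fun e : ℝ => (((-q, p) + e • a₁) : V)) 0 := by fun_prop
    have hne1 : (((-q, p) + (0 : ℝ) • a₁) : V) ≠ 0 := by
      rw [zero_smul, add_zero]
      exact hvs
    have hev2 := hcont2.eventually_ne hne1
    obtain ⟨ε, hε, hb⟩ := Metric.eventually_nhds_iff.1 (hev.and hev2)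
    have hd : dist (ε / 2) 0 < ε := by
      rw [Real.dist_eq, sub_zero, abs_of_pos (by linarith)]
      linarith
    refine ⟨(-q, p) + (ε / 2) • a₁, (hb hd).2, (hb hd).1, ?_⟩
    simp only [perp, Prod.fst_add, Prod.snd_add, Prod.smul_fst, Prod.smul_snd, smul_eq_mul,
      ← hp, ← hq]
    have : (-q + ε / 2 * p) - -(p + ε / 2 * q) * q / p = ε / 2 * (p ^ 2 + q ^ 2) / p := by
      field_simp
      ring
    rw [this]
    positivity
  have hav : ∀ v : V, (α v).1 ≠ 0 → (α v).1 / p ≠ 0 := fun v h => div_ne_zero h hp0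
  obtain ⟨A', hA'⟩ := quad_of_mixed X hXc _ _ (div_ne_zero ha₂ hp0) (div_ne_zero hc₂ hp0)
    (fun e => - T Y 0 (e * ((α v₂).2 - (α v₂).1 * q / p)) (e * ((perp v₂).2 - (perp v₂).1 * q / p)))
    (fun s e => by have := hfun v₂ hv₂ s 0 e; linarith)
  obtain ⟨B', hB'⟩ := quad_of_mixed Y hYc _ _ hb₃ hd₃
    (fun e => - T X 0 (e * ((α v₃).1 / p)) (e * ((perp v₃).1 / p)))
    (fun s e => by have := hfun v₃ hv₃ 0 s e; linarith)
  have hall : ∀ v, v ≠ 0 → A' * (((α v).1 / p) * ((perp v).1 / p))
      + B' * (((α v).2 - (α v).1 * q / p) * ((perp v).2 - (perp v).1 * q / p)) = 0 := by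
    intro v hv
    have := hfun v hv 0 0 1
    rw [T_of_quad X A' hA', T_of_quad Y B' hB'] at this
    simpa using this
  have hA0 : 0 ≤ A' := by
    have h1 := hA' 0 1
    have h2 := hconv 0 a₁
    simp only [hX] at h1
    simp at h1 h2
    have e : G (-a₁) = G (-a₁) := rfl
    linarith
  have hB0 : 0 ≤ B' := by
    have h1 := hB' 0 1
    have h2 := hconv 0 ((0, 1) : V)
    simp only [hY] at h1
    simp at h1 h2
    linarith
  have hnot : ¬ (A' = 0 ∧ B' = 0) := by
    rintro ⟨hA, hB⟩
    obtain ⟨y, h, hyh⟩ := hne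
    apply hyh
    have d1 := hdec y
    have d2 := hdec h
    set s := y.1 / p
    set t := y.2 - y.1 * q / p
    set s' := h.1 / p
    set t' := h.2 - h.1 * q / p
    have g1 : y + h = (s + s') • a₁ + (t + t') • ((0, 1) : V) := by
      rw [d1, d2]; module
    have g2 : y - h = (s - s') • a₁ + (t - t') • ((0, 1) : V) := by
      rw [d1, d2]; module
    rw [g1, g2, d1, hXY, hXY, hXY]
    have h1 := hA' s s'
    have h2 := hB' t t'
    rw [hA] at h1
    rw [hB] at h2
    linarith
  have hApos : 0 < A' := by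
    rcases hA0.lt_or_eq with h | h
    · exact h
    · exfalso
      apply hnot
      refine ⟨h.symm, ?_⟩
      have := hall v₃ hv₃
      rw [← h] at this
      simp only [zero_mul, zero_add] at this
      rcases mul_eq_zero.1 this with h3 | h3
      · exact h3
      · rcases mul_eq_zero.1 h3 with h4 | h4
        · exact absurd h4 hb₃
        · exact absurd h4 hd₃
  have hBpos : 0 < B' := by
    rcases hB0.lt_or_eq with h | h
    · exact h
    · exfalso
      have := hall v₂ hv₂
      rw [← h] at this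
      simp only [zero_mul, add_zero] at this
      rcases mul_eq_zero.1 this with h3 | h3
      · linarith
      · rcases mul_eq_zero.1 h3 with h4 | h4
        · exact absurd h4 (div_ne_zero ha₂ hp0)
        · exact absurd h4 (div_ne_zero hc₂ hp0)
  refine ⟨A' / p ^ 2 + B' * q ^ 2 / p ^ 2, - B' * q / p, B', by positivity, ?_, ?_⟩
  · have : (A' / p ^ 2 + B' * q ^ 2 / p ^ 2) * B' - (-B' * q / p) ^ 2 = A' * B' / p ^ 2 := by
      field_simp
      ring
    rw [this]
    positivity
  · intro v hv
    have := hall v hv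
    field_simp at this ⊢
    linarith

end Pool.Agent.Helper28.FG
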