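import Mathlib
import Pool.Agent.Helper28.FG.Lim

set_option autoImplicit false

namespace Pool.Agent.Helper28.FG

open Filter Topology Set

lemma dot_add_left (a b c : V) : dot (a + b) c = dot a c + dot b c := by
  simp only [dot, Prod.fst_add, Prod.snd_add]; ring
lemma dot_add_right (a b c : V) : dot a (b + c) = dot a b + dot a c := by
  simp only [dot, Prod.fst_add, Prod.snd_add]; ring
lemma dot_sub_left (a b c : V) : dot (a - b) c = dot a c - dot b c := by
  simp only [dot, Prod.fst_sub, Prod.snd_sub]; ring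
lemma dot_sub_right (a b c : V) : dot a (b - c) = dot a b - dot a c := by
  simp only [dot, Prod.fst_sub, Prod.snd_sub]; ring
lemma dot_smul_left (t : ℝ) (a b : V) : dot (t • a) b = t * dot a b := by
  simp only [dot, Prod.smul_fst, Prod.smul_snd, smul_eq_mul]; ring
lemma dot_smul_right (t : ℝ) (a b : V) : dot a (t • b) = t * dot a b := by
  simp only [dot, Prod.smul_fst, Prod.smul_snd, smul_eq_mul]; ring
lemma dot_neg_left (a b : V) : dot (-a) b = - dot a b := by
  simp only [dot, Prod.fst_neg, Prod.snd_neg]; ring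
lemma dot_neg_right (a b : V) : dot a (-b) = - dot a b := by
  simp only [dot, Prod.fst_neg, Prod.snd_neg]; ring
lemma dot_zero_left (a : V) : dot 0 a = 0 := by simp [dot]
lemma dot_zero_right (a : V) : dot a 0 = 0 := by simp [dot]
lemma dot_comm (a b : V) : dot a b = dot b a := by simp only [dot]; ring
lemma dot_perp (v : V) : dot (perp v) v = 0 := by simp only [dot, perp]; ring

lemma dot_self_pos (v : V) (hv : v ≠ 0) : 0 < dot v v := by
  simp only [dot]
  by_contra h
  have h1 : v.1 = 0 := by nlinarith [mul_self_nonneg v.1, mul_self_nonneg v.2]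
  have h2 : v.2 = 0 := by nlinarith [mul_self_nonneg v.1, mul_self_nonneg v.2]
  exact hv (Prod.ext h1 h2)

lemma abs_dot_le (a b : V) : |dot a b| ≤ 2 * (‖a‖ * ‖b‖) := by
  have h1 : |a.1| ≤ ‖a‖ := norm_fst_le a
  have h2 : |a.2| ≤ ‖a‖ := norm_snd_le a
  have h3 : |b.1| ≤ ‖b‖ := norm_fst_le b
  have h4 : |b.2| ≤ ‖b‖ := norm_snd_le b
  simp only [dot]
  calc |a.1 * b.1 + a.2 * b.2| ≤ |a.1 * b.1| + |a.2 * b.2| := abs_add_le _ _
    _ = |a.1| * |b.1| + |a.2| * |b.2| := by rw [abs_mul, abs_mul]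
    _ ≤ ‖a‖ * ‖b‖ + ‖a‖ * ‖b‖ := by gcongr
    _ = _ := by ring

@[fun_prop]
lemma continuous_dot : Continuous (fun z : V × V => dot z.1 z.2) := by
  unfold dot; fun_prop

lemma Continuous.dot' {X : Type*} [TopologicalSpace X] {f g : X → V} (hf : Continuous f)
    (hg : Continuous g) : Continuous (fun x => dot (f x) (g x)) := by
  unfold dot; fun_prop

lemma Tendsto.dot' {X : Type*} {l : Filter X} {f g : X → V} {a b : V} (hf : Tendsto f l (𝓝 a))
    (hg : Tendsto g l (𝓝 b)) : Tendsto (fun x => dot (f x) (g x)) l (𝓝 (dot a b)) := by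
  have h1 := (continuous_dot.tendsto (a, b)).comp (hf.prodMk_nhds hg)
  exact h1

/-- A function with a subgradient at every point is continuous. -/
lemma cont_of_subgrad (f : V → ℝ) (c : V → V) (h : ∀ x y, f x + dot (y - x) (c x) ≤ f y) :
    Continuous f := by
  have hcv : ConvexOn ℝ univ f := by
    refine ⟨convex_univ, ?_⟩
    intro x _ y _ a b ha hb hab
    have h1 := h (a • x + b • y) x
    have h2 := h (a • x + b • y) y
    have e1 : x - (a • x + b • y) = b • (x - y) := by
      have : a = 1 - b := by linarith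
      subst this
      module
    have e2 : y - (a • x + b • y) = (-a) • (x - y) := by
      have : b = 1 - a := by linarith
      subst this
      module
    rw [e1, dot_smul_left] at h1
    rw [e2, dot_smul_left] at h2
    simp only [smul_eq_mul]
    have h3 := mul_le_mul_of_nonneg_left h1 ha
    have h4 := mul_le_mul_of_nonneg_left h2 hb
    have h5 : f (a • x + b • y) = a * f (a • x + b • y) + b * f (a • x + b • y) := by
      rw [← add_mul, hab, one_mul]
    nlinarith
  have := hcv.continuousOn isOpen_univ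
  exact continuousOn_univ.1 this

/-- excess function -/
def Ex (g : V → ℝ) (w : V → V) (x d : V) : ℝ := g (x + d) - g x - dot d (w x)

section

variable (g : V → ℝ) (w : V → V)
    (hsub : ∀ x y, g x + dot (y - x) (w x) ≤ g y)

include hsub

lemma Ex_nonneg (x d : V) : 0 ≤ Ex g w x d := by
  have := hsub x (x + d)
  simp only [add_sub_cancel_left] at this
  simp only [Ex]
  linarith

lemma Ex_le (x d : V) : Ex g w x d ≤ dot d (w (x + d) - w x) := by
  have := hsub (x + d) x
  have e : x - (x + d) = -d := by abel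
  rw [e, dot_neg_left] at this
  simp only [Ex, dot_sub_right]
  linarith

omit hsub in
lemma mono_eq (x d : V) : dot d (w (x + d) - w x) = Ex g w x d + Ex g w (x + d) (-d) := by
  simp only [Ex, dot_sub_right, dot_neg_left]
  have e : x + d + -d = x := by abel
  rw [e]
  ring

lemma pick (hw : Continuous w) (g0 : g 0 = 0) (w0 : w 0 = 0) (gpos : ∀ x, x ≠ 0 → 0 < g x)
    (m : ℕ) (ε : ℝ) (hε : 0 < ε) :
    ∃ (x : V) (i : ℕ) (ω : ℝ), ‖x‖ ≤ ε ∧ m < i ∧ 0 < ω ∧
      (∀ l ≤ i, ∀ d : V, ‖d‖ ≤ 2 ^ l * (ε / 2 ^ i) → Ex g w x d ≤ 8 ^ l * ω) ∧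
      ∃ d : V, ‖d‖ ≤ ε / 2 ^ i ∧ Ex g w x d = ω := by
  have hg : Continuous g := cont_of_subgrad g w hsub
  have hE : Continuous (fun z : V × V => Ex g w z.1 z.2) := by
    unfold Ex dot
    fun_prop
  -- global bound
  obtain ⟨C₀, hC₀, hb⟩ : ∃ C₀ : ℝ, 0 < C₀ ∧ ∀ x d : V, ‖x‖ ≤ ε → ‖d‖ ≤ ε → Ex g w x d ≤ C₀ := by
    have hcomp : IsCompact ((Metric.closedBall (0 : V) ε) ×ˢ (Metric.closedBall (0 : V) ε)) :=
      (isCompact_closedBall _ _).prod (isCompact_closedBall _ _)
    obtain ⟨C, hC⟩ := hcomp.bddAbove_image hE.continuousOn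
    refine ⟨max C 1, by positivity, ?_⟩
    intro x d hx hd
    have := hC (mem_image_of_mem _ (show (x, d) ∈ _ from ⟨by simpa using hx, by simpa using hd⟩))
    exact this.trans (le_max_left _ _)
  -- there is a non-decaying centre
  obtain ⟨x, hx, j, d, hd, hEd⟩ : ∃ x : V, ‖x‖ ≤ ε ∧ ∃ (j : ℕ) (d : V), ‖d‖ ≤ ε / 2 ^ j ∧
      8 ^ m * C₀ / 8 ^ j < Ex g w x d := by
    by_contra hcon
    push Not at hcon
    set C := 8 ^ m * C₀ with hC
    have hCpos : 0 < C := by positivity
    set d : V := (ε, 0) with hd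
    have hdn : ‖d‖ = ε := by
      simp [hd, Prod.norm_def, abs_of_pos hε, hε.le]
    have hd0 : d ≠ 0 := by
      intro h
      rw [h, norm_zero] at hdn
      linarith
    have hstep : ∀ j : ℕ, dot d (w d - w 0) ≤ 2 * C * (1 / 2 : ℝ) ^ j := by
      intro j
      set δ : V := (1 / 2 ^ j : ℝ) • d with hδ
      have hδn : ‖δ‖ = ε / 2 ^ j := by
        rw [hδ, norm_smul, hdn, Real.norm_of_nonneg (by positivity)]
        ring
      have hind : ∀ i : ℕ, i ≤ 2 ^ j → dot δ (w ((i : ℝ) • δ) - w 0) ≤ i * (2 * (C / 8 ^ j)) := by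
        intro i
        induction i with
        | zero => intro _; simp [dot]
        | succ i ih =>
          intro hi
          have ih' := ih (by omega)
          have hnorm : ∀ k : ℕ, k ≤ 2 ^ j → ‖(k : ℝ) • δ‖ ≤ ε := by
            intro k hk
            rw [norm_smul, hδn, Real.norm_of_nonneg (by positivity)]
            have : (k : ℝ) ≤ 2 ^ j := by exact_mod_cast hk
            calc (k : ℝ) * (ε / 2 ^ j) ≤ 2 ^ j * (ε / 2 ^ j) := by gcongr
              _ = ε := by field_simp
          have e0 : ((i + 1 : ℕ) : ℝ) • δ = (i : ℝ) • δ + δ := by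
            push_cast
            module
          have h1 := mono_eq g w ((i : ℝ) • δ) δ
          have h2 := hcon ((i : ℝ) • δ) (hnorm i (by omega)) j δ hδn.le
          have h3 := hcon ((i : ℝ) • δ + δ) (by rw [← e0]; exact hnorm _ hi) j (-δ)
            (by rw [norm_neg]; exact hδn.le)
          rw [e0]
          have e1 : w ((i : ℝ) • δ + δ) - w 0
              = (w ((i : ℝ) • δ + δ) - w ((i : ℝ) • δ)) + (w ((i : ℝ) • δ) - w 0) := by abel
          rw [e1, dot_add_right, h1]
          push_cast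
          nlinarith
      have h4 := hind (2 ^ j) le_rfl
      have e5 : (((2 ^ j : ℕ) : ℝ)) • δ = d := by
        rw [hδ, smul_smul]
        push_cast
        rw [mul_one_div_cancel (by positivity), one_smul]
      rw [e5] at h4
      have e6 : dot d (w d - w 0) = 2 ^ j * dot δ (w d - w 0) := by
        rw [hδ, dot_smul_left]
        field_simp
      rw [e6]
      push_cast at h4
      calc (2 : ℝ) ^ j * dot δ (w d - w 0) ≤ 2 ^ j * (2 ^ j * (2 * (C / 8 ^ j))) := by gcongr
        _ = 2 * C * (1 / 2 : ℝ) ^ j := by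
          have : (8 : ℝ) ^ j = 2 ^ j * 2 ^ j * 2 ^ j := by
            rw [← mul_pow, ← mul_pow]; norm_num
          rw [this, one_div, inv_pow]
          field_simp
    have hlim : Tendsto (fun j : ℕ => 2 * C * (1 / 2 : ℝ) ^ j) atTop (𝓝 (2 * C * 0)) :=
      (tendsto_pow_atTop_nhds_zero_of_lt_one (by norm_num) (by norm_num)).const_mul _
    rw [mul_zero] at hlim
    have h5 : dot d (w d - w 0) ≤ 0 := ge_of_tendsto' hlim hstep
    have h6 := Ex_le g w hsub 0 d
    simp only [Ex, zero_add, g0, w0, dot_zero_right, sub_zero] at h6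
    rw [w0, sub_zero] at h5
    have h7 := gpos d hd0
    linarith
  -- maximisers on the dyadic balls
  have hmax : ∀ i : ℕ, ∃ d : V, ‖d‖ ≤ ε / 2 ^ i ∧ ∀ d' : V, ‖d'‖ ≤ ε / 2 ^ i →
      Ex g w x d' ≤ Ex g w x d := by
    intro i
    have hc : ContinuousOn (fun d => Ex g w x d) (Metric.closedBall (0 : V) (ε / 2 ^ i)) := by
      have : Continuous (fun d => Ex g w x d) := hE.comp (Continuous.prodMk_right x)
      exact this.continuousOn
    obtain ⟨d, hd, hm⟩ := (isCompact_closedBall (0 : V) (ε / 2 ^ i)).exists_isMaxOn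
      ⟨0, by simp; positivity⟩ hc
    refine ⟨d, by simpa using hd, ?_⟩
    intro d' hd'
    exact hm (by simpa using hd')
  choose D hD1 hD2 using hmax
  obtain ⟨i, hi, him⟩ := Finset.exists_max_image (Finset.range (j + 1))
    (fun i => (8 : ℝ) ^ i * Ex g w x (D i)) ⟨0, by simp⟩
  have hbig : 8 ^ m * C₀ < 8 ^ i * Ex g w x (D i) := by
    have h1 := him j (by simp)
    have h2 := hD2 j d hd
    have h3 : 8 ^ m * C₀ < 8 ^ j * Ex g w x d := by
      rw [div_lt_iff₀ (by positivity)] at hEd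
      linarith
    calc 8 ^ m * C₀ < 8 ^ j * Ex g w x d := h3
      _ ≤ 8 ^ j * Ex g w x (D j) := by gcongr
      _ ≤ _ := h1
  have hsmall : Ex g w x (D i) ≤ C₀ := by
    apply hb _ _ hx
    refine (hD1 i).trans ?_
    apply div_le_self hε.le
    exact one_le_pow₀ (by norm_num)
  have hmi : m < i := by
    have h1 : (8 : ℝ) ^ m * C₀ < 8 ^ i * C₀ := by
      calc _ < _ := hbig
        _ ≤ _ := by gcongr
    have h2 : (8 : ℝ) ^ m < 8 ^ i := lt_of_mul_lt_mul_right h1 hC₀.le
    exact (pow_lt_pow_iff_right₀ (by norm_num)).1 h2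
  have hωpos : 0 < Ex g w x (D i) := by
    by_contra h
    push Not at h
    have h1 : (0 : ℝ) < 8 ^ m * C₀ := by positivity
    have h2 : (8 : ℝ) ^ i * Ex g w x (D i) ≤ 0 := mul_nonpos_of_nonneg_of_nonpos (by positivity) h
    linarith
  refine ⟨x, i, Ex g w x (D i), hx, hmi, hωpos, ?_, D i, hD1 i, rfl⟩
  intro l hl d' hd'
  have e : (2 : ℝ) ^ l * (ε / 2 ^ i) = ε / 2 ^ (i - l) := by
    have : (2 : ℝ) ^ i = 2 ^ (i - l) * 2 ^ l := by
      rw [← pow_add]; congr 1; omega
    rw [this]
    field_simp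
  rw [e] at hd'
  have h1 := hD2 (i - l) d' hd'
  have h2 := him (i - l) (by simp at hi ⊢; omega)
  have h3 : (8 : ℝ) ^ i = 8 ^ (i - l) * 8 ^ l := by
    rw [← pow_add]; congr 1; omega
  rw [h3] at h2
  have h4 : Ex g w x (D (i - l)) ≤ 8 ^ l * Ex g w x (D i) := by
    have h5 : (8 : ℝ) ^ (i - l) * Ex g w x (D (i - l)) ≤ 8 ^ (i - l) * (8 ^ l * Ex g w x (D i)) := by
      linarith
    exact le_of_mul_le_mul_left h5 (by positivity)
  exact h1.trans h4

end

end Pool.Agent.Helper28.FG
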