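import Mathlib
import Pool.Agent.Helper28.FG.Pick

set_option autoImplicit false

namespace Pool.Agent.Helper28.FG

open Filter Topology Set

lemma ultra_lim {X : Type*} [TopologicalSpace X] (U : Ultrafilter ℕ) {K : Set X}
    (hK : IsCompact K) (u : ℕ → X) (h : ∀ᶠ n in (U : Filter ℕ), u n ∈ K) :
    ∃ x ∈ K, Tendsto u U (𝓝 x) := by
  obtain ⟨x, hx, hle⟩ := hK.ultrafilter_le_nhds (U.map u) (le_principal_iff.2 h)
  exact ⟨x, hx, hle⟩

theorem blowup (g : V → ℝ) (w : V → V)
    (hsub : ∀ x y, g x + dot (y - x) (w x) ≤ g y) (hw : Continuous w)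
    (g0 : g 0 = 0) (w0 : w 0 = 0) (gpos : ∀ x, x ≠ 0 → 0 < g x)
    (ρ : V → V → ℝ) (α : V → V → V) (β : V → V → ℝ)
    (hρ0 : ∀ v, v ≠ 0 → 0 < ρ 0 v)
    (hρ : ∀ v, v ≠ 0 → ContinuousAt (fun x => ρ x v) 0)
    (hα : ∀ v, v ≠ 0 → ContinuousAt (fun x => α x v) 0)
    (hβ : ∀ v, v ≠ 0 → ContinuousAt (fun x => β x v) 0)
    (hflat : ∀ v, v ≠ 0 → ∀ᶠ x in 𝓝 (0 : V), ∀ y,
      ρ x v * dot (y - x) v = g y - g x - dot (y - x) (w x) →
      dot (α x v) (w y - w x) + β x v * ((dot y (w y) - g y) - (dot x (w x) - g x)) = 0)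
    (hαv : ∀ v, v ≠ 0 → dot (α 0 v) v ≠ 0)
    (hαc : ContinuousOn (fun v => α 0 v) {0}ᶜ) :
    ∃ A B C : ℝ, 0 < A ∧ 0 < A * C - B ^ 2 ∧ ∀ v, v ≠ 0 →
      A * ((α 0 v).1 * (perp v).1) + B * ((α 0 v).1 * (perp v).2 + (α 0 v).2 * (perp v).1)
        + C * ((α 0 v).2 * (perp v).2) = 0 := by
  classical
  have hg : Continuous g := cont_of_subgrad g w hsub
  choose x i ω hx hi hω hgrow D hD hDω using
    fun n : ℕ => pick g w hsub hw g0 w0 gpos n (1 / ((n : ℝ) + 1)) (by positivity)
  set r : ℕ → ℝ := fun n => (1 / ((n : ℝ) + 1)) / 2 ^ (i n) with hr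
  have hrpos : ∀ n, 0 < r n := fun n => by simp only [hr]; positivity
  have hrle : ∀ n, r n ≤ 1 / ((n : ℝ) + 1) := fun n => by
    simp only [hr]
    apply div_le_self (by positivity)
    exact one_le_pow₀ (by norm_num)
  have hn0 : Tendsto (fun n : ℕ => 1 / ((n : ℝ) + 1)) atTop (𝓝 0) :=
    tendsto_one_div_add_atTop_nhds_zero_nat
  have hr0 : Tendsto r atTop (𝓝 0) := squeeze_zero (fun n => (hrpos n).le) hrle hn0
  have hx0 : Tendsto x atTop (𝓝 0) := squeeze_zero_norm hx hn0
  set Gn : ℕ → V → ℝ := fun n δ => Ex g w (x n) (r n • δ) / ω n with hGn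
  set an : ℕ → V → V := fun n δ => (r n / ω n) • (w (x n + r n • δ) - w (x n)) with han
  have hG1 : ∀ n δ δ', Gn n δ + dot (δ' - δ) (an n δ) ≤ Gn n δ' := by
    intro n δ δ'
    have h1 := hsub (x n + r n • δ) (x n + r n • δ')
    have e1 : x n + r n • δ' - (x n + r n • δ) = r n • (δ' - δ) := by module
    rw [e1, dot_smul_left] at h1
    simp only [hGn, han, Ex, dot_smul_right, dot_smul_left]
    rw [div_add' _ _ _ (hω n).ne', div_le_div_iff_of_pos_right (hω n)]
    have e2 : r n / ω n * dot (δ' - δ) (w (x n + r n • δ) - w (x n)) * ω n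
        = r n * (dot (δ' - δ) (w (x n + r n • δ)) - (dot δ' (w (x n)) - dot δ (w (x n)))) := by
      rw [dot_sub_right, dot_sub_left δ' δ (w (x n))]
      have := (hω n).ne'
      field_simp
    rw [e2]
    linarith
  have hG0 : ∀ n δ, 0 ≤ Gn n δ := fun n δ =>
    div_nonneg (Ex_nonneg g w hsub _ _) (hω n).le
  have hG00 : ∀ n, Gn n 0 = 0 := by
    intro n
    simp [hGn, Ex, dot_zero_left]
  have hP3 : ∀ l : ℕ, ∀ᶠ n in atTop, ∀ δ : V, ‖δ‖ ≤ 2 ^ l → Gn n δ ≤ 8 ^ l := by
    intro l
    filter_upwards [eventually_ge_atTop l] with n hn δ hδ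
    have h1 := hgrow n l (by have := hi n; omega) (r n • δ) (by
      rw [norm_smul, Real.norm_of_nonneg (hrpos n).le, mul_comm]
      gcongr)
    simp only [hGn]
    rw [div_le_iff₀ (hω n)]
    exact h1
  have hP5 : ∀ l : ℕ, ∀ᶠ n in atTop, ∀ δ : V, ‖δ‖ ≤ 2 ^ l → ‖an n δ‖ ≤ 8 ^ (l + 1) := by
    intro l
    filter_upwards [hP3 (l + 1)] with n hn δ hδ
    have hone : (1 : ℝ) ≤ 2 ^ l := one_le_pow₀ (by norm_num)
    have key : ∀ e : V, ‖e‖ ≤ 1 → dot e (an n δ) ≤ 8 ^ (l + 1) := by
      intro e he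
      have h1 := hG1 n δ (δ + e)
      have e1 : δ + e - δ = e := by abel
      rw [e1] at h1
      have h2 := hn (δ + e) (by
        calc ‖δ + e‖ ≤ ‖δ‖ + ‖e‖ := norm_add_le _ _
          _ ≤ 2 ^ l + 1 := by gcongr
          _ ≤ 2 ^ (l + 1) := by rw [pow_succ]; linarith)
      have h3 := hG0 n δ
      linarith
    have k1 := key (1, 0) (by simp [Prod.norm_def])
    have k2 := key (-1, 0) (by simp [Prod.norm_def])
    have k3 := key (0, 1) (by simp [Prod.norm_def])
    have k4 := key (0, -1) (by simp [Prod.norm_def])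
    simp only [dot] at k1 k2 k3 k4
    rw [Prod.norm_def]
    simp only [Real.norm_eq_abs]
    apply max_le <;> rw [abs_le] <;> constructor <;> linarith
  -- the ultrafilter
  set U : Ultrafilter ℕ := hyperfilter ℕ with hU
  have hUle : (U : Filter ℕ) ≤ atTop := Nat.hyperfilter_le_atTop
  have hlev : ∀ δ : V, ∃ l : ℕ, ‖δ‖ ≤ 2 ^ l := by
    intro δ
    obtain ⟨l, hl⟩ := pow_unbounded_of_one_lt ‖δ‖ (by norm_num : (1 : ℝ) < 2)
    exact ⟨l, hl.le⟩
  have hlimG : ∀ δ : V, ∃ L : ℝ, Tendsto (fun n => Gn n δ) U (𝓝 L) := by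
    intro δ
    obtain ⟨l, hl⟩ := hlev δ
    obtain ⟨L, -, hL⟩ := ultra_lim U (isCompact_Icc (a := (0 : ℝ)) (b := 8 ^ l)) (fun n => Gn n δ) (by
      filter_upwards [hUle (hP3 l)] with n hn
      exact ⟨hG0 n δ, hn δ hl⟩)
    exact ⟨L, hL⟩
  have hlima : ∀ δ : V, ∃ L : V, Tendsto (fun n => an n δ) U (𝓝 L) := by
    intro δ
    obtain ⟨l, hl⟩ := hlev δ
    obtain ⟨L, -, hL⟩ := ultra_lim U (isCompact_closedBall (0 : V) (8 ^ (l + 1))) (fun n => an n δ) (by
      filter_upwards [hUle (hP5 l)] with n hn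
      simpa using hn δ hl)
    exact ⟨L, hL⟩
  choose G hG using hlimG
  choose a ha using hlima
  have hGsub : ∀ δ δ', G δ + dot (δ' - δ) (a δ) ≤ G δ' := by
    intro δ δ'
    refine le_of_tendsto_of_tendsto' ((hG δ).add (Tendsto.dot' tendsto_const_nhds (ha δ))) (hG δ')
      (fun n => hG1 n δ δ')
  have hGc : Continuous G := cont_of_subgrad G a hGsub
  have hGnn : ∀ δ, 0 ≤ G δ := fun δ => ge_of_tendsto' (hG δ) (fun n => hG0 n δ)
  have hGz : G 0 = 0 := by
    refine tendsto_nhds_unique (hG 0) ?_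
    simp only [hG00]
    exact tendsto_const_nhds
  obtain ⟨δs, hδs⟩ : ∃ δ, 1 ≤ G δ := by
    set e : ℕ → V := fun n => (r n)⁻¹ • D n with he
    have hen : ∀ n, ‖e n‖ ≤ 1 := by
      intro n
      rw [he]
      simp only
      rw [norm_smul, norm_inv, Real.norm_of_nonneg (hrpos n).le]
      have := hD n
      rw [inv_mul_le_iff₀ (hrpos n), mul_one]
      exact this
    have hen1 : ∀ n, Gn n (e n) = 1 := by
      intro n
      simp only [hGn, he, smul_smul, mul_inv_cancel₀ (hrpos n).ne', one_smul, hDω]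
      exact div_self (hω n).ne'
    obtain ⟨L, hLn, hL⟩ := ultra_lim U (isCompact_closedBall (0 : V) 1) e (by
      filter_upwards with n
      simpa using hen n)
    refine ⟨L, ?_⟩
    have hb : ∀ᶠ n in (U : Filter ℕ), 1 - 2 * (‖L - e n‖ * 8 ^ 1) ≤ Gn n L := by
      filter_upwards [hUle (hP5 0)] with n hn
      have h1 := hG1 n (e n) L
      have h2 := hn (e n) (by simpa using hen n)
      have h3 := abs_dot_le (L - e n) (an n (e n))
      rw [hen1] at h1
      have h4 : -(2 * (‖L - e n‖ * ‖an n (e n)‖)) ≤ dot (L - e n) (an n (e n)) := (abs_le.1 h3).1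
      have h5 : ‖L - e n‖ * ‖an n (e n)‖ ≤ ‖L - e n‖ * 8 ^ 1 := by
        gcongr
      linarith
    have ht : Tendsto (fun n => 1 - 2 * (‖L - e n‖ * 8 ^ 1)) U (𝓝 (1 - 2 * (‖L - L‖ * 8 ^ 1))) := by
      apply Tendsto.const_sub
      apply Tendsto.const_mul
      apply Tendsto.mul_const
      exact (tendsto_const_nhds.sub hL).norm
    simp only [sub_self, norm_zero, zero_mul, mul_zero, sub_zero] at ht
    exact le_of_tendsto_of_tendsto ht (hG L) hb
  -- ratio tends to zero
  have hlam : Tendsto (fun n => ω n / r n) atTop (𝓝 0) := by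
    have hDr : ∀ n, ‖D n‖ ≤ 1 / ((n : ℝ) + 1) := fun n => (hD n).trans (hrle n)
    have hD0 : Tendsto D atTop (𝓝 0) := squeeze_zero_norm hDr hn0
    have ht1 : Tendsto (fun n => w (x n + D n) - w (x n)) atTop (𝓝 (w (0 + 0) - w 0)) := by
      apply Tendsto.sub
      · exact (hw.tendsto _).comp (hx0.add hD0)
      · exact (hw.tendsto _).comp hx0
    have ht2 := (ht1.norm).const_mul 2
    simp only [add_zero, sub_self, norm_zero, mul_zero] at ht2
    refine squeeze_zero (fun n => (div_pos (hω n) (hrpos n)).le) (fun n => ?_) ht2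
    have h1 := Ex_le g w hsub (x n) (D n)
    rw [hDω] at h1
    have h2 := le_trans (le_abs_self _) (abs_dot_le (D n) (w (x n + D n) - w (x n)))
    rw [div_le_iff₀ (hrpos n)]
    have h3 : ‖D n‖ * ‖w (x n + D n) - w (x n)‖ ≤ r n * ‖w (x n + D n) - w (x n)‖ := by
      gcongr
      exact hD n
    linarith
  have hlamU := hlam.mono_left hUle
  have hrU := hr0.mono_left hUle
  have hxU := hx0.mono_left hUle
  -- the key claim
  have hclaim : ∀ v, v ≠ 0 → ∀ (δ₀ : V) (t : ℝ), ∃ a' : V,
      (∀ δ', G (δ₀ + t • perp v) + dot (δ' - (δ₀ + t • perp v)) a' ≤ G δ') ∧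
      dot (α 0 v) a' = dot (α 0 v) (a δ₀) := by
    intro v hv δ₀ t
    have hvv : 0 < dot v v := dot_self_pos v hv
    set xs : ℕ → V := fun n => x n + r n • δ₀ with hxs
    have hxs0 : Tendsto xs U (𝓝 0) := by
      have := hxU.add (hrU.smul_const δ₀)
      simpa using this
    set ρn : ℕ → ℝ := fun n => ρ (xs n) v with hρn
    set αn : ℕ → V := fun n => α (xs n) v with hαn
    set βn : ℕ → ℝ := fun n => β (xs n) v with hβn
    have hρnt : Tendsto ρn U (𝓝 (ρ 0 v)) := (hρ v hv).tendsto.comp hxs0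
    have hαnt : Tendsto αn U (𝓝 (α 0 v)) := (hα v hv).tendsto.comp hxs0
    have hβnt : Tendsto βn U (𝓝 (β 0 v)) := (hβ v hv).tendsto.comp hxs0
    set δ : ℝ → V := fun s => δ₀ + t • perp v + s • v with hδ
    set Xn : ℕ → ℝ → ℝ := fun n s => Gn n (δ s) - Gn n δ₀ - dot (δ s - δ₀) (an n δ₀) with hXn
    have hXn0 : ∀ n s, 0 ≤ Xn n s := by
      intro n s
      have := hG1 n δ₀ (δ s)
      simp only [hXn]
      linarith
    obtain ⟨l, hl⟩ : ∃ l : ℕ, ‖δ₀‖ + |t| * ‖perp v‖ + ‖v‖ ≤ 2 ^ l := by
      obtain ⟨l, hl⟩ := pow_unbounded_of_one_lt (‖δ₀‖ + |t| * ‖perp v‖ + ‖v‖)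
        (by norm_num : (1 : ℝ) < 2)
      exact ⟨l, hl.le⟩
    have hδn : ∀ s ∈ Icc (0 : ℝ) 1, ‖δ s‖ ≤ 2 ^ l := by
      intro s hs
      calc ‖δ s‖ ≤ ‖δ₀ + t • perp v‖ + ‖s • v‖ := norm_add_le _ _
        _ ≤ ‖δ₀‖ + ‖t • perp v‖ + ‖s • v‖ := by gcongr; exact norm_add_le _ _
        _ = ‖δ₀‖ + |t| * ‖perp v‖ + s * ‖v‖ := by
            rw [norm_smul, norm_smul, Real.norm_eq_abs, Real.norm_of_nonneg hs.1]
        _ ≤ ‖δ₀‖ + |t| * ‖perp v‖ + 1 * ‖v‖ := by gcongr; exact hs.2
        _ ≤ 2 ^ l := by linarith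
    have hδ₀n : ‖δ₀‖ ≤ 2 ^ l := by
      have h1 : 0 ≤ |t| * ‖perp v‖ := by positivity
      have h2 : 0 ≤ ‖v‖ := norm_nonneg _
      linarith
    set Bd : ℝ := 8 ^ l + 2 * ((2 ^ l + 2 ^ l) * 8 ^ (l + 1)) with hBd
    have hBd0 : 0 < Bd := by positivity
    have hXb : ∀ᶠ n in (U : Filter ℕ), ∀ s ∈ Icc (0 : ℝ) 1, Xn n s ≤ Bd := by
      filter_upwards [hUle (hP3 l), hUle (hP5 l)] with n h3 h5 s hs
      have e1 := h3 (δ s) (hδn s hs)
      have e2 := hG0 n δ₀
      have e3 := h5 δ₀ hδ₀n
      have e4 := (abs_le.1 (abs_dot_le (δ s - δ₀) (an n δ₀))).1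
      have e5 : ‖δ s - δ₀‖ * ‖an n δ₀‖ ≤ (2 ^ l + 2 ^ l) * 8 ^ (l + 1) := by
        gcongr
        calc ‖δ s - δ₀‖ ≤ ‖δ s‖ + ‖δ₀‖ := norm_sub_le _ _
          _ ≤ _ := by gcongr; exact hδn s hs
      simp only [hXn, hBd]
      linarith
    -- relation with the excess
    have hrel : ∀ n s, Ex g w (xs n) (r n • (δ s - δ₀)) = ω n * Xn n s := by
      intro n s
      simp only [hXn, hGn, han, Ex, hxs]
      have e1 : x n + r n • δ₀ + r n • (δ s - δ₀) = x n + r n • δ s := by module
      rw [e1]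
      simp only [dot_smul_left, dot_smul_right, dot_sub_right, dot_sub_left]
      have := (hω n).ne'
      field_simp
      ring
    have hsolve : ∀ᶠ n in (U : Filter ℕ), ∃ s, s ∈ Icc (0 : ℝ) 1 ∧
        ρn n * (s * dot v v) = ω n / r n * Xn n s := by
      have hev1 : ∀ᶠ n in (U : Filter ℕ), ω n / r n * Bd < ρn n * dot v v := by
        have t1 : Tendsto (fun n => ω n / r n * Bd) U (𝓝 (0 * Bd)) := hlamU.mul_const _
        have t2 : Tendsto (fun n => ρn n * dot v v) U (𝓝 (ρ 0 v * dot v v)) := hρnt.mul_const _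
        rw [zero_mul] at t1
        exact t1.eventually_lt t2 (mul_pos (hρ0 v hv) hvv)
      filter_upwards [hev1, hXb] with n h1 h2
      set H : ℝ → ℝ := fun s => ρn n * (s * dot v v) - ω n / r n * Xn n s with hH
      have hlp : 0 < ω n / r n := div_pos (hω n) (hrpos n)
      have hHc : Continuous H := by
        have c1 : Continuous δ := by simp only [hδ]; fun_prop
        have c2 : Continuous (fun s => Gn n (δ s)) := by
          simp only [hGn, Ex, dot]
          fun_prop
        have c3 : Continuous (fun s => dot (δ s - δ₀) (an n δ₀)) :=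
          Continuous.dot' (c1.sub continuous_const) continuous_const
        simp only [hH, hXn]
        exact (by fun_prop : Continuous (fun s : ℝ => ρn n * (s * dot v v))).sub
          (continuous_const.mul ((c2.sub continuous_const).sub c3))
      have hH0 : H 0 ≤ 0 := by
        simp only [hH, zero_mul, mul_zero, zero_sub]
        have := mul_nonneg hlp.le (hXn0 n 0)
        linarith
      have hH1 : 0 ≤ H 1 := by
        simp only [hH, one_mul]
        have e1 := h2 1 ⟨by norm_num, le_rfl⟩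
        have e2 : ω n / r n * Xn n 1 ≤ ω n / r n * Bd := by gcongr
        linarith
      obtain ⟨s, hs, hs0⟩ := intermediate_value_Icc (by norm_num : (0 : ℝ) ≤ 1) hHc.continuousOn
        (show (0 : ℝ) ∈ Icc (H 0) (H 1) from ⟨hH0, hH1⟩)
      refine ⟨s, hs, ?_⟩
      simp only [hH] at hs0
      linarith
    obtain ⟨sn, hsn⟩ := hsolve.choice
    have hsn0 : Tendsto sn U (𝓝 0) := by
      have t1 : Tendsto (fun n => (ω n / r n * Bd) / (ρn n * dot v v)) U
          (𝓝 ((0 * Bd) / (ρ 0 v * dot v v))) := by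
        apply Tendsto.div (hlamU.mul_const _) (hρnt.mul_const _)
        exact (mul_pos (hρ0 v hv) hvv).ne'
      rw [zero_mul, zero_div] at t1
      have hρev : ∀ᶠ n in (U : Filter ℕ), 0 < ρn n := hρnt.eventually (lt_mem_nhds (hρ0 v hv))
      refine squeeze_zero' ?_ ?_ t1
      · filter_upwards [hsn] with n h1
        exact h1.1.1
      · filter_upwards [hsn, hXb, hρev] with n h1 h2 h3
        rw [le_div_iff₀ (mul_pos h3 hvv)]
        have e1 := h2 (sn n) h1.1
        have e2 := h1.2
        have hlp : 0 < ω n / r n := div_pos (hω n) (hrpos n)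
        have e3 : ω n / r n * Xn n (sn n) ≤ ω n / r n * Bd := by gcongr
        linarith
    set δn : ℕ → V := fun n => δ (sn n) with hδn'
    have hδnt : Tendsto δn U (𝓝 (δ₀ + t • perp v)) := by
      have := (tendsto_const_nhds (x := δ₀ + t • perp v) (f := (U : Filter ℕ))).add
        (hsn0.smul_const v)
      simpa [hδn', hδ] using this
    obtain ⟨a', -, ha'⟩ := ultra_lim U (isCompact_closedBall (0 : V) (8 ^ (l + 1)))
      (fun n => an n (δn n)) (by
        filter_upwards [hUle (hP5 l), hsn] with n h5 h1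
        simpa using h5 _ (hδn _ h1.1))
    refine ⟨a', ?_, ?_⟩
    · intro δ'
      have t1 : Tendsto (fun n => Gn n (δ₀ + t • perp v)
          + dot (δn n - (δ₀ + t • perp v)) (an n (δ₀ + t • perp v))
          + dot (δ' - δn n) (an n (δn n))) U
          (𝓝 (G (δ₀ + t • perp v) + dot ((δ₀ + t • perp v) - (δ₀ + t • perp v)) (a (δ₀ + t • perp v))
            + dot (δ' - (δ₀ + t • perp v)) a')) :=
        ((hG _).add (Tendsto.dot' (hδnt.sub_const _) (ha _))).add
          (Tendsto.dot' (tendsto_const_nhds.sub hδnt) ha')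
      rw [sub_self, dot_zero_left, add_zero] at t1
      refine le_of_tendsto_of_tendsto' t1 (hG δ') (fun n => ?_)
      have e1 := hG1 n (δ₀ + t • perp v) (δn n)
      have e2 := hG1 n (δn n) δ'
      linarith
    · -- the flatness relation in the limit
      have hflatU := hxs0.eventually (hflat v hv)
      have hrelation : ∀ᶠ n in (U : Filter ℕ),
          dot (αn n + βn n • (xs n + r n • (δn n - δ₀))) (an n (δn n) - an n δ₀)
            = βn n * (r n * Xn n (sn n)) := by
        filter_upwards [hflatU, hsn] with n h1 h2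
        set y := xs n + r n • (δn n - δ₀) with hy
        have hyx : y - xs n = r n • (δn n - δ₀) := by rw [hy]; abel
        have hExy : g y - g (xs n) - dot (y - xs n) (w (xs n)) = ω n * Xn n (sn n) := by
          rw [← hrel n (sn n), hyx]
          rfl
        have hdv : dot (δn n - δ₀) v = sn n * dot v v := by
          simp only [hδn', hδ]
          have e : δ₀ + t • perp v + sn n • v - δ₀ = t • perp v + sn n • v := by abel
          rw [e, dot_add_left, dot_smul_left, dot_smul_left, dot_perp]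
          ring
        have hcond : ρ (xs n) v * dot (y - xs n) v = g y - g (xs n) - dot (y - xs n) (w (xs n)) := by
          rw [hExy, hyx, dot_smul_left, hdv]
          have e2 := h2.2
          have := (hrpos n).ne'
          rw [show ρ (xs n) v = ρn n from rfl]
          calc ρn n * (r n * (sn n * dot v v)) = r n * (ρn n * (sn n * dot v v)) := by ring
            _ = r n * (ω n / r n * Xn n (sn n)) := by rw [e2]
            _ = ω n * Xn n (sn n) := by field_simp
        have h3 := h1 y hcond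
        have hz : (dot y (w y) - g y) - (dot (xs n) (w (xs n)) - g (xs n))
            = dot y (w y - w (xs n)) - ω n * Xn n (sn n) := by
          rw [← hExy, dot_sub_right, dot_sub_left]
          ring
        rw [hz] at h3
        have hwy : an n (δn n) - an n δ₀ = (r n / ω n) • (w y - w (xs n)) := by
          simp only [han]
          have e : x n + r n • δn n = y := by
            rw [hy, hxs]; simp only; module
          rw [e, ← smul_sub]
          congr 1
          simp only [hxs]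
          abel
        rw [hwy, dot_smul_right, dot_add_left, dot_smul_left]
        have h4 : dot (αn n) (w y - w (xs n)) + βn n * dot y (w y - w (xs n))
            = βn n * (ω n * Xn n (sn n)) := by
          have : αn n = α (xs n) v := rfl
          have h5 : βn n = β (xs n) v := rfl
          rw [this, h5]
          linarith
        rw [h4]
        have := (hω n).ne'
        field_simp
      have t1 : Tendsto (fun n => dot (αn n + βn n • (xs n + r n • (δn n - δ₀)))
          (an n (δn n) - an n δ₀)) U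
          (𝓝 (dot (α 0 v + β 0 v • (0 + (0 : ℝ) • ((δ₀ + t • perp v) - δ₀))) (a' - a δ₀))) := by
        apply Tendsto.dot'
        · exact hαnt.add (hβnt.smul (hxs0.add (hrU.smul (hδnt.sub_const _))))
        · exact ha'.sub (ha δ₀)
      have t2 : Tendsto (fun n => βn n * (r n * Xn n (sn n))) U (𝓝 (β 0 v * 0)) := by
        apply hβnt.mul
        have t3 : Tendsto (fun n => r n * Bd) U (𝓝 (0 * Bd)) := hrU.mul_const _
        rw [zero_mul] at t3
        refine squeeze_zero' ?_ ?_ t3
        · filter_upwards with n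
          exact mul_nonneg (hrpos n).le (hXn0 n _)
        · filter_upwards [hXb, hsn] with n h1 h2
          have := h1 _ h2.1
          have h3 := (hrpos n).le
          gcongr
      have t4 := tendsto_nhds_unique (t1.congr' hrelation) t2
      simp only [zero_smul, add_zero, smul_zero, mul_zero] at t4
      rw [dot_sub_right] at t4
      linarith
  -- mixed differences vanish
  have hMD : ∀ v, v ≠ 0 → ∀ y (s t : ℝ),
      G (y + s • α 0 v + t • perp v) - G (y + s • α 0 v) - G (y + t • perp v) + G y = 0 := by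
    intro v hv y s t
    have hc := fun s : ℝ => hclaim v hv (y + s • α 0 v) t
    choose a' ha'1 ha'2 using hc
    have h1 := common_slope (fun s => G (y + s • α 0 v)) (fun s => G (y + s • α 0 v + t • perp v))
      (fun s => dot (α 0 v) (a (y + s • α 0 v))) (by
        intro s s'
        have := hGsub (y + s • α 0 v) (y + s' • α 0 v)
        have e : y + s' • α 0 v - (y + s • α 0 v) = (s' - s) • α 0 v := by module
        rw [e, dot_smul_left] at this
        linarith) (by
        intro s s'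
        have := ha'1 s (y + s' • α 0 v + t • perp v)
        have e : y + s' • α 0 v + t • perp v - (y + s • α 0 v + t • perp v)
          = (s' - s) • α 0 v := by module
        rw [e, dot_smul_left, ha'2] at this
        linarith) 0 s
    simp only [zero_smul, add_zero] at h1
    linarith
  refine limit_core G hGc (fun v => α 0 v) hαc hαv ?_ ?_ hMD
  · intro y h
    have h1 := hGsub y (y + h)
    have h2 := hGsub y (y - h)
    have e1 : y + h - y = h := by abel
    have e2 : y - h - y = -h := by abel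
    rw [e1] at h1
    rw [e2, dot_neg_left] at h2
    linarith
  · refine ⟨0, δs, ?_⟩
    have h1 := hGnn (0 - δs)
    rw [hGz, zero_add]
    linarith

end Pool.Agent.Helper28.FG
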