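import Mathlib
import Pool.Agent.Helper28.FG.Base

set_option autoImplicit false

namespace Pool.Agent.Helper28.FG

open Filter Topology Set

section

variable {E : Type*} [NormedAddCommGroup E] [NormedSpace ℝ E]

/-- a maximiser of `f` on `M` -/
noncomputable def Pm (M : Set E) (f : E →L[ℝ] ℝ) : E :=
  open Classical in
  if h : ∃ q, q ∈ M ∧ ∀ y ∈ M, f y ≤ f q then h.choose else 0

lemma Pm_spec {M : Set E} (Mc : IsCompact M) (hne : M.Nonempty) (f : E →L[ℝ] ℝ) :
    Pm M f ∈ M ∧ ∀ y ∈ M, f y ≤ f (Pm M f) := by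
  have h : ∃ q, q ∈ M ∧ ∀ y ∈ M, f y ≤ f q := by
    obtain ⟨q, hq, hm⟩ := Mc.exists_isMaxOn hne (f.continuous.continuousOn)
    exact ⟨q, hq, fun y hy => hm hy⟩
  have : Pm M f = h.choose := by
    unfold Pm
    rw [dif_pos h]
  rw [this]
  exact h.choose_spec

variable {M K : Set E}

lemma GP.nonempty (h : GP M K) : M.Nonempty := h.Mint.mono interior_subset

lemma GP.not_mem (h : GP M K) {x : E} (hx : x ∈ frontier K) : x ∉ M := by
  intro hM
  rw [h.Kc.isClosed.frontier_eq] at hx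
  exact hx.2 (h.MK hM)

/-- the functional form of the graze condition -/
lemma GP.touch (h : GP M K) {x : E} (hx : x ∈ frontier K) :
    ∃ g : E →L[ℝ] ℝ, ∀ f : E →L[ℝ] ℝ, f ≠ 0 → ∀ q ∈ M, (∀ y ∈ M, f y ≤ f q) → f q = f x →
      g (x - q) = 1 := by
  obtain ⟨g, hg⟩ := h.fl x hx
  refine ⟨g, ?_⟩
  intro f hf q hq hmax hfx
  apply hg q hq
  intro t ht
  have h1 := interior_lt hf hmax ht
  rw [map_add, map_smul, map_sub, ← hfx, sub_self, smul_zero, add_zero] at h1
  exact lt_irrefl _ h1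

variable [FiniteDimensional ℝ E]

lemma GP.strict (hd : 2 ≤ Module.finrank ℝ E) (h : GP M K) {f : E →L[ℝ] ℝ} (hf : f ≠ 0)
    {q q' : E} (hq : q ∈ M) (hq' : q' ∈ M) (hmax : ∀ y ∈ M, f y ≤ f q)
    (hmax' : ∀ y ∈ M, f y ≤ f q') : q = q' := by
  by_contra hne
  have hv : q' - q ≠ 0 := sub_ne_zero.2 (Ne.symm hne)
  obtain ⟨ρ, hρ, hx⟩ := ray_exit h.Kc (h.MK hq) hv
  have hff : f q = f q' := le_antisymm (hmax' q hq) (hmax q' hq')
  have hfx : f (q + ρ • (q' - q)) = f q := by
    rw [map_add, map_smul, map_sub, hff, sub_self, smul_zero, add_zero]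
  obtain ⟨g, hg⟩ := h.touch hx
  have h1 := hg f hf q hq hmax hfx.symm
  have h2 := hg f hf q' hq' hmax' (by rw [hfx, hff])
  have e1 : q + ρ • (q' - q) - q = ρ • (q' - q) := by abel
  have e2 : q + ρ • (q' - q) - q' = (ρ - 1) • (q' - q) := by module
  rw [e1, map_smul, smul_eq_mul] at h1
  rw [e2, map_smul, smul_eq_mul] at h2
  have h3 : g (q' - q) = 0 := by linarith
  rw [h3] at h1
  norm_num at h1

/-- uniqueness property used as a hypothesis for continuity -/
lemma Pm_continuousAt (Mc : IsCompact M) (hne : M.Nonempty)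
    {f : E →L[ℝ] ℝ} (huniq : ∀ q ∈ M, (∀ y ∈ M, f y ≤ f q) → q = Pm M f) :
    ContinuousAt (Pm M) f := by
  unfold ContinuousAt
  rw [tendsto_iff_ultrafilter]
  intro U hU
  have hmem : ∀ f', Pm M f' ∈ M := fun f' => (Pm_spec Mc hne f').1
  obtain ⟨q, hq, hle⟩ := Mc.ultrafilter_le_nhds (U.map (Pm M)) (by
    rw [le_principal_iff]
    exact Filter.mem_map.2 (Filter.univ_mem' hmem))
  have ht : Tendsto (Pm M) U (𝓝 q) := hle
  have hid : Tendsto (fun f' : E →L[ℝ] ℝ => f') U (𝓝 f) := hU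
  have hqf : ∀ y ∈ M, f y ≤ f q := by
    intro y hy
    have t1 : Tendsto (fun f' : E →L[ℝ] ℝ => f' y) U (𝓝 (f y)) := by
      have hc : Continuous (fun f' : E →L[ℝ] ℝ => f' y) := by fun_prop
      exact (hc.tendsto f).comp hid
    have t2 : Tendsto (fun f' : E →L[ℝ] ℝ => f' (Pm M f')) U (𝓝 (f q)) := by
      have hc : Continuous (fun z : (E →L[ℝ] ℝ) × E => z.1 z.2) := by fun_prop
      exact (hc.tendsto (f, q)).comp (hid.prodMk_nhds ht)
    exact le_of_tendsto_of_tendsto' t1 t2 (fun f' => (Pm_spec Mc hne f').2 y hy)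
  rw [huniq q hq hqf] at ht
  exact ht

lemma GP.Pm_cont (hd : 2 ≤ Module.finrank ℝ E) (h : GP M K) {f : E →L[ℝ] ℝ} (hf : f ≠ 0) :
    ContinuousAt (Pm M) f := by
  apply Pm_continuousAt h.Mc h.nonempty
  intro q hq hmax
  have := Pm_spec h.Mc h.nonempty f
  exact h.strict hd hf hq this.1 hmax this.2

/-- the normalised polar functional -/
noncomputable def Gf (M : Set E) (x : E) : E →L[ℝ] ℝ :=
  open Classical in
  if h : ∃ g : E →L[ℝ] ℝ, ∀ f : E →L[ℝ] ℝ, f ≠ 0 → ∀ q ∈ M, (∀ y ∈ M, f y ≤ f q) → f q = f x →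
      g (x - q) = 1 then h.choose else 0

omit [FiniteDimensional ℝ E] in
lemma GP.Gf_spec (h : GP M K) {x : E} (hx : x ∈ frontier K) :
    ∀ f : E →L[ℝ] ℝ, f ≠ 0 → ∀ q ∈ M, (∀ y ∈ M, f y ≤ f q) → f q = f x →
      Gf M x (x - q) = 1 := by
  have h1 := h.touch hx
  have : Gf M x = h1.choose := by
    unfold Gf
    rw [dif_pos h1]
  rw [this]
  exact h1.choose_spec

lemma GP.Gf_unique (hd : 2 ≤ Module.finrank ℝ E) (h : GP M K) {x : E} (hx : x ∈ frontier K)
    {g : E →L[ℝ] ℝ}
    (hg : ∀ f : E →L[ℝ] ℝ, f ≠ 0 → ∀ q ∈ M, (∀ y ∈ M, f y ≤ f q) → f q = f x →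
      g (x - q) = 1) : g = Gf M x := by
  have h0 : g - Gf M x = 0 := by
    apply step1 hd h.Mc h.Mcv h.Mint (h.not_mem hx)
    intro f hf q hq hmax hfx
    have h1 := hg f hf q hq hmax hfx
    have h2 := h.Gf_spec hx f hf q hq hmax hfx
    simp only [sub_apply, map_sub] at h1 h2 ⊢
    linarith
  exact sub_eq_zero.1 h0

/-- existence of nearby support functionals through nearby points -/
lemma GP.nearby (h : GP M K) {x₀ : E} (hx₀ : x₀ ∈ frontier K)
    {f : E →L[ℝ] ℝ} {q : E} (hq : q ∈ M) (hmax : ∀ y ∈ M, f y ≤ f q) (hfx : f q = f x₀)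
    (δ : ℝ) (hδ : 0 < δ) :
    ∀ᶠ x in 𝓝 x₀, ∃ f' : E →L[ℝ] ℝ, ‖f' - f‖ < δ ∧ f' (Pm M f') = f' x := by
  obtain ⟨e, u, he1, he2⟩ := geometric_hahn_banach_closed_point h.Mcv h.Mc.isClosed (h.not_mem hx₀)
  obtain ⟨R, hR⟩ := h.Mc.isBounded.exists_norm_le
  set δ' := δ / (‖e‖ + 1) with hδ'
  have hδ'pos : 0 < δ' := by positivity
  have hspec := fun f' : E →L[ℝ] ℝ => Pm_spec h.Mc h.nonempty f'
  have hpos : 0 < (f + δ' • e) x₀ - (f + δ' • e) (Pm M (f + δ' • e)) := by
    have h1 := hmax _ (hspec (f + δ' • e)).1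
    have h2 := he1 _ (hspec (f + δ' • e)).1
    simp only [add_apply, smul_apply, smul_eq_mul]
    nlinarith
  have hneg : (f + (-δ') • e) x₀ - (f + (-δ') • e) (Pm M (f + (-δ') • e)) < 0 := by
    have h1 := (hspec (f + (-δ') • e)).2 q hq
    have h2 := he1 q hq
    simp only [add_apply, smul_apply, smul_eq_mul] at h1 ⊢
    nlinarith
  have c1 : ContinuousAt (fun x => (f + δ' • e) x - (f + δ' • e) (Pm M (f + δ' • e))) x₀ := by
    fun_prop
  have c2 : ContinuousAt (fun x => (f + (-δ') • e) x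
      - (f + (-δ') • e) (Pm M (f + (-δ') • e))) x₀ := by
    fun_prop
  have e1 := c1.eventually (lt_mem_nhds hpos)
  have e2 := c2.eventually (gt_mem_nhds hneg)
  filter_upwards [e1, e2] with x hx1 hx2
  -- continuity of the support function along the line
  set H : ℝ → ℝ := fun t => (f + t • e) x - (f + t • e) (Pm M (f + t • e)) with hH
  have hsupp : Continuous (fun t : ℝ => (f + t • e) (Pm M (f + t • e))) := by
    have hlip : LipschitzWith (Real.toNNReal (‖e‖ * R))
        (fun t : ℝ => (f + t • e) (Pm M (f + t • e))) := by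
      have hone : ∀ s t : ℝ, (f + s • e) (Pm M (f + s • e)) - (f + t • e) (Pm M (f + t • e))
          ≤ ‖e‖ * R * |s - t| := by
        intro s t
        have h1 := (hspec (f + t • e)).2 _ (hspec (f + s • e)).1
        have h2 : (f + s • e) (Pm M (f + s • e)) - (f + t • e) (Pm M (f + s • e))
            = (s - t) * e (Pm M (f + s • e)) := by
          simp only [add_apply, smul_apply, smul_eq_mul]
          ring
        have h3 : (s - t) * e (Pm M (f + s • e)) ≤ |s - t| * (‖e‖ * R) := by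
          calc (s - t) * e (Pm M (f + s • e)) ≤ |(s - t) * e (Pm M (f + s • e))| := le_abs_self _
            _ = |s - t| * |e (Pm M (f + s • e))| := abs_mul _ _
            _ ≤ |s - t| * (‖e‖ * R) := by
              gcongr
              calc |e (Pm M (f + s • e))| ≤ ‖e‖ * ‖Pm M (f + s • e)‖ := e.le_opNorm _
                _ ≤ ‖e‖ * R := by gcongr; exact hR _ (hspec _).1
        linarith
      apply LipschitzWith.of_dist_le_mul
      intro s t
      have hR0 : 0 ≤ R := (norm_nonneg _).trans (hR q hq)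
      rw [Real.coe_toNNReal _ (by positivity), Real.dist_eq, Real.dist_eq, abs_le]
      have a1 := hone s t
      have a2 := hone t s
      rw [abs_sub_comm] at a2
      constructor <;> linarith
    exact hlip.continuous
  have hHc : Continuous H := by
    have : Continuous (fun t : ℝ => (f + t • e) x) := by
      simp only [add_apply, smul_apply, smul_eq_mul]
      fun_prop
    exact this.sub hsupp
  obtain ⟨t, ht, ht0⟩ := intermediate_value_Icc (by linarith : -δ' ≤ δ') hHc.continuousOn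
    (show (0 : ℝ) ∈ Icc (H (-δ')) (H δ') from ⟨hx2.le, hx1.le⟩)
  refine ⟨f + t • e, ?_, ?_⟩
  · rw [add_sub_cancel_left, norm_smul, Real.norm_eq_abs]
    have h1 : |t| ≤ δ' := abs_le.2 ht
    calc |t| * ‖e‖ ≤ δ' * ‖e‖ := by gcongr
      _ < δ' * (‖e‖ + 1) := by nlinarith
      _ = δ := by rw [hδ']; field_simp
  · simp only [hH] at ht0
    linarith

lemma GP.Gf_cont (hd : 2 ≤ Module.finrank ℝ E) (h : GP M K) {x₀ : E} (hx₀ : x₀ ∈ frontier K) :
    ContinuousWithinAt (Gf M) (frontier K) x₀ := by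
  unfold ContinuousWithinAt
  rw [tendsto_iff_ultrafilter]
  intro U hU
  have hUx : (U : Filter E) ≤ 𝓝 x₀ := hU.trans nhdsWithin_le_nhds
  have hUK : ∀ᶠ x in (U : Filter E), x ∈ frontier K := hU self_mem_nhdsWithin
  have hid : Tendsto (fun x : E => x) U (𝓝 x₀) := hUx
  set τ : E → ℝ := fun x => 1 / (1 + ‖Gf M x‖) with hτ
  set u : E → (E →L[ℝ] ℝ) := fun x => τ x • Gf M x with hu
  have hτpos : ∀ x, 0 < τ x := fun x => by simp only [hτ]; positivity
  have hτ1 : ∀ x, τ x ≤ 1 := fun x => by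
    simp only [hτ]
    rw [div_le_one (by positivity)]
    linarith [norm_nonneg (Gf M x)]
  have hsum : ∀ x, ‖u x‖ + τ x = 1 := by
    intro x
    simp only [hu, norm_smul, Real.norm_of_nonneg (hτpos x).le]
    simp only [hτ]
    have : (0 : ℝ) < 1 + ‖Gf M x‖ := by positivity
    field_simp
    ring
  obtain ⟨us, -, hus⟩ := (isCompact_closedBall (0 : E →L[ℝ] ℝ) 1).ultrafilter_le_nhds (U.map u) (by
    rw [le_principal_iff]
    refine Filter.mem_map.2 (Filter.univ_mem' ?_)
    intro x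
    have := hsum x
    have h2 := hτpos x
    simp only [mem_preimage, Metric.mem_closedBall, dist_zero_right]
    linarith)
  obtain ⟨τs, hτs1, hτs⟩ := (isCompact_Icc (a := (0 : ℝ)) (b := 1)).ultrafilter_le_nhds (U.map τ) (by
    rw [le_principal_iff]
    refine Filter.mem_map.2 (Filter.univ_mem' ?_)
    intro x
    exact ⟨(hτpos x).le, hτ1 x⟩)
  have tu : Tendsto u U (𝓝 us) := hus
  have tτ : Tendsto τ U (𝓝 τs) := hτs
  have hsums : ‖us‖ + τs = 1 := by
    refine tendsto_nhds_unique (tu.norm.add tτ) ?_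
    simp only [hsum]
    exact tendsto_const_nhds
  have hspec := fun f' : E →L[ℝ] ℝ => Pm_spec h.Mc h.nonempty f'
  have claim : ∀ f : E →L[ℝ] ℝ, f ≠ 0 → ∀ q ∈ M, (∀ y ∈ M, f y ≤ f q) → f q = f x₀ →
      us (x₀ - q) = τs := by
    intro f hf q hq hmax hfx
    have hqP : q = Pm M f := h.strict hd hf hq (hspec f).1 hmax (hspec f).2
    have hle : ∀ ε : ℝ, 0 < ε → |us (x₀ - q) - τs| ≤ ε := by
      intro ε hε
      have hPc := h.Pm_cont hd hf
      obtain ⟨δ, hδ, hball⟩ := Metric.continuousAt_iff.1 hPc ε hε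
      have hfpos : 0 < ‖f‖ := norm_pos_iff.2 hf
      have hnear := hUx (h.nearby hx₀ hq hmax hfx (min δ ‖f‖) (lt_min hδ hfpos))
      have hev : ∀ᶠ x in (U : Filter E), |u x (x - q) - τ x| ≤ ε := by
        filter_upwards [hnear, hUK] with x hx1 hx2
        obtain ⟨f', hf'1, hf'2⟩ := hx1
        have hf'0 : f' ≠ 0 := by
          rintro rfl
          rw [zero_sub, norm_neg] at hf'1
          exact absurd hf'1 (not_lt.2 (min_le_right _ _))
        have h1 := h.Gf_spec hx2 f' hf'0 (Pm M f') (hspec f').1 (hspec f').2 hf'2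
        have h2 : dist (Pm M f') (Pm M f) < ε := by
          apply hball
          rw [dist_eq_norm]
          exact lt_of_lt_of_le hf'1 (min_le_left _ _)
        rw [← hqP, dist_eq_norm] at h2
        have h3 : u x (x - q) - τ x = u x (Pm M f' - q) := by
          have : x - q = (x - Pm M f') + (Pm M f' - q) := by abel
          rw [this, map_add]
          simp only [hu, smul_apply, smul_eq_mul, h1]
          ring
        rw [h3]
        have hux : ‖u x‖ ≤ 1 := by
          have := hsum x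
          have h2 := hτpos x
          linarith
        calc |u x (Pm M f' - q)| ≤ ‖u x‖ * ‖Pm M f' - q‖ := (u x).le_opNorm _
          _ ≤ 1 * ε := by gcongr
          _ = ε := one_mul _
      have t1 : Tendsto (fun x => |u x (x - q) - τ x|) U (𝓝 |us (x₀ - q) - τs|) := by
        have hc : Continuous (fun z : (E →L[ℝ] ℝ) × E => z.1 z.2) := by fun_prop
        have t2 : Tendsto (fun x => u x (x - q)) U (𝓝 (us (x₀ - q))) :=
          (hc.tendsto (us, x₀ - q)).comp (tu.prodMk_nhds (hid.sub_const q))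
        exact (t2.sub tτ).abs
      exact le_of_tendsto t1 hev
    have h0 : |us (x₀ - q) - τs| ≤ 0 := le_of_forall_pos_le_add (fun ε hε => by
      rw [zero_add]; exact hle ε hε)
    have := abs_nonpos_iff.1 h0
    linarith
  have hτs0 : 0 < τs := by
    rcases hτs1.1.lt_or_eq with h1 | h1
    · exact h1
    · exfalso
      have : us = 0 := by
        apply step1 hd h.Mc h.Mcv h.Mint (h.not_mem hx₀)
        intro f hf q hq hmax hfx
        have := claim f hf q hq hmax hfx
        rw [← h1, map_sub] at this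
        linarith
      rw [this, norm_zero, ← h1] at hsums
      norm_num at hsums
  have huniq : τs⁻¹ • us = Gf M x₀ := by
    apply h.Gf_unique hd hx₀
    intro f hf q hq hmax hfx
    have := claim f hf q hq hmax hfx
    rw [smul_apply, smul_eq_mul, this, inv_mul_cancel₀ hτs0.ne']
  have t3 : Tendsto (fun x => (τ x)⁻¹ • u x) U (𝓝 (τs⁻¹ • us)) := (tτ.inv₀ hτs0.ne').smul tu
  rw [huniq] at t3
  refine t3.congr ?_
  intro x
  simp only [hu]
  rw [smul_smul, inv_mul_cancel₀ (hτpos x).ne', one_smul]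

/-- continuity of the exit parameter -/
lemma exit_cont (Kc : IsCompact K) (Kcv : Convex ℝ K) (R : E → E → ℝ)
    (hR : ∀ q ∈ interior K, ∀ v, v ≠ 0 → 0 < R q v ∧ q + R q v • v ∈ frontier K)
    {q₀ v₀ : E} (hq₀ : q₀ ∈ interior K) (hv₀ : v₀ ≠ 0) :
    ContinuousAt (fun z : E × E => R z.1 z.2) (q₀, v₀) := by
  unfold ContinuousAt
  rw [tendsto_iff_ultrafilter]
  intro U hU
  obtain ⟨B, hB⟩ := Kc.isBounded.exists_norm_le
  have hid : Tendsto (fun z : E × E => z) U (𝓝 (q₀, v₀)) := hU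
  have hid1 : Tendsto (fun z : E × E => z.1) U (𝓝 q₀) := (continuous_fst.tendsto _).comp hid
  have hid2 : Tendsto (fun z : E × E => z.2) U (𝓝 v₀) := (continuous_snd.tendsto _).comp hid
  have ev1 : ∀ᶠ z in (U : Filter (E × E)), z.1 ∈ interior K :=
    hid1.eventually (isOpen_interior.mem_nhds hq₀)
  have ev2 : ∀ᶠ z in (U : Filter (E × E)), ‖v₀‖ / 2 < ‖z.2‖ := by
    apply (hid2.norm).eventually
    apply lt_mem_nhds
    have := norm_pos_iff.2 hv₀
    linarith
  have hv₀p := norm_pos_iff.2 hv₀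
  obtain ⟨T, hT, hTl⟩ := (isCompact_Icc (a := (0 : ℝ)) (b := 2 * B / (‖v₀‖ / 2))).ultrafilter_le_nhds
    (U.map (fun z : E × E => R z.1 z.2)) (by
      rw [le_principal_iff]
      refine Filter.mem_map.2 ?_
      filter_upwards [ev1, ev2] with z h1 h2
      have hz2 : z.2 ≠ 0 := by
        intro h0
        rw [h0, norm_zero] at h2
        linarith
      obtain ⟨hp, hf⟩ := hR z.1 h1 z.2 hz2
      refine ⟨hp.le, ?_⟩
      rw [le_div_iff₀ (by linarith)]
      have hmem : z.1 + R z.1 z.2 • z.2 ∈ K := Kc.isClosed.frontier_subset hf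
      have n1 := hB _ hmem
      have n2 := hB _ (interior_subset h1)
      have n3 : ‖R z.1 z.2 • z.2‖ ≤ 2 * B := by
        have : R z.1 z.2 • z.2 = (z.1 + R z.1 z.2 • z.2) - z.1 := by abel
        rw [this]
        refine (norm_sub_le _ _).trans ?_
        linarith
      rw [norm_smul, Real.norm_of_nonneg hp.le] at n3
      nlinarith)
  have hTt : Tendsto (fun z : E × E => R z.1 z.2) U (𝓝 T) := hTl
  have hlim : Tendsto (fun z : E × E => z.1 + R z.1 z.2 • z.2) U (𝓝 (q₀ + T • v₀)) :=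
    hid1.add (hTt.smul hid2)
  have hfr : q₀ + T • v₀ ∈ frontier K := by
    refine isClosed_frontier.mem_of_tendsto hlim ?_
    filter_upwards [ev1, ev2] with z h1 h2
    have hz2 : z.2 ≠ 0 := by
      intro h0
      rw [h0, norm_zero] at h2
      linarith
    exact (hR z.1 h1 z.2 hz2).2
  have hTpos : 0 < T := by
    rcases hT.1.lt_or_eq with h1 | h1
    · exact h1
    · exfalso
      rw [← h1, zero_smul, add_zero, Kc.isClosed.frontier_eq] at hfr
      exact hfr.2 hq₀
  obtain ⟨hp, hf⟩ := hR q₀ hq₀ v₀ hv₀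
  have := ray_unique Kcv Kc.isClosed hq₀ hTpos hp hfr hf
  rw [this] at hTt
  exact hTt

end

end Pool.Agent.Helper28.FG
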