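import Mathlib
import Pool.Agent.Helper28.FG.Blow
import Pool.Agent.Helper28.FG.GPa

set_option autoImplicit false

namespace Pool.Agent.Helper28.FG

open Filter Topology Set

/-- The functional `y ↦ ξ·y' + η y₃`. -/
noncomputable def fn (ξ : V) (η : ℝ) : (V × ℝ) →L[ℝ] ℝ :=
  (ξ.1 • (ContinuousLinearMap.fst ℝ ℝ ℝ) + ξ.2 • (ContinuousLinearMap.snd ℝ ℝ ℝ)).comp
    (ContinuousLinearMap.fst ℝ V ℝ) + η • (ContinuousLinearMap.snd ℝ V ℝ)

lemma fn_apply (ξ : V) (η : ℝ) (y : V × ℝ) : fn ξ η y = dot ξ y.1 + η * y.2 := by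
  simp [fn, dot]

lemma fn_cont : Continuous (fun z : V × ℝ => fn z.1 z.2) := by
  unfold fn
  fun_prop

lemma fn_ne_zero {ξ : V} {η : ℝ} (h : η ≠ 0) : fn ξ η ≠ 0 := by
  intro h0
  have := congrArg (fun f : (V × ℝ) →L[ℝ] ℝ => f (0, 1)) h0
  simp only [fn_apply, dot_zero_right, zero_apply, mul_one, zero_add] at this
  exact h this

lemma fn_decomp (f : (V × ℝ) →L[ℝ] ℝ) (y : V × ℝ) :
    f y = dot (f ((1, 0), 0), f ((0, 1), 0)) y.1 + f (0, 1) * y.2 := by
  have e : y = y.1.1 • (((1, 0), 0) : V × ℝ) + y.1.2 • (((0, 1), 0) : V × ℝ)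
      + y.2 • ((0, 1) : V × ℝ) := by
    ext <;> simp
  conv_lhs => rw [e]
  simp only [map_add, map_smul, smul_eq_mul, dot]
  ring

lemma finrank_V3 : 2 ≤ Module.finrank ℝ (V × ℝ) := by
  rw [Module.finrank_prod, Module.finrank_prod, Module.finrank_self]
  norm_num

lemma supp_cont {E : Type*} [NormedAddCommGroup E] [NormedSpace ℝ E] {M : Set E}
    (Mc : IsCompact M) (hne : M.Nonempty) :
    Continuous (fun f : E →L[ℝ] ℝ => f (Pm M f)) := by
  obtain ⟨R, hR⟩ := Mc.isBounded.exists_norm_le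
  obtain ⟨y₀, hy₀⟩ := hne
  have hR0 : 0 ≤ R := (norm_nonneg _).trans (hR y₀ hy₀)
  have hspec := fun f' : E →L[ℝ] ℝ => Pm_spec Mc ⟨y₀, hy₀⟩ f'
  have hone : ∀ f f' : E →L[ℝ] ℝ, f (Pm M f) - f' (Pm M f') ≤ R * ‖f - f'‖ := by
    intro f f'
    have h1 := (hspec f').2 _ (hspec f).1
    have h2 : (f - f') (Pm M f) ≤ ‖f - f'‖ * R := by
      calc (f - f') (Pm M f) ≤ |(f - f') (Pm M f)| := le_abs_self _
        _ ≤ ‖f - f'‖ * ‖Pm M f‖ := (f - f').le_opNorm _
        _ ≤ ‖f - f'‖ * R := by gcongr; exact hR _ (hspec _).1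
    rw [sub_apply] at h2
    linarith
  have hlip : LipschitzWith (Real.toNNReal R) (fun f : E →L[ℝ] ℝ => f (Pm M f)) := by
    apply LipschitzWith.of_dist_le_mul
    intro s t
    rw [Real.coe_toNNReal _ hR0, Real.dist_eq, dist_eq_norm, abs_le]
    have a1 := hone s t
    have a2 := hone t s
    rw [norm_sub_rev] at a2
    constructor <;> linarith
  exact hlip.continuous

section

variable {M K : Set (V × ℝ)}

/-- standing normalisation: the body lies in the upper half-space, touches the plane `z = 0` at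
the origin and is smooth there. -/
structure Nm (M : Set (V × ℝ)) : Prop where
  h0 : (0 : V × ℝ) ∈ M
  hz : ∀ y ∈ M, 0 ≤ y.2
  hsm : ∀ ξ : V, ξ ≠ 0 → ∃ y ∈ M, 0 < dot ξ y.1 - y.2

/-- touching point -/
noncomputable def yy (M : Set (V × ℝ)) (ξ : V) : V × ℝ := Pm M (fn ξ (-1))

lemma yy_spec (h : GP M K) (ξ : V) : yy M ξ ∈ M ∧
    ∀ y ∈ M, dot ξ y.1 - y.2 ≤ dot ξ (yy M ξ).1 - (yy M ξ).2 := by
  obtain ⟨h1, h2⟩ := Pm_spec h.Mc h.nonempty (fn ξ (-1))
  refine ⟨h1, fun y hy => ?_⟩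
  have := h2 y hy
  rw [fn_apply, fn_apply] at this
  change dot ξ y.1 - y.2 ≤ dot ξ (Pm M (fn ξ (-1))).1 - (Pm M (fn ξ (-1))).2
  linarith

lemma yy_zero (h : GP M K) (n : Nm M) : yy M 0 = 0 := by
  obtain ⟨h1, h2⟩ := Pm_spec h.Mc h.nonempty (fn 0 (-1))
  apply h.strict finrank_V3 (fn_ne_zero (by norm_num)) h1 n.h0 h2
  intro y hy
  rw [fn_apply, fn_apply, dot_zero_left, dot_zero_left]
  have := n.hz y hy
  simp only [Prod.snd_zero]
  linarith

lemma zero_of_snd (h : GP M K) (n : Nm M) {y : V × ℝ} (hy : y ∈ M) (h2 : y.2 = 0) : y = 0 := by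
  apply h.strict finrank_V3 (f := fn 0 (-1)) (fn_ne_zero (by norm_num)) hy n.h0
  · intro z hz
    rw [fn_apply, fn_apply, dot_zero_left, dot_zero_left, h2]
    have := n.hz z hz
    linarith
  · intro z hz
    rw [fn_apply, fn_apply, dot_zero_left, dot_zero_left]
    have := n.hz z hz
    simp only [Prod.snd_zero]
    linarith

lemma yy_cont (h : GP M K) : Continuous (yy M) := by
  rw [continuous_iff_continuousAt]
  intro ξ
  have h1 := h.Pm_cont finrank_V3 (f := fn ξ (-1)) (fn_ne_zero (by norm_num))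
  have h2 : ContinuousAt (fun ξ : V => fn ξ (-1)) ξ := by
    have : Continuous (fun ξ : V => fn ξ (-1)) := fn_cont.comp (Continuous.prodMk_left (-1 : ℝ))
    exact this.continuousAt
  exact ContinuousAt.comp (g := Pm M) (f := fun ξ : V => fn ξ (-1)) h1 h2

/-- step A: the conjugate directions at the normalised point -/
theorem conj_quadratic (h : GP M K) (n : Nm M) (R : V × ℝ → V × ℝ → ℝ)
    (hR : ∀ q ∈ interior K, ∀ v, v ≠ 0 → 0 < R q v ∧ q + R q v • v ∈ frontier K) :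
    ∃ A B C : ℝ, 0 < A ∧ 0 < A * C - B ^ 2 ∧ ∀ v : V, v ≠ 0 → ∃ lam : ℝ, lam ≠ 0 ∧
      Gf M (R 0 (v, 0) • (v, 0)) ((1, 0), 0) = lam * (C * v.1 - B * v.2) ∧
      Gf M (R 0 (v, 0) • (v, 0)) ((0, 1), 0) = lam * (-B * v.1 + A * v.2) := by
  set w : V → V := fun ξ => (yy M ξ).1 with hw
  set g : V → ℝ := fun ξ => dot ξ (yy M ξ).1 - (yy M ξ).2 with hg
  set ρ : V → V → ℝ := fun ξ v => R (yy M ξ) (v, dot ξ v) with hρ
  set X : V → V → V × ℝ := fun ξ v => yy M ξ + ρ ξ v • (v, dot ξ v) with hX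
  set α : V → V → V := fun ξ v => (Gf M (X ξ v) ((1, 0), 0), Gf M (X ξ v) ((0, 1), 0)) with hα
  set β : V → V → ℝ := fun ξ v => Gf M (X ξ v) (0, 1) with hβ
  have hne : ∀ (ξ v : V), v ≠ 0 → ((v, dot ξ v) : V × ℝ) ≠ 0 := by
    intro ξ v hv h0
    apply hv
    exact congrArg Prod.fst h0
  have hint : ∀ ξ, yy M ξ ∈ interior K := fun ξ => h.MK (yy_spec h ξ).1
  have hXf : ∀ ξ v, v ≠ 0 → X ξ v ∈ frontier K := fun ξ v hv => (hR _ (hint ξ) _ (hne ξ v hv)).2
  have hρpos : ∀ ξ v, v ≠ 0 → 0 < ρ ξ v := fun ξ v hv => (hR _ (hint ξ) _ (hne ξ v hv)).1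
  have hyc := yy_cont h
  have hRc : ∀ (q₀ v₀ : V × ℝ), q₀ ∈ interior K → v₀ ≠ 0 →
      ContinuousAt (fun z : (V × ℝ) × (V × ℝ) => R z.1 z.2) (q₀, v₀) :=
    fun q₀ v₀ hq hv => exit_cont h.Kc h.Kcv R hR hq hv
  have hρcont : ∀ ξ v, v ≠ 0 → ContinuousAt (fun z : V × V => ρ z.1 z.2) (ξ, v) := by
    intro ξ v hv
    have h1 := hRc (yy M ξ) (v, dot ξ v) (hint ξ) (hne ξ v hv)
    have h2 : ContinuousAt (fun z : V × V => (yy M z.1, ((z.2, dot z.1 z.2) : V × ℝ))) (ξ, v) := by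
      apply Continuous.continuousAt
      unfold dot
      fun_prop
    exact ContinuousAt.comp (g := fun z : (V × ℝ) × (V × ℝ) => R z.1 z.2)
      (f := fun z : V × V => (yy M z.1, ((z.2, dot z.1 z.2) : V × ℝ))) h1 h2
  have hXcont : ∀ ξ v, v ≠ 0 → ContinuousAt (fun z : V × V => X z.1 z.2) (ξ, v) := by
    intro ξ v hv
    have h1 := hρcont ξ v hv
    have h2 : ContinuousAt (fun z : V × V => ((z.2, dot z.1 z.2) : V × ℝ)) (ξ, v) := by
      apply Continuous.continuousAt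
      unfold dot
      fun_prop
    have h3 : ContinuousAt (fun z : V × V => yy M z.1) (ξ, v) := by
      apply Continuous.continuousAt
      fun_prop
    exact h3.add (h1.smul h2)
  have hGcont : ∀ ξ v, v ≠ 0 → ContinuousAt (fun z : V × V => Gf M (X z.1 z.2)) (ξ, v) := by
    intro ξ v hv
    have h1 := h.Gf_cont finrank_V3 (hXf ξ v hv)
    have h2 : ∀ᶠ z : V × V in 𝓝 (ξ, v), X z.1 z.2 ∈ frontier K := by
      have : ∀ᶠ z : V × V in 𝓝 (ξ, v), z.2 ≠ 0 := by
        have hc : ContinuousAt (fun z : V × V => z.2) (ξ, v) := continuous_snd.continuousAt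
        exact hc.eventually_ne hv
      filter_upwards [this] with z hz
      exact hXf z.1 z.2 hz
    have h3 : Tendsto (fun z : V × V => X z.1 z.2) (𝓝 (ξ, v)) (𝓝[frontier K] (X ξ v)) :=
      tendsto_nhdsWithin_iff.2 ⟨hXcont ξ v hv, h2⟩
    exact Tendsto.comp h1 h3
  have hαcont : ∀ ξ v, v ≠ 0 → ContinuousAt (fun z : V × V => α z.1 z.2) (ξ, v) := by
    intro ξ v hv
    have h1 := hGcont ξ v hv
    have h2 : ContinuousAt (fun z : V × V => Gf M (X z.1 z.2) ((1, 0), 0)) (ξ, v) :=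
      h1.clm_apply continuousAt_const
    have h3 : ContinuousAt (fun z : V × V => Gf M (X z.1 z.2) ((0, 1), 0)) (ξ, v) :=
      h1.clm_apply continuousAt_const
    exact h2.prodMk h3
  have hβcont : ∀ ξ v, v ≠ 0 → ContinuousAt (fun z : V × V => β z.1 z.2) (ξ, v) := by
    intro ξ v hv
    exact (hGcont ξ v hv).clm_apply continuousAt_const
  have hyy0 := yy_zero h n
  have hspec := yy_spec h
  have hfnX : ∀ ξ v, fn ξ (-1) (yy M ξ) = fn ξ (-1) (X ξ v) := by
    intro ξ v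
    simp only [hX, map_add, map_smul, fn_apply, smul_eq_mul]
    ring
  have htouch : ∀ ξ v, v ≠ 0 → Gf M (X ξ v) (X ξ v - yy M ξ) = 1 := by
    intro ξ v hv
    obtain ⟨h1, h2⟩ := Pm_spec h.Mc h.nonempty (fn ξ (-1))
    exact h.Gf_spec (hXf ξ v hv) (fn ξ (-1)) (fn_ne_zero (by norm_num)) (yy M ξ) h1 h2 (hfnX ξ v)
  have hX0 : ∀ v, X 0 v = R 0 (v, 0) • (v, 0) := by
    intro v
    simp only [hX, hρ, hyy0, dot_zero_left, zero_add]
  have hα0v : ∀ v, v ≠ 0 → ρ 0 v * dot (α 0 v) v = 1 := by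
    intro v hv
    have h1 := htouch 0 v hv
    have h2 : X 0 v - yy M 0 = ρ 0 v • (v, 0) := by
      simp only [hX, hyy0, dot_zero_left, zero_add, sub_zero]
    rw [h2, map_smul, smul_eq_mul, fn_decomp] at h1
    simpa using h1
  obtain ⟨A, B, C, hA, hABC, hrel⟩ := blowup g w
    (by
      intro x y
      have h1 := (hspec y).2 _ (hspec x).1
      simp only [hg, hw, dot_sub_left]
      linarith)
    (by simp only [hw]; fun_prop)
    (by simp only [hg, hyy0]; simp [dot])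
    (by simp only [hw, hyy0]; rfl)
    (by
      intro ξ hξ
      obtain ⟨y, hy, hpos⟩ := n.hsm ξ hξ
      have := (hspec ξ).2 y hy
      simp only [hg]
      linarith)
    ρ α β
    (fun v hv => hρpos 0 v hv)
    (fun v hv => ContinuousAt.comp (g := fun z : V × V => ρ z.1 z.2) (f := fun x : V => (x, v))
      (hρcont 0 v hv) (Continuous.prodMk_left v).continuousAt)
    (fun v hv => ContinuousAt.comp (g := fun z : V × V => α z.1 z.2) (f := fun x : V => (x, v))
      (hαcont 0 v hv) (Continuous.prodMk_left v).continuousAt)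
    (fun v hv => ContinuousAt.comp (g := fun z : V × V => β z.1 z.2) (f := fun x : V => (x, v))
      (hβcont 0 v hv) (Continuous.prodMk_left v).continuousAt)
    (by
      intro v hv
      refine Filter.Eventually.of_forall ?_
      intro x y hxy
      obtain ⟨h1, h2⟩ := Pm_spec h.Mc h.nonempty (fn y (-1))
      have h3 : fn y (-1) (yy M y) = fn y (-1) (X x v) := by
        simp only [hX, map_add, map_smul, fn_apply, smul_eq_mul]
        simp only [hg, hw, dot_sub_left] at hxy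
        linarith
      have h4 := h.Gf_spec (hXf x v hv) (fn y (-1)) (fn_ne_zero (by norm_num)) (yy M y) h1 h2 h3
      have h5 := htouch x v hv
      have h6 : Gf M (X x v) (yy M y - yy M x) = 0 := by
        simp only [map_sub] at h4 h5 ⊢
        linarith
      rw [fn_decomp] at h6
      simp only [hα, hβ, hw, hg]
      simp only [Prod.fst_sub, Prod.snd_sub] at h6
      have h7 : (dot y (yy M y).1 - (dot y (yy M y).1 - (yy M y).2) -
        (dot x (yy M x).1 - (dot x (yy M x).1 - (yy M x).2))) = (yy M y).2 - (yy M x).2 := by ring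
      rw [h7]
      exact h6)
    (by
      intro v hv h0
      have := hα0v v hv
      rw [h0, mul_zero] at this
      exact zero_ne_one this)
    (by
      intro v hv
      have hv' : v ≠ 0 := hv
      apply ContinuousAt.continuousWithinAt
      exact ContinuousAt.comp (g := fun z : V × V => α z.1 z.2) (f := fun x : V => ((0 : V), x))
        (hαcont 0 v hv') (Continuous.prodMk_right (0 : V)).continuousAt)
  refine ⟨A, B, C, hA, hABC, fun v hv => ?_⟩
  have h1 := hrel v hv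
  have h2 := hα0v v hv
  simp only [perp] at h1
  simp only [← hX0]
  set a : V := α 0 v with ha
  have ha1 : Gf M (X 0 v) ((1, 0), 0) = a.1 := rfl
  have ha2 : Gf M (X 0 v) ((0, 1), 0) = a.2 := rfl
  rw [ha1, ha2]
  -- the quadratic form
  set D := C * v.1 ^ 2 - 2 * B * v.1 * v.2 + A * v.2 ^ 2 with hD
  have hC : 0 < C := by
    by_contra hcon
    push Not at hcon
    nlinarith [sq_nonneg B]
  have hDpos : 0 < D := by
    have h3 : A * D = (A * v.2 - B * v.1) ^ 2 + (A * C - B ^ 2) * v.1 ^ 2 := by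
      rw [hD]; ring
    by_contra hcon
    push Not at hcon
    have h4 : A * D ≤ 0 := mul_nonpos_of_nonneg_of_nonpos hA.le hcon
    have h5 : (A * C - B ^ 2) * v.1 ^ 2 ≤ 0 := by nlinarith [sq_nonneg (A * v.2 - B * v.1)]
    have h6 : v.1 ^ 2 ≤ 0 := by
      by_contra h7
      push Not at h7
      nlinarith
    have h8 : v.1 = 0 := by
      apply pow_eq_zero_iff (two_ne_zero) |>.1
      exact le_antisymm h6 (sq_nonneg _)
    rw [h8] at h3
    have h9 : (A * v.2) ^ 2 ≤ 0 := by nlinarith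
    have h10 : A * v.2 = 0 := by
      apply pow_eq_zero_iff (two_ne_zero) |>.1
      exact le_antisymm h9 (sq_nonneg _)
    have h11 : v.2 = 0 := (mul_eq_zero.1 h10).resolve_left hA.ne'
    exact hv (Prod.ext h8 h11)
  have hρ0 := hρpos 0 v hv
  have hdot : dot a v = 1 / ρ 0 v := by
    field_simp
    linarith
  simp only [dot] at hdot
  refine ⟨(1 / ρ 0 v) / D, by positivity, ?_, ?_⟩
  · rw [div_mul_eq_mul_div, eq_div_iff hDpos.ne', ← hdot, hD]
    linear_combination (-v.2) * h1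
  · rw [div_mul_eq_mul_div, eq_div_iff hDpos.ne', ← hdot, hD]
    linear_combination (v.1) * h1

end

end Pool.Agent.Helper28.FG
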