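import Mathlib
import Pool.Agent.Helper28.FG.Pick

set_option autoImplicit false

namespace Pool.Agent.Helper28.FG

open Filter Topology Set

/-- The functional `x ↦ dot w x`. -/
noncomputable def dotL (w : V) : V →L[ℝ] ℝ :=
  w.1 • ContinuousLinearMap.fst ℝ ℝ ℝ + w.2 • ContinuousLinearMap.snd ℝ ℝ ℝ

@[simp] lemma dotL_apply (w x : V) : dotL w x = dot w x := by
  simp [dotL, dot]

/-- subgradient selection which is continuous at a point gives differentiability -/
lemma hasFDerivAt_of_subgrad (φ : V → ℝ) (W : V → V)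
    (hsub : ∀ x y, φ x + dot (y - x) (W x) ≤ φ y) (x : V) (hW : ContinuousAt W x) :
    HasFDerivAt φ (dotL (W x)) x := by
  rw [hasFDerivAt_iff_isLittleO, Asymptotics.isLittleO_iff]
  intro ε hε
  have h1 : ∀ᶠ y in 𝓝 x, ‖W y - W x‖ < ε / 2 := by
    have := hW.sub_const (W x) |>.norm
    simp only [sub_self, norm_zero] at this
    exact this.eventually (gt_mem_nhds (by positivity))
  filter_upwards [h1] with y hy
  have e1 := hsub x y
  have e2 := hsub y x
  rw [dotL_apply, Real.norm_eq_abs, abs_le]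
  have e3 : dot (x - y) (W y) = - dot (y - x) (W y) := by
    rw [← dot_neg_left]; congr 1; abel
  rw [e3] at e2
  have e4 := abs_dot_le (y - x) (W y - W x)
  rw [dot_sub_right] at e4
  have e5 := (abs_le.1 e4).2
  have e6 : ‖y - x‖ * ‖W y - W x‖ ≤ ‖y - x‖ * (ε / 2) := by gcongr
  rw [dot_comm (W x) (y - x)]
  constructor
  · have : 0 ≤ ε * ‖y - x‖ := by positivity
    linarith
  · linarith

lemma mono_of_subgrad (φ : V → ℝ) (W : V → V)
    (hsub : ∀ x y, φ x + dot (y - x) (W x) ≤ φ y) (x y : V) :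
    0 ≤ dot (y - x) (W y - W x) := by
  have e1 := hsub x y
  have e2 := hsub y x
  have e3 : dot (x - y) (W y) = - dot (y - x) (W y) := by
    rw [← dot_neg_left]; congr 1; abel
  rw [dot_sub_right]
  linarith

section sublinear

variable (k : V → ℝ) (kpos : ∀ v, v ≠ 0 → 0 < k v)
    (khom : ∀ t : ℝ, 0 ≤ t → ∀ v, k (t • v) = t * k v)
    (ksub : ∀ v u, k (v + u) ≤ k v + k u)

include khom ksub

omit ksub in
lemma k_zero : k 0 = 0 := by
  have := khom 0 le_rfl 0
  simpa using this

lemma k_bound : ∃ C : ℝ, 0 < C ∧ ∀ v, k v ≤ C * ‖v‖ := by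
  refine ⟨|k (1, 0)| + |k (-1, 0)| + |k (0, 1)| + |k (0, -1)| + 1, by positivity, ?_⟩
  intro v
  have h1 : v = ((v.1, 0) : V) + (0, v.2) := by ext <;> simp
  have h2 : k (v.1, 0) ≤ (|k (1, 0)| + |k (-1, 0)|) * ‖v‖ := by
    have hn : |v.1| ≤ ‖v‖ := norm_fst_le v
    rcases le_total 0 v.1 with h | h
    · have e : ((v.1, 0) : V) = v.1 • ((1, 0) : V) := by ext <;> simp
      rw [e, khom _ h]
      calc v.1 * k (1, 0) ≤ |v.1| * |k (1, 0)| := by
            rw [← abs_mul]; exact le_abs_self _
        _ ≤ ‖v‖ * |k (1, 0)| := by gcongr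
        _ ≤ _ := by nlinarith [abs_nonneg (k (-1, 0)), norm_nonneg v]
    · have e : ((v.1, 0) : V) = (-v.1) • ((-1, 0) : V) := by ext <;> simp
      rw [e, khom _ (by linarith)]
      calc (-v.1) * k (-1, 0) ≤ |(-v.1) * k (-1, 0)| := le_abs_self _
        _ = |v.1| * |k (-1, 0)| := by rw [abs_mul, abs_neg]
        _ ≤ ‖v‖ * |k (-1, 0)| := by gcongr
        _ ≤ _ := by nlinarith [abs_nonneg (k (1, 0)), norm_nonneg v]
  have h3 : k (0, v.2) ≤ (|k (0, 1)| + |k (0, -1)|) * ‖v‖ := by
    have hn : |v.2| ≤ ‖v‖ := norm_snd_le v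
    rcases le_total 0 v.2 with h | h
    · have e : ((0, v.2) : V) = v.2 • ((0, 1) : V) := by ext <;> simp
      rw [e, khom _ h]
      calc v.2 * k (0, 1) ≤ |v.2| * |k (0, 1)| := by
            rw [← abs_mul]; exact le_abs_self _
        _ ≤ ‖v‖ * |k (0, 1)| := by gcongr
        _ ≤ _ := by nlinarith [abs_nonneg (k (0, -1)), norm_nonneg v]
    · have e : ((0, v.2) : V) = (-v.2) • ((0, -1) : V) := by ext <;> simp
      rw [e, khom _ (by linarith)]
      calc (-v.2) * k (0, -1) ≤ |(-v.2) * k (0, -1)| := le_abs_self _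
        _ = |v.2| * |k (0, -1)| := by rw [abs_mul, abs_neg]
        _ ≤ ‖v‖ * |k (0, -1)| := by gcongr
        _ ≤ _ := by nlinarith [abs_nonneg (k (0, 1)), norm_nonneg v]
  have h4 := ksub (v.1, 0) (0, v.2)
  rw [← h1] at h4
  nlinarith [norm_nonneg v]

lemma k_lip : ∃ C : NNReal, LipschitzWith C k := by
  obtain ⟨C, hC, hb⟩ := k_bound k khom ksub
  refine ⟨Real.toNNReal C, LipschitzWith.of_dist_le_mul ?_⟩
  intro x y
  rw [Real.coe_toNNReal C hC.le]
  rw [Real.dist_eq, dist_eq_norm, abs_le]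
  have h1 := ksub y (x - y)
  have h2 := ksub x (y - x)
  rw [add_sub_cancel] at h1 h2
  have h3 := hb (x - y)
  have h4 := hb (y - x)
  rw [norm_sub_rev] at h4
  constructor
  · linarith
  · linarith

include kpos

lemma exists_support (v : V) : ∃ N : V, (∀ u, dot N u ≤ k u) ∧ dot N v = k v := by
  have key : ∀ v : V, v ≠ 0 → ∃ N : V, (∀ u, dot N u ≤ k u) ∧ dot N v = k v := by
    intro v hv
    set f : V →ₗ.[ℝ] ℝ := LinearPMap.mkSpanSingleton v (k v) hv with hf
    obtain ⟨g, hg1, hg2⟩ := exists_extension_of_le_sublinear f k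
      (fun c hc x => khom c hc.le x) ksub (by
        rintro ⟨x, hx⟩
        obtain ⟨t, rfl⟩ := Submodule.mem_span_singleton.1 hx
        have hval : f ⟨t • v, hx⟩ = t * k v := by
          have := LinearPMap.mkSpanSingleton'_apply (σ := RingHom.id ℝ) v (k v) (fun c hc =>
            (smul_eq_zero.1 hc).elim (fun hc => by rw [hc, RingHom.map_zero, zero_smul]) fun hx' =>
              absurd hx' hv) t hx
          exact this
        rw [hval]
        change t * k v ≤ k (t • v)
        rcases le_total 0 t with h | h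
        · rw [khom t h]
        · have e : t • v = (-t) • (-v) := by module
          rw [e, khom (-t) (by linarith)]
          have h1 := kpos v hv
          have h2 := kpos (-v) (by simpa using hv)
          nlinarith)
    refine ⟨(g (1, 0), g (0, 1)), ?_, ?_⟩
    · intro u
      have : dot (g (1, 0), g (0, 1)) u = g u := by
        have hu : u = u.1 • ((1, 0) : V) + u.2 • ((0, 1) : V) := by ext <;> simp
        conv_rhs => rw [hu]
        rw [map_add, map_smul, map_smul]
        simp only [dot, smul_eq_mul]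
        ring
      rw [this]
      exact hg2 u
    · have : dot (g (1, 0), g (0, 1)) v = g v := by
        have hu : v = v.1 • ((1, 0) : V) + v.2 • ((0, 1) : V) := by ext <;> simp
        conv_rhs => rw [hu]
        rw [map_add, map_smul, map_smul]
        simp only [dot, smul_eq_mul]
        ring
      rw [this]
      have h1 := hg1 ⟨v, Submodule.mem_span_singleton_self v⟩
      rw [h1]
      exact LinearPMap.mkSpanSingleton_apply ℝ ℝ hv (k v)
  rcases eq_or_ne v 0 with h | h
  · obtain ⟨N, hN, -⟩ := key (1, 0) (by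
      intro h
      have := congrArg Prod.fst h
      simp at this)
    refine ⟨N, hN, ?_⟩
    rw [h, dot_zero_right, k_zero k khom]
  · exact key v h

end sublinear

/-- the gradient as a vector -/
noncomputable def grad (f : V → ℝ) (v : V) : V := (fderiv ℝ f v (1, 0), fderiv ℝ f v (0, 1))

lemma dot_grad (f : V → ℝ) (v u : V) : dot (grad f v) u = fderiv ℝ f v u := by
  have hu : u = u.1 • ((1, 0) : V) + u.2 • ((0, 1) : V) := by ext <;> simp
  conv_rhs => rw [hu]
  rw [map_add, map_smul, map_smul]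
  simp only [dot, grad, smul_eq_mul]
  ring

lemma hasDerivAt_line (f : V → ℝ) (v u : V) (hf : DifferentiableAt ℝ f v) :
    HasDerivAt (fun s : ℝ => f (v + s • u)) (dot (grad f v) u) 0 := by
  rw [dot_grad]
  have h1 : HasFDerivAt f (fderiv ℝ f v) (v + (0 : ℝ) • u) := by
    rw [zero_smul, add_zero]; exact hf.hasFDerivAt
  have h2 : HasDerivAt (fun s : ℝ => v + s • u) u 0 := by
    have := ((hasDerivAt_id (0 : ℝ)).smul_const u).const_add v
    simpa using this
  exact h1.comp_hasDerivAt (0 : ℝ) h2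

lemma euler (f : V → ℝ) (v : V) (hf : DifferentiableAt ℝ f v)
    (hom : ∀ t : ℝ, 0 < t → f (t • v) = t * f v) : dot (grad f v) v = f v := by
  have h1 := hasDerivAt_line f v v hf
  have h2 : HasDerivAt (fun s : ℝ => (1 + s) * f v) (f v) 0 := by
    have := ((hasDerivAt_id (0 : ℝ)).const_add 1).mul_const (f v)
    simpa using this
  have h3 : (fun s : ℝ => f (v + s • v)) =ᶠ[𝓝 0] fun s => (1 + s) * f v := by
    filter_upwards [Ioi_mem_nhds (show (-1 : ℝ) < 0 by norm_num)] with s hs
    have hs' : (0 : ℝ) < 1 + s := by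
      have := mem_Ioi.1 hs
      linarith
    rw [← hom _ hs']
    congr 1
    module
  exact h1.unique (h2.congr_of_eventuallyEq h3)

lemma deriv_le_of_le (f : ℝ → ℝ) (f' c : ℝ) (hf : HasDerivAt f f' 0)
    (h : ∀ t, 0 < t → f t ≤ f 0 + t * c) : f' ≤ c := by
  have h1 := hf.tendsto_slope_zero_right
  refine le_of_tendsto h1 ?_
  filter_upwards [self_mem_nhdsWithin] with t ht
  have ht' : 0 < t := ht
  have h2 := h t ht'
  simp only [zero_add, smul_eq_mul]
  rw [inv_mul_le_iff₀ ht']
  linarith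

end Pool.Agent.Helper28.FG
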