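import Mathlib
import Pool.Agent.Helper28.FG.TwoA

set_option autoImplicit false

namespace Pool.Agent.Helper28.FG

open Filter Topology Set

lemma fd_lemma (W : V → V) (k μ : V → ℝ) (hkc : Continuous k)
    (v u N₀ : V) (hv : v ≠ 0)
    (h : ∀ x, x ≠ 0 → ∀ N, dot N x = k x → dot x (W N) = μ x)
    (hW : ContinuousAt W N₀) (hN₀ : dot N₀ v = k v)
    (kd md : ℝ) (hk : HasDerivAt (fun s : ℝ => k (v + s • u)) kd 0)
    (hm : HasDerivAt (fun s : ℝ => μ (v + s • u)) md 0)
    (hκ : kd - dot N₀ u ≠ 0) :
    HasFDerivAt (fun N => dot v (W N)) (((md - dot u (W N₀)) / (kd - dot N₀ u)) • dotL v) N₀ := by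
  set κ := kd - dot N₀ u with hκdef
  set lam := (md - dot u (W N₀)) / κ with hlam
  have hκa : 0 < |κ| := abs_pos.2 hκ
  rw [hasFDerivAt_iff_isLittleO, Asymptotics.isLittleO_iff]
  intro ε hε
  set C := (8 * ‖v‖ + 8) / |κ| with hC
  have hCpos : 0 < C := by positivity
  set ε' := ε / (C * (2 + 2 * |lam|)) with hε'
  have hε'pos : 0 < ε' := by positivity
  have hk' := hasDerivAt_iff_isLittleO.1 hk
  have hm' := hasDerivAt_iff_isLittleO.1 hm
  rw [Asymptotics.isLittleO_iff] at hk' hm'
  have e1 := hk' hε'pos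
  have e2 := hk' (show 0 < |κ| / 4 by positivity)
  have e3 := hm' hε'pos
  have e4 : ∀ᶠ s : ℝ in 𝓝 0, v + s • u ≠ 0 := by
    have hc : ContinuousAt (fun s : ℝ => v + s • u) 0 := by fun_prop
    have hne : v + (0 : ℝ) • u ≠ 0 := by rw [zero_smul, add_zero]; exact hv
    exact hc.eventually_ne hne
  obtain ⟨δ, hδ, hall⟩ := Metric.eventually_nhds_iff.1 (e1.and (e2.and (e3.and e4)))
  simp only [Real.dist_eq, sub_zero, zero_smul, add_zero, smul_eq_mul, Real.norm_eq_abs] at hall
  have f1 : ∀ᶠ N in 𝓝 N₀, ‖N - N₀‖ < δ / (2 * C) := by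
    have : Tendsto (fun N : V => ‖N - N₀‖) (𝓝 N₀) (𝓝 ‖N₀ - N₀‖) := by
      apply Continuous.tendsto
      fun_prop
    rw [sub_self, norm_zero] at this
    exact this.eventually (gt_mem_nhds (by positivity))
  have f2 : ∀ᶠ N in 𝓝 N₀, |dot u (W N - W N₀)| < ε' := by
    have t1 : Tendsto (fun N => dot u (W N - W N₀)) (𝓝 N₀) (𝓝 (dot u (W N₀ - W N₀))) :=
      Tendsto.dot' tendsto_const_nhds (hW.tendsto.sub_const _)
    rw [sub_self, dot_zero_right] at t1
    have := t1.abs
    rw [abs_zero] at this
    exact this.eventually (gt_mem_nhds hε'pos)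
  have f3 : ∀ᶠ N in 𝓝 N₀, |dot u (N - N₀)| < min ε' (|κ| / 4) := by
    have t1 : Tendsto (fun N : V => dot u (N - N₀)) (𝓝 N₀) (𝓝 (dot u (N₀ - N₀))) :=
      Tendsto.dot' tendsto_const_nhds (tendsto_id.sub_const _)
    rw [sub_self, dot_zero_right] at t1
    have := t1.abs
    rw [abs_zero] at this
    exact this.eventually (gt_mem_nhds (by positivity))
  filter_upwards [f1, f2, f3] with N g1 g2 g3
  set R := ‖N - N₀‖ with hR
  have hR0 : 0 ≤ R := norm_nonneg _
  have g4 : |dot u (N - N₀)| < ε' := lt_of_lt_of_le g3 (min_le_left _ _)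
  have g5 : |dot u (N - N₀)| < |κ| / 4 := lt_of_lt_of_le g3 (min_le_right _ _)
  set s₁ := C * R with hs₁
  have hs₁0 : 0 ≤ s₁ := by positivity
  have hs₁δ : s₁ < δ := by
    rw [lt_div_iff₀ (by positivity)] at g1
    rw [hs₁]
    nlinarith
  set F : ℝ → ℝ := fun s => k (v + s • u) - dot N (v + s • u) with hF
  have hFc : Continuous F := by
    have c1 : Continuous (fun s : ℝ => v + s • u) := by fun_prop
    exact (hkc.comp c1).sub (Continuous.dot' continuous_const c1)
  have hFeq : ∀ s, F s = (k (v + s • u) - k v - s * kd) + s * κ - dot v (N - N₀)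
      - s * dot u (N - N₀) := by
    intro s
    simp only [hF, hκdef, dot_add_right, dot_smul_right, dot_sub_right]
    rw [dot_comm v N, dot_comm v N₀, dot_comm u N, dot_comm u N₀, hN₀]
    ring
  have hvN : |dot v (N - N₀)| ≤ 2 * (‖v‖ * R) := abs_dot_le v (N - N₀)
  have hκs₁ : |κ| * s₁ = (8 * ‖v‖ + 8) * R := by
    rw [hs₁, hC]
    field_simp
  have hbound : ∀ s, |s| = s₁ → |F s - s * κ| ≤ |κ| * s₁ := by
    intro s hs
    have b1 := (hall (show |s| < δ by rw [hs]; exact hs₁δ)).2.1
    rw [hFeq s]
    have b2 : |s * dot u (N - N₀)| ≤ s₁ * (|κ| / 4) := by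
      rw [abs_mul, hs]
      gcongr
    rw [hs] at b1
    have b3 : |(k (v + s • u) - k v - s * kd) + s * κ - dot v (N - N₀)
        - s * dot u (N - N₀) - s * κ| ≤ |κ| / 4 * s₁ + 2 * (‖v‖ * R) + s₁ * (|κ| / 4) := by
      have : (k (v + s • u) - k v - s * kd) + s * κ - dot v (N - N₀)
        - s * dot u (N - N₀) - s * κ = (k (v + s • u) - k v - s * kd) - dot v (N - N₀)
        - s * dot u (N - N₀) := by ring
      rw [this]
      rw [abs_le] at *
      constructor <;> linarith
    refine b3.trans ?_
    nlinarith [mul_nonneg (norm_nonneg v) hR0]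
  have hH1 : 0 ≤ κ * F s₁ := by
    have b := hbound s₁ (abs_of_nonneg hs₁0)
    have b2 : |κ * F s₁ - s₁ * κ ^ 2| ≤ s₁ * κ ^ 2 := by
      have : κ * F s₁ - s₁ * κ ^ 2 = κ * (F s₁ - s₁ * κ) := by ring
      rw [this, abs_mul]
      calc |κ| * |F s₁ - s₁ * κ| ≤ |κ| * (|κ| * s₁) := by gcongr
        _ = s₁ * |κ| ^ 2 := by ring
        _ = s₁ * κ ^ 2 := by rw [sq_abs]
    linarith [(abs_le.1 b2).1]
  have hH2 : κ * F (-s₁) ≤ 0 := by
    have b := hbound (-s₁) (by rw [abs_neg]; exact abs_of_nonneg hs₁0)
    have b2 : |κ * F (-s₁) + s₁ * κ ^ 2| ≤ s₁ * κ ^ 2 := by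
      have : κ * F (-s₁) + s₁ * κ ^ 2 = κ * (F (-s₁) - -s₁ * κ) := by ring
      rw [this, abs_mul]
      calc |κ| * |F (-s₁) - -s₁ * κ| ≤ |κ| * (|κ| * s₁) := by gcongr
        _ = s₁ * |κ| ^ 2 := by ring
        _ = s₁ * κ ^ 2 := by rw [sq_abs]
    linarith [(abs_le.1 b2).2]
  obtain ⟨s, hs, hs0⟩ := intermediate_value_Icc (by linarith : -s₁ ≤ s₁)
    (continuous_const.mul hFc : Continuous (fun s => κ * F s)).continuousOn
    (show (0 : ℝ) ∈ Icc (κ * F (-s₁)) (κ * F s₁) from ⟨hH2, hH1⟩)
  have hFs : F s = 0 := by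
    rcases mul_eq_zero.1 hs0 with h0 | h0
    · exact absurd h0 hκ
    · exact h0
  have hsabs : |s| ≤ s₁ := abs_le.2 hs
  obtain ⟨a1, -, a3, a4⟩ := hall (show |s| < δ from lt_of_le_of_lt hsabs hs₁δ)
  have hNx : dot N (v + s • u) = k (v + s • u) := by
    simp only [hF] at hFs
    linarith
  have hWN := h _ a4 N hNx
  have hWN₀ := h v hv N₀ hN₀
  have hlamκ : lam * κ = md - dot u (W N₀) := by
    rw [hlam]; field_simp
  have hfin : dot v (W N) - dot v (W N₀) - lam * dot v (N - N₀)
      = (μ (v + s • u) - μ v - s * md) - s * dot u (W N - W N₀)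
        - lam * (k (v + s • u) - k v - s * kd) + lam * (s * dot u (N - N₀)) := by
    rw [dot_add_left, dot_smul_left] at hWN
    rw [dot_add_right, dot_smul_right] at hNx
    have hκ2 : kd = κ + dot N₀ u := by rw [hκdef]; ring
    have hmd : md = lam * κ + dot u (W N₀) := by rw [hlamκ]; ring
    rw [dot_sub_right, dot_sub_right, dot_sub_right, dot_comm v N, dot_comm v N₀, dot_comm u N,
      dot_comm u N₀, hWN₀, hN₀, hmd, hκ2]
    have i1 : dot v (W N) = μ (v + s • u) - s * dot u (W N) := by linarith
    have i2 : dot N v = k (v + s • u) - s * dot N u := by linarith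
    rw [i1, i2]
    ring
  have hgoal : |dot v (W N) - dot v (W N₀) - lam * dot v (N - N₀)| ≤ ε * R := by
    rw [hfin]
    have c1 : |s * dot u (W N - W N₀)| ≤ |s| * ε' := by
      rw [abs_mul]; gcongr
    have c2 : |lam * (k (v + s • u) - k v - s * kd)| ≤ |lam| * (ε' * |s|) := by
      rw [abs_mul]; gcongr
    have c3 : |lam * (s * dot u (N - N₀))| ≤ |lam| * (|s| * ε') := by
      rw [abs_mul, abs_mul]; gcongr
    have c4 : |(μ (v + s • u) - μ v - s * md) - s * dot u (W N - W N₀)
        - lam * (k (v + s • u) - k v - s * kd) + lam * (s * dot u (N - N₀))|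
        ≤ ε' * |s| + |s| * ε' + |lam| * (ε' * |s|) + |lam| * (|s| * ε') := by
      rw [abs_le] at *
      constructor <;> linarith
    refine c4.trans ?_
    have c5 : ε' * |s| + |s| * ε' + |lam| * (ε' * |s|) + |lam| * (|s| * ε')
        = |s| * (ε' * (2 + 2 * |lam|)) := by ring
    rw [c5]
    calc |s| * (ε' * (2 + 2 * |lam|)) ≤ s₁ * (ε' * (2 + 2 * |lam|)) := by gcongr
      _ = ε * R := by
        rw [hs₁, hε']
        field_simp
  simpa only [smul_apply, dotL_apply, smul_eq_mul, Real.norm_eq_abs] using hgoal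

lemma perp_of_dot_zero (v a : V) (hv : v ≠ 0) (h : dot a v = 0) : ∃ x : ℝ, a = x • perp v := by
  have hp := dot_self_pos v hv
  refine ⟨dot a (perp v) / dot v v, ?_⟩
  simp only [dot] at h hp
  ext
  · simp only [dot, perp, Prod.smul_fst, smul_eq_mul]
    rw [eq_comm, div_mul_eq_mul_div, div_eq_iff hp.ne']
    linear_combination (-v.1) * h
  · simp only [dot, perp, Prod.smul_snd, smul_eq_mul]
    rw [eq_comm, div_mul_eq_mul_div, div_eq_iff hp.ne']
    linear_combination (-v.2) * h

lemma perp_ne_zero {v : V} (hv : v ≠ 0) : perp v ≠ 0 := by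
  intro h
  apply hv
  have h1 := congrArg Prod.fst h
  have h2 := congrArg Prod.snd h
  simp [perp] at h1 h2
  exact Prod.ext h2 h1

/-- gradient of a sublinear function lies in the polar set -/
lemma grad_mem (k : V → ℝ) (khom : ∀ t : ℝ, 0 ≤ t → ∀ v, k (t • v) = t * k v)
    (ksub : ∀ v u, k (v + u) ≤ k v + k u) (v : V) (hk : DifferentiableAt ℝ k v) (u : V) :
    dot (grad k v) u ≤ k u := by
  refine deriv_le_of_le _ _ _ (hasDerivAt_line k v u hk) ?_
  intro t ht
  have h1 := ksub v (t • u)
  rw [khom t ht.le] at h1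
  simpa using h1

lemma grad_unique (k : V → ℝ) (v N : V) (hk : DifferentiableAt ℝ k v)
    (hN : ∀ u, dot N u ≤ k u) (hNv : dot N v = k v) : N = grad k v := by
  have key : ∀ u, dot N u = dot (grad k v) u := by
    intro u
    have h1 := (hasDerivAt_line k v u hk)
    have h2 : HasDerivAt (fun s : ℝ => k (v + s • u) - dot N (v + s • u))
        (dot (grad k v) u - dot N u) 0 := by
      apply h1.sub
      have h3 : HasDerivAt (fun s : ℝ => dot N v + s * dot N u) (dot N u) 0 := by
        have := ((hasDerivAt_id (0 : ℝ)).mul_const (dot N u)).const_add (dot N v)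
        simpa using this
      refine h3.congr_of_eventuallyEq ?_
      filter_upwards with s
      rw [dot_add_right, dot_smul_right]
    have h4 : IsLocalMin (fun s : ℝ => k (v + s • u) - dot N (v + s • u)) 0 := by
      filter_upwards with s
      simp only [zero_smul, add_zero, hNv, sub_self]
      linarith [hN (v + s • u)]
    have h5 := h4.hasDerivAt_eq_zero h2
    linarith
  ext
  · have := key (1, 0)
    simpa [dot] using this
  · have := key (0, 1)
    simpa [dot] using this

lemma parallel (φ : V → ℝ) (W : V → V) (k μ : V → ℝ)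
    (hsub : ∀ x y, φ x + dot (y - x) (W x) ≤ φ y)
    (hW : Continuous W) (hkc : Continuous k)
    (khom : ∀ t : ℝ, 0 ≤ t → ∀ v, k (t • v) = t * k v)
    (ksub : ∀ v u, k (v + u) ≤ k v + k u)
    (h : ∀ v, v ≠ 0 → ∀ N, dot N v = k v → dot v (W N) = μ v)
    (hμhom : ∀ t : ℝ, 0 < t → ∀ v, μ (t • v) = t * μ v)
    (v u : V) (hkv : DifferentiableAt ℝ k v) (hku : DifferentiableAt ℝ k u)
    (hμv : DifferentiableAt ℝ μ v) (hμu : DifferentiableAt ℝ μ u)
    (hg1 : dot (perp v) u ≠ 0) (hg2 : dot v u ≠ 0) :
    dot (perp (grad k v - grad k u)) (grad μ v - grad μ u) = 0 := by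
  have hv : v ≠ 0 := by rintro rfl; exact hg2 (dot_zero_left _)
  have hu : u ≠ 0 := by rintro rfl; exact hg2 (dot_zero_right _)
  set c := dot (perp v) u with hc
  have hc' : dot (perp u) v = -c := by rw [hc]; simp only [dot, perp]; ring
  set N₀ : V := (k u / c) • perp v - (k v / c) • perp u with hN₀
  have hNv : dot N₀ v = k v := by
    rw [hN₀, dot_sub_left, dot_smul_left, dot_smul_left, dot_perp, hc']
    field_simp
    ring
  have hNu : dot N₀ u = k u := by
    rw [hN₀, dot_sub_left, dot_smul_left, dot_smul_left, dot_perp, ← hc]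
    field_simp
    ring
  have eDv := euler k v hkv (fun t ht => khom t ht.le v)
  have eDu := euler k u hku (fun t ht => khom t ht.le u)
  have eEv := euler μ v hμv (fun t ht => hμhom t ht v)
  have eEu := euler μ u hμu (fun t ht => hμhom t ht u)
  have hWv := h v hv N₀ hNv
  have hWu := h u hu N₀ hNu
  obtain ⟨x, hx⟩ := perp_of_dot_zero v (grad k v - N₀) hv (by rw [dot_sub_left, eDv, hNv, sub_self])
  obtain ⟨y, hy⟩ := perp_of_dot_zero u (grad k u - N₀) hu (by rw [dot_sub_left, eDu, hNu, sub_self])
  obtain ⟨x', hx'⟩ := perp_of_dot_zero v (grad μ v - W N₀) hv (by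
    rw [dot_sub_left, eEv, dot_comm (W N₀), hWv, sub_self])
  obtain ⟨y', hy'⟩ := perp_of_dot_zero u (grad μ u - W N₀) hu (by
    rw [dot_sub_left, eEu, dot_comm (W N₀), hWu, sub_self])
  have hDv : grad k v = N₀ + x • perp v := by rw [← hx]; abel
  have hDu : grad k u = N₀ + y • perp u := by rw [← hy]; abel
  have hEv : grad μ v = W N₀ + x' • perp v := by rw [← hx']; abel
  have hEu : grad μ u = W N₀ + y' • perp u := by rw [← hy']; abel
  have hkey : x * y' = y * x' := by
    by_cases hx0 : x = 0
    · -- then N₀ is the contact point for both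
      have hN1 : grad k v = N₀ := by rw [hDv, hx0, zero_smul, add_zero]
      have hmem : ∀ z, dot N₀ z ≤ k z := by
        intro z
        rw [← hN1]
        exact grad_mem k khom ksub v hkv z
      have h2 := grad_unique k u N₀ hku hmem hNu
      have hy0 : y • perp u = 0 := by
        rw [← hy, ← h2, sub_self]
      have hy00 : y = 0 := by
        rcases smul_eq_zero.1 hy0 with h3 | h3
        · exact h3
        · exact absurd h3 (perp_ne_zero hu)
      rw [hx0, hy00]; ring
    · by_cases hy0 : y = 0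
      · exfalso
        have hN1 : grad k u = N₀ := by rw [hDu, hy0, zero_smul, add_zero]
        have hmem : ∀ z, dot N₀ z ≤ k z := by
          intro z
          rw [← hN1]
          exact grad_mem k khom ksub u hku z
        have h2 := grad_unique k v N₀ hkv hmem hNv
        have hx1 : x • perp v = 0 := by
          rw [← hx, ← h2, sub_self]
        rcases smul_eq_zero.1 hx1 with h3 | h3
        · exact hx0 h3
        · exact perp_ne_zero hv h3
      · -- main case
        have hκv : dot (grad k v) u - dot N₀ u = x * c := by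
          rw [hDv, dot_add_left, dot_smul_left, ← hc]; ring
        have hκu : dot (grad k u) v - dot N₀ v = -(y * c) := by
          rw [hDu, dot_add_left, dot_smul_left, hc']; ring
        have hmv : dot (grad μ v) u - dot u (W N₀) = x' * c := by
          rw [hEv, dot_add_left, dot_smul_left, ← hc, dot_comm u]; ring
        have hmu : dot (grad μ u) v - dot v (W N₀) = -(y' * c) := by
          rw [hEu, dot_add_left, dot_smul_left, hc', dot_comm v]; ring
        have F1 := fd_lemma W k μ hkc v u N₀ hv h hW.continuousAt hNv _ _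
          (hasDerivAt_line k v u hkv) (hasDerivAt_line μ v u hμv)
          (by rw [hκv]; exact mul_ne_zero hx0 hg1)
        have F2 := fd_lemma W k μ hkc u v N₀ hu h hW.continuousAt hNu _ _
          (hasDerivAt_line k u v hku) (hasDerivAt_line μ u v hμu)
          (by rw [hκu]; exact neg_ne_zero.2 (mul_ne_zero hy0 hg1))
        rw [hκv, hmv] at F1
        rw [hκu, hmu] at F2
        have hA : ∀ w z : V, dot w z = dot v w * (dot (perp u) z / (-c))
            + dot u w * (dot (perp v) z / c) := by
          intro w z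
          field_simp
          rw [hc]
          simp only [dot, perp]
          ring
        set A : V →L[ℝ] ℝ := (1 / (-c)) • dotL (perp u) with hAdef
        set B : V →L[ℝ] ℝ := (1 / c) • dotL (perp v) with hBdef
        have hf' : (fun N => dotL (W N)) = fun N => (dot v (W N)) • A + (dot u (W N)) • B := by
          funext N
          refine ContinuousLinearMap.ext fun z => ?_
          simp only [dotL_apply, add_apply, smul_apply, smul_eq_mul, hAdef, hBdef]
          rw [hA (W N) z]
          ring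
        have hder : HasFDerivAt (fun N => dotL (W N))
            ((((x' * c) / (x * c)) • dotL v).smulRight A
              + ((-(y' * c) / -(y * c)) • dotL u).smulRight B) N₀ := by
          rw [hf']
          exact (F1.smul_const A).add (F2.smul_const B)
        have hsym := second_derivative_symmetric (f := φ) (f' := fun N => dotL (W N))
          (fun N => hasFDerivAt_of_subgrad φ W hsub N hW.continuousAt) hder v u
        simp only [add_apply, ContinuousLinearMap.smulRight_apply,
          smul_apply, dotL_apply, smul_eq_mul, hAdef, hBdef, dot_perp,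
          hc', ← hc] at hsym
        have hgv : dot u v = dot v u := dot_comm _ _
        rw [hgv] at hsym
        field_simp at hsym
        have h3 : (x * y') * (c * dot v u) = (y * x') * (c * dot v u) := by linarith
        exact mul_right_cancel₀ (mul_ne_zero hg1 hg2) h3
  rw [hDv, hDu, hEv, hEu]
  have e1 : N₀ + x • perp v - (N₀ + y • perp u) = x • perp v - y • perp u := by abel
  have e2 : W N₀ + x' • perp v - (W N₀ + y' • perp u) = x' • perp v - y' • perp u := by abel
  rw [e1, e2]
  simp only [dot, perp, Prod.fst_sub, Prod.snd_sub, Prod.smul_fst, Prod.smul_snd, smul_eq_mul]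
  linear_combination (-(v.1 * u.2) + v.2 * u.1) * hkey

end Pool.Agent.Helper28.FG
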