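import Mathlib
import Pool.Agent.Helper28.FG.TwoB

set_option autoImplicit false

namespace Pool.Agent.Helper28.FG

open Filter Topology Set MeasureTheory

lemma dense_dot_ne (a : V) (ha : a ≠ 0) : Dense {u : V | dot a u ≠ 0} := by
  intro u
  by_cases h : dot a u = 0
  · have h1 : Tendsto (fun t : ℝ => u + t • a) (𝓝[≠] 0) (𝓝 u) := by
      have : ContinuousAt (fun t : ℝ => u + t • a) 0 := by fun_prop
      have h2 := this.tendsto
      simp only [zero_smul, add_zero] at h2
      exact h2.mono_left nhdsWithin_le_nhds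
    refine mem_closure_of_tendsto h1 ?_
    filter_upwards [self_mem_nhdsWithin] with t ht
    have ht' : t ≠ 0 := ht
    change dot a (u + t • a) ≠ 0
    rw [dot_add_right, dot_smul_right, h, zero_add]
    exact mul_ne_zero ht' (dot_self_pos a ha).ne'
  · exact subset_closure h

lemma isOpen_dot_ne (a : V) : IsOpen {u : V | dot a u ≠ 0} := by
  have : Continuous (fun u => dot a u) := Continuous.dot' continuous_const continuous_id
  exact isOpen_ne_fun this continuous_const

/-- generic directions with respect to `v` -/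
def Gen (v : V) : Set V := {u : V | dot (perp v) u ≠ 0} ∩ {u : V | dot v u ≠ 0}

lemma isOpen_gen (v : V) : IsOpen (Gen v) := (isOpen_dot_ne _).inter (isOpen_dot_ne _)

lemma dense_gen (v : V) (hv : v ≠ 0) : Dense (Gen v) :=
  (dense_dot_ne _ (perp_ne_zero hv)).inter_of_isOpen_right (dense_dot_ne _ hv) (isOpen_dot_ne _)

/-- plane cross product -/
def cross (a b : V) : ℝ := dot (perp a) b

lemma cross_def (a b : V) : cross a b = a.1 * b.2 - a.2 * b.1 := by
  simp only [cross, dot, perp]; ring

lemma cross_smul (p x : V) (hp : p ≠ 0) (h : cross p x = 0) : ∃ c : ℝ, x = c • p := by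
  rw [cross_def] at h
  by_cases h1 : p.1 = 0
  · have h2 : p.2 ≠ 0 := fun h2 => hp (Prod.ext h1 h2)
    refine ⟨x.2 / p.2, ?_⟩
    ext
    · simp only [Prod.smul_fst, smul_eq_mul, h1, mul_zero]
      rw [h1] at h
      have : p.2 * x.1 = 0 := by linarith
      rcases mul_eq_zero.1 this with h3 | h3
      · exact absurd h3 h2
      · exact h3
    · simp only [Prod.smul_snd, smul_eq_mul]
      field_simp
  · refine ⟨x.1 / p.1, ?_⟩
    ext
    · simp only [Prod.smul_fst, smul_eq_mul]
      field_simp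
    · simp only [Prod.smul_snd, smul_eq_mul]
      field_simp
      linarith

lemma zero_of_cross (p q x : V) (hpq : cross q p ≠ 0) (h1 : cross p x = 0) (h2 : cross q x = 0) :
    x = 0 := by
  rw [cross_def] at *
  have e1 : (q.1 * p.2 - q.2 * p.1) * x.1 = 0 := by linear_combination p.1 * h2 - q.1 * h1
  have e2 : (q.1 * p.2 - q.2 * p.1) * x.2 = 0 := by linear_combination p.2 * h2 - q.2 * h1
  ext
  · rcases mul_eq_zero.1 e1 with h | h
    · exact absurd h hpq
    · exact h
  · rcases mul_eq_zero.1 e2 with h | h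
    · exact absurd h hpq
    · exact h

section

variable (φ : V → ℝ) (W : V → V) (k μ : V → ℝ)
    (hsub : ∀ x y, φ x + dot (y - x) (W x) ≤ φ y)
    (hW : Continuous W)
    (kpos : ∀ v, v ≠ 0 → 0 < k v)
    (khom : ∀ t : ℝ, 0 ≤ t → ∀ v, k (t • v) = t * k v)
    (ksub : ∀ v u, k (v + u) ≤ k v + k u)
    (h : ∀ v, v ≠ 0 → ∀ N, dot N v = k v → dot v (W N) = μ v)
    (hμ0 : μ 0 = 0)

include kpos khom ksub h hμ0

omit kpos khom ksub hμ0 in
lemma mu_hom_aux (v : V) (hv : v ≠ 0) (hc : ∃ N, dot N v = k v)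
    (khom : ∀ t : ℝ, 0 ≤ t → ∀ v, k (t • v) = t * k v) (t : ℝ) (ht : 0 < t) :
    μ (t • v) = t * μ v := by
  obtain ⟨N, hN⟩ := hc
  have h1 := h v hv N hN
  have h2 := h (t • v) (smul_ne_zero ht.ne' hv) N (by rw [dot_smul_right, hN, khom t ht.le])
  rw [← h2, ← h1, dot_smul_left]

lemma mu_hom (t : ℝ) (ht : 0 < t) (v : V) : μ (t • v) = t * μ v := by
  rcases eq_or_ne v 0 with hv | hv
  · rw [hv, smul_zero, hμ0, mul_zero]
  · obtain ⟨N, -, hN⟩ := exists_support k kpos khom ksub v
    exact mu_hom_aux W k μ h v hv ⟨N, hN⟩ khom t ht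

include hsub hW

lemma mu_lip : ∃ C : NNReal, LipschitzWith C μ := by
  obtain ⟨C, hC, hb⟩ := k_bound k khom ksub
  -- polar set is bounded
  have hDb : ∀ N : V, (∀ u, dot N u ≤ k u) → ‖N‖ ≤ C := by
    intro N hN
    have n1 : ‖((1, 0) : V)‖ = 1 := by simp [Prod.norm_def]
    have n2 : ‖((-1, 0) : V)‖ = 1 := by simp [Prod.norm_def]
    have n3 : ‖((0, 1) : V)‖ = 1 := by simp [Prod.norm_def]
    have n4 : ‖((0, -1) : V)‖ = 1 := by simp [Prod.norm_def]
    have a1 := (hN (1, 0)).trans (hb (1, 0))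
    have a2 := (hN (-1, 0)).trans (hb (-1, 0))
    have a3 := (hN (0, 1)).trans (hb (0, 1))
    have a4 := (hN (0, -1)).trans (hb (0, -1))
    rw [n1] at a1
    rw [n2] at a2
    rw [n3] at a3
    rw [n4] at a4
    simp only [dot] at a1 a2 a3 a4
    rw [Prod.norm_def]
    simp only [Real.norm_eq_abs]
    apply max_le <;> rw [abs_le] <;> constructor <;> linarith
  obtain ⟨B, hB⟩ : ∃ B : ℝ, ∀ N : V, ‖N‖ ≤ C → ‖W N‖ ≤ B := by
    have hc : IsCompact (Metric.closedBall (0 : V) C) := isCompact_closedBall _ _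
    obtain ⟨B, hB⟩ := hc.bddAbove_image (hW.norm.continuousOn)
    exact ⟨B, fun N hN => hB (mem_image_of_mem _ (by simpa using hN))⟩
  have hBnn : 0 ≤ B := (norm_nonneg _).trans (hB 0 (by simpa using hC.le))
  -- upper bound on the polar set
  have hup : ∀ N : V, (∀ u, dot N u ≤ k u) → ∀ v, dot v (W N) ≤ μ v := by
    intro N hN v
    rcases eq_or_ne v 0 with hv | hv
    · rw [hv, dot_zero_left, hμ0]
    · have hvv := dot_self_pos v hv
      set s := (k v - dot N v) / dot v v with hs
      have hs0 : 0 ≤ s := div_nonneg (by linarith [hN v]) hvv.le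
      have h1 : dot (N + s • v) v = k v := by
        rw [dot_add_left, dot_smul_left, hs]
        field_simp
        ring
      have h2 := h v hv _ h1
      have h3 := mono_of_subgrad φ W hsub N (N + s • v)
      rw [add_sub_cancel_left, dot_smul_left, dot_sub_right] at h3
      rcases hs0.lt_or_eq with h4 | h4
      · have h5 : 0 ≤ dot v (W (N + s • v)) - dot v (W N) := by
          by_contra hcon
          push Not at hcon
          have := mul_neg_of_pos_of_neg h4 hcon
          linarith
        linarith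
      · rw [← h4, zero_smul, add_zero] at h2
        exact h2.le
  have hone : ∀ v u : V, μ v - μ u ≤ 2 * B * ‖v - u‖ := by
    intro v u
    obtain ⟨N, hN1, hN2⟩ := exists_support k kpos khom ksub v
    have h1 : μ v = dot v (W N) := by
      rcases eq_or_ne v 0 with hv | hv
      · rw [hv, dot_zero_left, hμ0]
      · exact (h v hv N hN2).symm
    have h2 := hup N hN1 u
    have h3 := (abs_le.1 (abs_dot_le (v - u) (W N))).2
    rw [dot_sub_left] at h3
    have h4 : ‖v - u‖ * ‖W N‖ ≤ ‖v - u‖ * B := by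
      gcongr
      exact hB N (hDb N hN1)
    rw [h1]
    linarith
  refine ⟨Real.toNNReal (2 * B), LipschitzWith.of_dist_le_mul ?_⟩
  intro x y
  rw [Real.coe_toNNReal _ (by positivity), Real.dist_eq, dist_eq_norm, abs_le]
  have h1 := hone x y
  have h2 := hone y x
  rw [norm_sub_rev] at h2
  constructor <;> linarith

/-- the second support function is affinely related to the first -/
lemma mu_affine : ∃ (c : ℝ) (b : V), ∀ v, μ v = c * k v + dot b v := by
  obtain ⟨C, hC, hb⟩ := k_bound k khom ksub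
  obtain ⟨Ck, hCk⟩ := k_lip k khom ksub
  obtain ⟨Cμ, hCμ⟩ := mu_lip φ W k μ hsub hW kpos khom ksub h hμ0
  have hkc := hCk.continuous
  have hμc := hCμ.continuous
  have hμhom := fun t ht v => mu_hom W k μ kpos khom ksub h hμ0 t ht v
  set Gd : Set V := {v | DifferentiableAt ℝ k v ∧ DifferentiableAt ℝ μ v} with hGd
  have hGdd : Dense Gd := by
    have h1 : ∀ᵐ v : V, DifferentiableAt ℝ k v := hCk.ae_differentiableAt
    have h2 : ∀ᵐ v : V, DifferentiableAt ℝ μ v := hCμ.ae_differentiableAt
    exact Measure.dense_of_ae (h1.and h2)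
  have hpar : ∀ v ∈ Gd, ∀ u ∈ Gd, u ∈ Gen v →
      cross (grad k v - grad k u) (grad μ v - grad μ u) = 0 := by
    intro v hv u hu hg
    exact parallel φ W k μ hsub hW hkc khom ksub h hμhom v u hv.1 hu.1 hv.2 hu.2 hg.1 hg.2
  have hek : ∀ v ∈ Gd, dot (grad k v) v = k v := fun v hv =>
    euler k v hv.1 (fun t ht => khom t ht.le v)
  have heμ : ∀ v ∈ Gd, dot (grad μ v) v = μ v := fun v hv =>
    euler μ v hv.2 (fun t ht => hμhom t ht v)
  have hDb : ∀ v ∈ Gd, ‖grad k v‖ ≤ C := by
    intro v hv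
    have hN := grad_mem k khom ksub v hv.1
    have n1 : ‖((1, 0) : V)‖ = 1 := by simp [Prod.norm_def]
    have n2 : ‖((-1, 0) : V)‖ = 1 := by simp [Prod.norm_def]
    have n3 : ‖((0, 1) : V)‖ = 1 := by simp [Prod.norm_def]
    have n4 : ‖((0, -1) : V)‖ = 1 := by simp [Prod.norm_def]
    have a1 := (hN (1, 0)).trans (hb (1, 0))
    have a2 := (hN (-1, 0)).trans (hb (-1, 0))
    have a3 := (hN (0, 1)).trans (hb (0, 1))
    have a4 := (hN (0, -1)).trans (hb (0, -1))
    rw [n1] at a1
    rw [n2] at a2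
    rw [n3] at a3
    rw [n4] at a4
    simp only [dot] at a1 a2 a3 a4
    rw [Prod.norm_def]
    simp only [Real.norm_eq_abs]
    apply max_le <;> rw [abs_le] <;> constructor <;> linarith
  -- first direction
  obtain ⟨v₁, hv₁0, hv₁⟩ : ∃ v₁, v₁ ≠ 0 ∧ v₁ ∈ Gd := by
    have := hGdd.inter_open_nonempty ({0}ᶜ) isOpen_compl_singleton ⟨(1, 0), by
      intro h
      have := congrArg Prod.fst h
      simp at this⟩
    obtain ⟨v, hv1, hv2⟩ := this
    exact ⟨v, hv1, hv2⟩
  have hS1 : Dense (Gd ∩ Gen v₁) := hGdd.inter_of_isOpen_right (dense_gen v₁ hv₁0) (isOpen_gen v₁)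
  obtain ⟨v₂, hv₂, hv₂g, hD12⟩ : ∃ v₂ ∈ Gd, v₂ ∈ Gen v₁ ∧ grad k v₂ - grad k v₁ ≠ 0 := by
    by_contra hcon
    push Not at hcon
    have heq : k = fun v => dot (grad k v₁) v := by
      apply Continuous.ext_on hS1 hkc (Continuous.dot' continuous_const continuous_id)
      intro v hv
      have := hcon v hv.1 hv.2
      rw [sub_eq_zero] at this
      change k v = dot (grad k v₁) v
      rw [← hek v hv.1, this]
    have h1 := kpos (1, 0) (by
      intro h
      have := congrArg Prod.fst h
      simp at this)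
    have h2 := kpos (-1, 0) (by
      intro h
      have := congrArg Prod.fst h
      simp at this)
    rw [heq] at h1 h2
    simp only [dot] at h1 h2
    linarith
  have hv₂0 : v₂ ≠ 0 := by
    rintro rfl
    exact hv₂g.2 (dot_zero_right _)
  set p := grad k v₂ - grad k v₁ with hp
  have hS2 : Dense (Gd ∩ Gen v₁ ∩ Gen v₂) :=
    hS1.inter_of_isOpen_right (dense_gen v₂ hv₂0) (isOpen_gen v₂)
  obtain ⟨v₃, hv₃, hv₃g1, hv₃g2, hD13⟩ : ∃ v₃ ∈ Gd, v₃ ∈ Gen v₁ ∧ v₃ ∈ Gen v₂ ∧
      cross (grad k v₃ - grad k v₁) p ≠ 0 := by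
    by_contra hcon
    push Not at hcon
    set e := perp p with he
    have he0 : e ≠ 0 := perp_ne_zero hD12
    set a := dot (grad k v₁) e with ha
    have hval : ∀ v ∈ Gd ∩ Gen v₁ ∩ Gen v₂, dot (grad k v) e = a := by
      intro v hv
      have := hcon v hv.1.1 hv.1.2 hv.2
      have h2 : dot (grad k v - grad k v₁) e = - cross (grad k v - grad k v₁) p := by
        simp only [cross, he, dot, perp]; ring
      rw [this, neg_zero, dot_sub_left] at h2
      rw [ha]
      linarith
    have hb1 : ∀ v, |k v - a| ≤ 2 * (C * ‖v - e‖) := by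
      have hcl : IsClosed {v : V | |k v - a| ≤ 2 * (C * ‖v - e‖)} :=
        isClosed_le (by fun_prop) (by fun_prop)
      have hsubs : Gd ∩ Gen v₁ ∩ Gen v₂ ⊆ {v : V | |k v - a| ≤ 2 * (C * ‖v - e‖)} := by
        intro v hv
        have h1 := hval v hv
        have h2 := hek v hv.1.1
        have h3 := abs_dot_le (grad k v) (v - e)
        rw [dot_sub_right, h2, h1] at h3
        refine h3.trans ?_
        gcongr
        exact hDb v hv.1.1
      intro v
      have := (hcl.closure_subset_iff.2 hsubs) (hS2 v)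
      exact this
    have hb2 : ∀ v, |k v + a| ≤ 2 * (C * ‖v + e‖) := by
      have hcl : IsClosed {v : V | |k v + a| ≤ 2 * (C * ‖v + e‖)} :=
        isClosed_le (by fun_prop) (by fun_prop)
      have hsubs : Gd ∩ Gen v₁ ∩ Gen v₂ ⊆ {v : V | |k v + a| ≤ 2 * (C * ‖v + e‖)} := by
        intro v hv
        have h1 := hval v hv
        have h2 := hek v hv.1.1
        have h3 := abs_dot_le (grad k v) (v + e)
        rw [dot_add_right, h2, h1] at h3
        refine h3.trans ?_
        gcongr
        exact hDb v hv.1.1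
      intro v
      have := (hcl.closure_subset_iff.2 hsubs) (hS2 v)
      exact this
    have h1 := hb1 e
    have h2 := hb2 (-e)
    rw [sub_self, norm_zero, mul_zero, mul_zero] at h1
    rw [neg_add_cancel, norm_zero, mul_zero, mul_zero] at h2
    have h3 := abs_nonpos_iff.1 h1
    have h4 := abs_nonpos_iff.1 h2
    have h5 := kpos e he0
    have h6 := kpos (-e) (neg_ne_zero.2 he0)
    linarith
  have hv₃0 : v₃ ≠ 0 := by
    rintro rfl
    exact hv₃g1.2 (dot_zero_right _)
  set q := grad k v₃ - grad k v₁ with hq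
  have hq0 : q ≠ 0 := by
    intro h0
    apply hD13
    rw [h0, cross_def]
    simp
  have cr_neg : ∀ a b a' b' : V, cross (a - b) (a' - b') = cross (b - a) (b' - a') := by
    intro a b a' b'
    simp only [cross_def, Prod.fst_sub, Prod.snd_sub]
    ring
  -- ratios
  obtain ⟨c₁₂, hc₁₂⟩ := cross_smul p (grad μ v₂ - grad μ v₁) hD12 (by
    have := hpar v₁ hv₁ v₂ hv₂ hv₂g
    rw [cr_neg] at this
    exact this)
  obtain ⟨c₁₃, hc₁₃⟩ := cross_smul q (grad μ v₃ - grad μ v₁) hq0 (by
    have := hpar v₁ hv₁ v₃ hv₃ hv₃g1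
    rw [cr_neg] at this
    exact this)
  have hqp0 : q - p ≠ 0 := by
    intro h0
    apply hD13
    have : q = p := sub_eq_zero.1 h0
    rw [this, cross_def]
    ring
  obtain ⟨c₂₃, hc₂₃⟩ := cross_smul (q - p) (grad μ v₃ - grad μ v₂) hqp0 (by
    have := hpar v₂ hv₂ v₃ hv₃ hv₃g2
    rw [cr_neg] at this
    have e : q - p = grad k v₃ - grad k v₂ := by rw [hq, hp]; abel
    rw [e]
    exact this)
  have hrel : (c₁₃ - c₂₃) • q = (c₁₂ - c₂₃) • p := by
    have e : grad μ v₃ - grad μ v₁ = (grad μ v₃ - grad μ v₂) + (grad μ v₂ - grad μ v₁) := by abel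
    rw [hc₁₂, hc₁₃, hc₂₃] at e
    have e2 : (c₁₃ - c₂₃) • q - (c₁₂ - c₂₃) • p = c₁₃ • q - (c₂₃ • (q - p) + c₁₂ • p) := by module
    rw [e, sub_self] at e2
    exact sub_eq_zero.1 e2
  have hc12 : c₁₂ = c₂₃ := by
    have h1 : cross ((c₁₃ - c₂₃) • q) q = cross ((c₁₂ - c₂₃) • p) q := by rw [hrel]
    rw [cross_def, cross_def] at h1
    simp only [Prod.smul_fst, Prod.smul_snd, smul_eq_mul] at h1
    rw [cross_def] at hD13
    have h2 : (c₁₂ - c₂₃) * (q.1 * p.2 - q.2 * p.1) = 0 := by linear_combination h1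
    rcases mul_eq_zero.1 h2 with h3 | h3
    · linarith
    · exact absurd h3 hD13
  have hc13 : c₁₃ = c₂₃ := by
    have h1 : cross ((c₁₃ - c₂₃) • q) p = cross ((c₁₂ - c₂₃) • p) p := by rw [hrel]
    rw [cross_def, cross_def] at h1
    simp only [Prod.smul_fst, Prod.smul_snd, smul_eq_mul] at h1
    rw [cross_def] at hD13
    have h2 : (c₁₃ - c₂₃) * (q.1 * p.2 - q.2 * p.1) = 0 := by linear_combination h1
    rcases mul_eq_zero.1 h2 with h3 | h3
    · linarith
    · exact absurd h3 hD13
  set c := c₂₃ with hcdef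
  set b := grad μ v₁ - c • grad k v₁ with hbdef
  have hE1 : grad μ v₁ = c • grad k v₁ + b := by rw [hbdef]; abel
  have hE2 : grad μ v₂ = c • grad k v₂ + b := by
    have : grad μ v₂ = grad μ v₁ + (grad μ v₂ - grad μ v₁) := by abel
    rw [this, hc₁₂, hc12, hE1, hp]
    module
  have hE3 : grad μ v₃ = c • grad k v₃ + b := by
    have : grad μ v₃ = grad μ v₁ + (grad μ v₃ - grad μ v₁) := by abel
    rw [this, hc₁₃, hc13, hE1, hq]
    module
  refine ⟨c, b, ?_⟩
  have hS3 : Dense (Gd ∩ Gen v₁ ∩ Gen v₂ ∩ Gen v₃) :=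
    hS2.inter_of_isOpen_right (dense_gen v₃ hv₃0) (isOpen_gen v₃)
  have hfun : μ = fun v => c * k v + dot b v := by
    apply Continuous.ext_on hS3 hμc
      ((continuous_const.mul hkc).add (Continuous.dot' continuous_const continuous_id))
    rintro v ⟨⟨⟨hvG, hg1⟩, hg2⟩, hg3⟩
    set y := grad μ v - (c • grad k v + b) with hy
    have hEv : grad μ v = c • grad k v + b + y := by rw [hy]; abel
    have hcr : ∀ w ∈ Gd, v ∈ Gen w → grad μ w = c • grad k w + b →
        cross (grad k w - grad k v) y = 0 := by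
      intro w hw hg hE
      have h1 := hpar w hw v hvG hg
      rw [hE, hEv] at h1
      rw [cross_def] at h1 ⊢
      simp only [Prod.fst_sub, Prod.snd_sub, Prod.fst_add, Prod.snd_add, Prod.smul_fst,
        Prod.smul_snd, smul_eq_mul] at h1 ⊢
      linear_combination (-1 : ℝ) * h1
    have r1 := hcr v₁ hv₁ hg1 hE1
    have r2 := hcr v₂ hv₂ hg2 hE2
    have r3 := hcr v₃ hv₃ hg3 hE3
    have s1 : cross p y = 0 := by
      rw [hp]
      rw [cross_def] at r1 r2 ⊢
      simp only [Prod.fst_sub, Prod.snd_sub] at r1 r2 ⊢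
      linarith
    have s2 : cross q y = 0 := by
      rw [hq]
      rw [cross_def] at r1 r3 ⊢
      simp only [Prod.fst_sub, Prod.snd_sub] at r1 r3 ⊢
      linarith
    have hy0 := zero_of_cross p q y hD13 s1 s2
    have h1 := heμ v hvG
    have h2 := hek v hvG
    rw [hEv, hy0, add_zero, dot_add_left, dot_smul_left, h2] at h1
    exact h1.symm
  intro v
  exact congrFun hfun v

/-- Main two-dimensional statement. -/
theorem twoD : ∃ (c : ℝ) (b : V) (d : ℝ), ∀ N, (∃ v, k v < dot N v) →
    W N = c • N + b ∧ φ N = c / 2 * dot N N + dot b N + d := by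
  obtain ⟨c, b, hcb⟩ := mu_affine φ W k μ hsub hW kpos khom ksub h hμ0
  obtain ⟨Ck, hCk⟩ := k_lip k khom ksub
  have hkc := hCk.continuous
  have hk0 := k_zero k khom
  have hWN : ∀ N, (∃ v, k v < dot N v) → W N = c • N + b := by
    rintro N ⟨v₀, hv₀⟩
    have hv₀0 : v₀ ≠ 0 := by
      rintro rfl
      rw [hk0, dot_zero_right] at hv₀
      exact lt_irrefl _ hv₀
    have hfind : ∀ z : V, dot (perp v₀) z ≠ 0 → ∃ t ∈ Ioo (0 : ℝ) 1,
        dot N ((1 - 2 * t) • v₀ + (t * (1 - t)) • z) = k ((1 - 2 * t) • v₀ + (t * (1 - t)) • z) := by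
      intro z hz
      set F : ℝ → ℝ := fun t => k ((1 - 2 * t) • v₀ + (t * (1 - t)) • z)
        - dot N ((1 - 2 * t) • v₀ + (t * (1 - t)) • z) with hF
      have hFc : Continuous F := by
        have c1 : Continuous (fun t : ℝ => (1 - 2 * t) • v₀ + (t * (1 - t)) • z) := by fun_prop
        exact (hkc.comp c1).sub (Continuous.dot' continuous_const c1)
      have h0 : F 0 < 0 := by
        simp only [hF]
        norm_num
        exact hv₀
      have h1 : 0 < F 1 := by
        simp only [hF]
        norm_num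
        have e1 := kpos (-v₀) (neg_ne_zero.2 hv₀0)
        have e2 := kpos v₀ hv₀0
        rw [dot_neg_right]
        linarith
      obtain ⟨t, ht, ht0⟩ := intermediate_value_Ioo (by norm_num : (0 : ℝ) ≤ 1) hFc.continuousOn
        (show (0 : ℝ) ∈ Ioo (F 0) (F 1) from ⟨h0, h1⟩)
      refine ⟨t, ht, ?_⟩
      simp only [hF] at ht0
      linarith
    have hpp : dot (perp v₀) (perp v₀) ≠ 0 := (dot_self_pos _ (perp_ne_zero hv₀0)).ne'
    obtain ⟨t₁, ht₁, e₁⟩ := hfind (perp v₀) hpp
    obtain ⟨t₂, ht₂, e₂⟩ := hfind (-perp v₀) (by rw [dot_neg_right]; exact neg_ne_zero.2 hpp)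
    set v₁ := (1 - 2 * t₁) • v₀ + (t₁ * (1 - t₁)) • perp v₀ with hv₁
    set v₂ := (1 - 2 * t₂) • v₀ + (t₂ * (1 - t₂)) • (-perp v₀) with hv₂
    set s₁ := t₁ * (1 - t₁) with hs₁
    set s₂ := t₂ * (1 - t₂) with hs₂
    have hs₁p : 0 < s₁ := mul_pos ht₁.1 (by linarith [ht₁.2])
    have hs₂p : 0 < s₂ := mul_pos ht₂.1 (by linarith [ht₂.2])
    have hq := dot_self_pos v₀ hv₀0
    have hv₁0 : v₁ ≠ 0 := by
      intro h0
      have : dot (perp v₀) v₁ = s₁ * dot v₀ v₀ := by
        rw [hv₁]; simp only [dot, perp, Prod.fst_add, Prod.snd_add, Prod.smul_fst, Prod.smul_snd,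
          smul_eq_mul]; ring
      rw [h0, dot_zero_right] at this
      have := mul_pos hs₁p hq
      linarith
    have hv₂0 : v₂ ≠ 0 := by
      intro h0
      have : dot (perp v₀) v₂ = -(s₂ * dot v₀ v₀) := by
        rw [hv₂]; simp only [dot, perp, Prod.fst_add, Prod.snd_add, Prod.smul_fst, Prod.smul_snd,
          smul_eq_mul, Prod.fst_neg, Prod.snd_neg]; ring
      rw [h0, dot_zero_right] at this
      have := mul_pos hs₂p hq
      linarith
    have hW1 := h v₁ hv₁0 N e₁
    have hW2 := h v₂ hv₂0 N e₂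
    rw [hcb v₁, ← e₁] at hW1
    rw [hcb v₂, ← e₂] at hW2
    -- linear independence
    have hcr : cross v₁ v₂ ≠ 0 := by
      intro h0
      obtain ⟨x, hx⟩ := cross_smul v₁ v₂ hv₁0 h0
      have hx1 : x * s₁ = - s₂ := by
        have a1 : dot (perp v₀) v₁ = s₁ * dot v₀ v₀ := by
          rw [hv₁]; simp only [dot, perp, Prod.fst_add, Prod.snd_add, Prod.smul_fst,
            Prod.smul_snd, smul_eq_mul]; ring
        have a2 : dot (perp v₀) v₂ = -(s₂ * dot v₀ v₀) := by
          rw [hv₂]; simp only [dot, perp, Prod.fst_add, Prod.snd_add, Prod.smul_fst,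
            Prod.smul_snd, smul_eq_mul, Prod.fst_neg, Prod.snd_neg]; ring
        rw [hx, dot_smul_right, a1] at a2
        have a3 : (x * s₁) * dot v₀ v₀ = (-s₂) * dot v₀ v₀ := by linarith
        exact mul_right_cancel₀ hq.ne' a3
      have hxneg : x < 0 := by
        by_contra hx0
        push Not at hx0
        have := mul_nonneg hx0 hs₁p.le
        linarith
      have k1 := kpos v₁ hv₁0
      have k2 := kpos v₂ hv₂0
      rw [← e₁] at k1
      rw [← e₂, hx, dot_smul_right] at k2
      have := mul_neg_of_neg_of_pos hxneg k1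
      linarith
    have hz : W N - (c • N + b) = 0 := by
      have z1 : dot v₁ (W N - (c • N + b)) = 0 := by
        rw [dot_sub_right, dot_add_right, dot_smul_right, hW1, dot_comm N v₁, dot_comm b v₁]
        ring
      have z2 : dot v₂ (W N - (c • N + b)) = 0 := by
        rw [dot_sub_right, dot_add_right, dot_smul_right, hW2, dot_comm N v₂, dot_comm b v₂]
        ring
      set y := W N - (c • N + b)
      rw [cross_def] at hcr
      simp only [dot] at z1 z2
      have e1 : (v₁.1 * v₂.2 - v₁.2 * v₂.1) * y.1 = 0 := by linear_combination v₂.2 * z1 - v₁.2 * z2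
      have e2 : (v₁.1 * v₂.2 - v₁.2 * v₂.1) * y.2 = 0 := by
        linear_combination v₁.1 * z2 - v₂.1 * z1
      ext
      · rcases mul_eq_zero.1 e1 with h | h
        · exact absurd h hcr
        · exact h
      · rcases mul_eq_zero.1 e2 with h | h
        · exact absurd h hcr
        · exact h
    exact sub_eq_zero.1 hz
  -- the potential
  set ψ : V → ℝ := fun N => φ N - (c / 2 * dot N N + dot b N) with hψ
  have hconst : ∀ v : V, ∀ N N' : V, k v < dot N v → k v < dot N' v → ψ N' = ψ N := by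
    intro v N N' hN hN'
    have hder : ∀ x ∈ {x : V | k v < dot x v}, HasFDerivWithinAt ψ (0 : V →L[ℝ] ℝ)
        {x : V | k v < dot x v} x := by
      intro x hx
      apply HasFDerivAt.hasFDerivWithinAt
      have d1 := hasFDerivAt_of_subgrad φ W hsub x hW.continuousAt
      have d2 : HasFDerivAt (fun N : V => c / 2 * dot N N + dot b N) (dotL (c • x + b)) x := by
        have f1 : HasFDerivAt (fun N : V => N.1) (ContinuousLinearMap.fst ℝ ℝ ℝ) x := hasFDerivAt_fst
        have f2 : HasFDerivAt (fun N : V => N.2) (ContinuousLinearMap.snd ℝ ℝ ℝ) x := hasFDerivAt_snd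
        have := (((f1.mul f1).add (f2.mul f2)).const_mul (c / 2)).add
          ((f1.const_mul b.1).add (f2.const_mul b.2))
        refine this.congr_fderiv ?_
        refine ContinuousLinearMap.ext fun z => ?_
        simp [dotL]
        ring
      have d3 := d1.sub d2
      rw [hWN x ⟨v, hx⟩, sub_self] at d3
      exact d3
    have hconv : Convex ℝ {x : V | k v < dot x v} := by
      intro x hx y hy a b ha hb hab
      change k v < dot x v at hx
      change k v < dot y v at hy
      change k v < dot (a • x + b • y) v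
      rw [dot_add_left, dot_smul_left, dot_smul_left]
      rcases ha.lt_or_eq with ha' | ha'
      · have h1 := mul_lt_mul_of_pos_left hx ha'
        have h2 := mul_le_mul_of_nonneg_left hy.le hb
        have h3 : k v = a * k v + b * k v := by rw [← add_mul, hab, one_mul]
        linarith
      · rw [← ha'] at hab ⊢
        have hb1 : b = 1 := by linarith
        rw [hb1]
        linarith
    have := hconv.norm_image_sub_le_of_norm_hasFDerivWithin_le (C := 0) hder
      (fun x _ => by simp) hN hN'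
    rw [zero_mul] at this
    exact sub_eq_zero.1 (norm_le_zero_iff.1 this)
  have hlink : ∀ v v' u : V, 0 < dot v u → 0 < dot v' u → ∃ N : V, k v < dot N v ∧
      k v' < dot N v' := by
    intro v v' u h1 h2
    set T := |k v| / dot v u + |k v'| / dot v' u + 1 with hT
    have hT0 : 0 < T := by positivity
    refine ⟨T • u, ?_, ?_⟩
    · rw [dot_smul_left, dot_comm u v]
      have : |k v| / dot v u * dot v u = |k v| := by field_simp
      have h3 : |k v| / dot v u * dot v u < T * dot v u := by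
        apply mul_lt_mul_of_pos_right _ h1
        rw [hT]
        have : 0 ≤ |k v'| / dot v' u := by positivity
        linarith
      linarith [le_abs_self (k v)]
    · rw [dot_smul_left, dot_comm u v']
      have : |k v'| / dot v' u * dot v' u = |k v'| := by field_simp
      have h3 : |k v'| / dot v' u * dot v' u < T * dot v' u := by
        apply mul_lt_mul_of_pos_right _ h2
        rw [hT]
        have : 0 ≤ |k v| / dot v u := by positivity
        linarith
      linarith [le_abs_self (k v')]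
  obtain ⟨N₁, hN₁a, -⟩ := hlink (1, 0) (1, 0) (1, 0) (by norm_num [dot]) (by norm_num [dot])
  refine ⟨c, b, ψ N₁, ?_⟩
  rintro N ⟨v, hv⟩
  refine ⟨hWN N ⟨v, hv⟩, ?_⟩
  have hv0 : v ≠ 0 := by
    rintro rfl
    rw [hk0, dot_zero_right] at hv
    exact lt_irrefl _ hv
  have hψN : ψ N = ψ N₁ := by
    -- choose an intermediate direction (0, ±1)
    obtain ⟨z, hz0, hz1, hz2⟩ : ∃ z : V, z ≠ 0 ∧ dot z (1, 0) = 0 ∧ 0 ≤ dot z v := by
      rcases le_total 0 v.2 with h0 | h0
      · refine ⟨(0, 1), ?_, by simp [dot], by simpa [dot] using h0⟩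
        intro h
        have := congrArg Prod.snd h
        simp at this
      · refine ⟨(0, -1), ?_, by simp [dot], by simpa [dot] using h0⟩
        intro h
        have := congrArg Prod.snd h
        simp at this
    have hzz := dot_self_pos z hz0
    obtain ⟨A, hA1, hA2⟩ := hlink z v (z + v) (by rw [dot_add_right]; linarith) (by
      rw [dot_add_right, dot_comm v z]
      have := dot_self_pos v hv0
      linarith)
    obtain ⟨B, hB1, hB2⟩ := hlink z (1, 0) (z + (1, 0)) (by rw [dot_add_right, hz1]; linarith) (by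
      rw [dot_add_right, dot_comm (1, 0) z, hz1]
      norm_num [dot])
    rw [hconst v A N hA2 hv, hconst z B A hB1 hA1, hconst (1, 0) N₁ B hN₁a hB2]
  simp only [hψ] at hψN ⊢
  linarith

end

end Pool.Agent.Helper28.FG
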