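import Mathlib
import Pool.Agent.Helper28.FG.LocA
import Pool.Agent.Helper28.FG.TwoC
import Pool.Agent.Helper28.FG.Quad

set_option autoImplicit false

namespace Pool.Agent.Helper28.FG

open Filter Topology Set

section

variable {M K : Set (V × ℝ)}

lemma exists_exit (h : GP M K) : ∃ R : V × ℝ → V × ℝ → ℝ,
    ∀ q ∈ interior K, ∀ v, v ≠ 0 → 0 < R q v ∧ q + R q v • v ∈ frontier K := by
  have hex : ∀ q v : V × ℝ, ∃ r : ℝ, q ∈ interior K → v ≠ 0 → 0 < r ∧ q + r • v ∈ frontier K := by
    intro q v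
    by_cases h1 : q ∈ interior K ∧ v ≠ 0
    · obtain ⟨r, hr⟩ := ray_exit h.Kc h1.1 h1.2
      exact ⟨r, fun _ _ => hr⟩
    · exact ⟨0, fun a b => absurd ⟨a, b⟩ h1⟩
  choose R hR' using hex
  exact ⟨R, fun q hq v hv => hR' q v hq hv⟩

/-- normalising the height -/
lemma exists_eta (h : GP M K) (n : Nm M) (N : V) : ∃ η : ℝ, fn N η (Pm M (fn N η)) = 1 := by
  have hc : Continuous (fun η : ℝ => fn N η (Pm M (fn N η))) :=
    (supp_cont h.Mc h.nonempty).comp (fn_cont.comp (Continuous.prodMk_right N))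
  have hspec := fun f => Pm_spec h.Mc h.nonempty f
  apply mem_range_of_exists_le_of_exists_ge hc
  · -- small values
    have h1 : Tendsto (fun t : ℝ => dot N (yy M ((t⁻¹) • N)).1) atTop (𝓝 0) := by
      have h2 : Tendsto (fun t : ℝ => (t⁻¹) • N) atTop (𝓝 0) := by
        have := (tendsto_inv_atTop_zero (𝕜 := ℝ)).smul_const N
        simpa using this
      have h3 : Tendsto (fun t : ℝ => yy M ((t⁻¹) • N)) atTop (𝓝 (yy M 0)) :=
        ((yy_cont h).tendsto 0).comp h2
      rw [yy_zero h n] at h3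
      have h4 : Tendsto (fun t : ℝ => (yy M ((t⁻¹) • N)).1) atTop (𝓝 (0 : V × ℝ).1) :=
        (continuous_fst.tendsto (0 : V × ℝ)).comp h3
      have h5 := Tendsto.dot' (tendsto_const_nhds (x := N) (f := atTop)) h4
      simpa [dot_zero_right] using h5
    have h2 : ∀ᶠ t : ℝ in atTop, dot N (yy M ((t⁻¹) • N)).1 < 1 :=
      h1.eventually (gt_mem_nhds one_pos)
    obtain ⟨t, ht1, ht0⟩ := (h2.and (eventually_gt_atTop (0 : ℝ))).exists
    refine ⟨-t, ?_⟩
    have hm := (hspec (fn N (-t))).1
    set y := Pm M (fn N (-t)) with hy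
    have h3 := (yy_spec h ((t⁻¹) • N)).2 y hm
    have h4 := n.hz _ (yy_spec h ((t⁻¹) • N)).1
    rw [fn_apply]
    rw [dot_smul_left, dot_smul_left] at h3
    have h5 : t * (t⁻¹ * dot N y.1 - y.2) ≤
        t * (t⁻¹ * dot N (yy M (t⁻¹ • N)).1 - (yy M (t⁻¹ • N)).2) :=
      mul_le_mul_of_nonneg_left h3 ht0.le
    rw [mul_sub, mul_sub, ← mul_assoc, ← mul_assoc, mul_inv_cancel₀ ht0.ne', one_mul, one_mul] at h5
    have h6 : 0 ≤ t * (yy M (t⁻¹ • N)).2 := mul_nonneg ht0.le h4
    linarith
  · -- large values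
    obtain ⟨y, hy⟩ := h.Mint
    have hyM := interior_subset hy
    have hy2 : 0 < y.2 := by
      rcases (n.hz y hyM).lt_or_eq with h1 | h1
      · exact h1
      · exfalso
        have := interior_lt (f := fn 0 (-1)) (fn_ne_zero (by norm_num)) (c := 0) (by
          intro z hz
          rw [fn_apply, dot_zero_left]
          have := n.hz z hz
          linarith) hy
        rw [fn_apply, dot_zero_left, ← h1] at this
        norm_num at this
    refine ⟨(1 - dot N y.1) / y.2, ?_⟩
    have h1 := (hspec (fn N ((1 - dot N y.1) / y.2))).2 y hyM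
    rw [fn_apply N ((1 - dot N y.1) / y.2) y] at h1
    have h2 : dot N y.1 + (1 - dot N y.1) / y.2 * y.2 = 1 := by
      field_simp
      ring
    rw [h2] at h1
    exact h1

/-- Local theorem: near a smooth point the boundary of `M` lies on a quadric. -/
theorem local_quadric (h : GP M K) (n : Nm M) :
    ∃ q : V × ℝ → ℝ, IsQuad q ∧ (∃ y, q y ≠ 0) ∧ q 0 = 0 ∧
      ∀ y ∈ M, ∀ f : (V × ℝ) →L[ℝ] ℝ, f ≠ 0 → (∀ y' ∈ M, f y' ≤ f y) →
        (∃ x ∈ K, x.2 = 0 ∧ f y < f x) → q y = 0 := by
  obtain ⟨R, hR⟩ := exists_exit h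
  obtain ⟨A, B, C, hA, hABC, hconj⟩ := conj_quadratic h n R hR
  choose! lam hlam0 hlam1 hlam2 using hconj
  choose η hη using exists_eta h n
  set Y : V → V × ℝ := fun N => Pm M (fn N (η N)) with hY
  have hspec := fun f => Pm_spec h.Mc h.nonempty f
  have hYM : ∀ N, Y N ∈ M := fun N => (hspec _).1
  have hYmax : ∀ N, ∀ y ∈ M, fn N (η N) y ≤ fn N (η N) (Y N) := fun N => (hspec _).2
  have hY1 : ∀ N, dot N (Y N).1 + η N * (Y N).2 = 1 := by
    intro N
    have := hη N
    rw [fn_apply] at this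
    exact this
  have hYle : ∀ N, ∀ y ∈ M, dot N y.1 + η N * y.2 ≤ 1 := by
    intro N y hy
    have h1 := hYmax N y hy
    rw [fn_apply, fn_apply, hY1] at h1
    exact h1
  have hfne : ∀ N, fn N (η N) ≠ 0 := by
    intro N h0
    have := hη N
    rw [h0] at this
    simp at this
  have hYpos : ∀ N, 0 < (Y N).2 := by
    intro N
    rcases (n.hz _ (hYM N)).lt_or_eq with h1 | h1
    · exact h1
    · exfalso
      have h2 := zero_of_snd h n (hYM N) h1.symm
      have h3 := hY1 N
      rw [h2] at h3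
      simp [dot] at h3
  set W : V → V := fun N => ((Y N).2)⁻¹ • (Y N).1 with hW
  have hsub : ∀ x y, -η x + dot (y - x) (W x) ≤ -η y := by
    intro x y
    have h1 := hYle y _ (hYM x)
    have h2 := hY1 x
    have h3 := hYpos x
    simp only [hW, dot_smul_right, dot_sub_left]
    have h4 : (Y x).2⁻¹ * (dot y (Y x).1 - dot x (Y x).1) ≤ (Y x).2⁻¹ * ((η x - η y) * (Y x).2) := by
      apply mul_le_mul_of_nonneg_left _ (inv_nonneg.2 h3.le)
      linarith
    have h5 : (Y x).2⁻¹ * ((η x - η y) * (Y x).2) = η x - η y := by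
      field_simp
    rw [h5] at h4
    linarith
  have hηc : Continuous η := by
    have h1 := cont_of_subgrad (fun x => -η x) W hsub
    have h2 : η = fun x => -(-η x) := by
      funext x
      ring
    rw [h2]
    exact h1.neg
  have hYc : Continuous Y := by
    rw [continuous_iff_continuousAt]
    intro N
    have h1 := h.Pm_cont finrank_V3 (hfne N)
    have h2 : ContinuousAt (fun N : V => fn N (η N)) N := by
      have : Continuous (fun N : V => fn N (η N)) := fn_cont.comp (continuous_id.prodMk hηc)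
      exact this.continuousAt
    exact ContinuousAt.comp (g := Pm M) (f := fun N : V => fn N (η N)) h1 h2
  have hWc : Continuous W := by
    have h1 : Continuous (fun N => ((Y N).2)⁻¹) := by
      apply Continuous.inv₀
      · fun_prop
      · intro N
        exact (hYpos N).ne'
    have h2 : Continuous (fun N => (Y N).1) := by fun_prop
    exact h1.smul h2
  -- the gauge
  have h0K : (0 : V × ℝ) ∈ interior K := h.MK n.h0
  have hKn : K ∈ 𝓝 (0 : V × ℝ) := mem_interior_iff_mem_nhds.1 h0K
  have hKabs : Absorbent ℝ K := absorbent_nhds_zero hKn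
  set k : V → ℝ := fun v => gauge K (v, 0) with hk
  have kpos : ∀ v, v ≠ 0 → 0 < k v := by
    intro v hv
    refine (gauge_pos hKabs (NormedSpace.isVonNBounded_of_isBounded ℝ h.Kc.isBounded)).2 ?_
    intro h1
    exact hv (congrArg Prod.fst h1)
  have khom : ∀ t : ℝ, 0 ≤ t → ∀ v, k (t • v) = t * k v := by
    intro t ht v
    have h1 := gauge_smul_of_nonneg (s := K) ht ((v, 0) : V × ℝ)
    have h2 : t • ((v, 0) : V × ℝ) = (t • v, 0) := by
      ext <;> simp
    rw [h2, smul_eq_mul] at h1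
    exact h1
  have ksub : ∀ v u, k (v + u) ≤ k v + k u := by
    intro v u
    have h1 := gauge_add_le h.Kcv hKabs ((v, 0) : V × ℝ) ((u, 0) : V × ℝ)
    have h2 : ((v, 0) : V × ℝ) + ((u, 0) : V × ℝ) = (v + u, 0) := by
      ext <;> simp
    rw [h2] at h1
    exact h1
  have hXf : ∀ v : V, v ≠ 0 → R 0 (v, 0) • ((v, 0) : V × ℝ) ∈ frontier K := by
    intro v hv
    have h1 := (hR 0 h0K (v, 0) (fun h1 => hv (congrArg Prod.fst h1))).2
    rwa [zero_add] at h1
  have hRk : ∀ v : V, v ≠ 0 → R 0 (v, 0) * k v = 1 := by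
    intro v hv
    have h1 := (gauge_eq_one_iff_mem_frontier h.Kcv hKn).2 (hXf v hv)
    have h2 : R 0 (v, 0) • ((v, 0) : V × ℝ) = (R 0 (v, 0) • v, 0) := by
      ext <;> simp
    rw [h2] at h1
    rw [← khom _ (hR 0 h0K (v, 0) (fun h1 => hv (congrArg Prod.fst h1))).1.le]
    exact h1
  have hkey : ∀ v : V, v ≠ 0 → ∀ N, dot N v = k v →
      dot (C * v.1 - B * v.2, -B * v.1 + A * v.2) (W N)
        = -(Gf M (R 0 (v, 0) • (v, 0)) (0, 1)) / lam v := by
    intro v hv N hN
    set x : V × ℝ := R 0 (v, 0) • ((v, 0) : V × ℝ) with hx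
    have hx1 : x.1 = R 0 (v, 0) • v := by rw [hx]; rfl
    have hx2 : x.2 = 0 := by
      rw [hx]
      simp
    have h1 : fn N (η N) (Y N) = fn N (η N) x := by
      rw [fn_apply, fn_apply, hY1, hx1, hx2, dot_smul_right, hN, hRk v hv]
      ring
    have h2 := h.Gf_spec (hXf v hv) (fn N (η N)) (hfne N) (Y N) (hYM N) (hYmax N) h1
    have h3 := h.Gf_spec (hXf v hv) (fn 0 (-1)) (fn_ne_zero (by norm_num)) 0 n.h0 (by
      intro y hy
      rw [fn_apply, fn_apply, dot_zero_left, dot_zero_left]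
      have := n.hz y hy
      simp only [Prod.snd_zero]
      linarith) (by
      rw [← hx, fn_apply, fn_apply, dot_zero_left, dot_zero_left, hx2]
      simp)
    rw [← hx] at h2 h3
    have h4 : Gf M x (Y N) = 0 := by
      simp only [map_sub, sub_zero] at h2 h3
      linarith
    rw [fn_decomp, hlam1 v hv, hlam2 v hv] at h4
    have h5 := hlam0 v hv
    have h6 := (hYpos N).ne'
    rw [eq_div_iff h5]
    simp only [hW, dot_smul_right]
    have h7 : (Y N).2⁻¹ * (dot (lam v * (C * v.1 - B * v.2), lam v * (-B * v.1 + A * v.2)) (Y N).1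
        + Gf M x (0, 1) * (Y N).2) = 0 := by rw [h4, mul_zero]
    have h8 : (Y N).2⁻¹ * (Gf M x (0, 1) * (Y N).2) = Gf M x (0, 1) := by
      field_simp
    rw [mul_add, h8] at h7
    have h9 : dot (lam v * (C * v.1 - B * v.2), lam v * (-B * v.1 + A * v.2)) (Y N).1
        = lam v * dot (C * v.1 - B * v.2, -B * v.1 + A * v.2) (Y N).1 := by
      simp only [dot]
      ring
    rw [h9] at h7
    linarith
  -- coordinates
  obtain ⟨a, b, c, ha, hc, e1, e2, e3⟩ : ∃ a b c : ℝ, a ≠ 0 ∧ c ≠ 0 ∧ a ^ 2 + b ^ 2 = C ∧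
      b * c = -B ∧ c ^ 2 = A := by
    refine ⟨√((A * C - B ^ 2) / A), -B / √A, √A, ?_, ?_, ?_, ?_, ?_⟩
    · exact (Real.sqrt_pos.2 (div_pos hABC hA)).ne'
    · exact (Real.sqrt_pos.2 hA).ne'
    · rw [Real.sq_sqrt (div_pos hABC hA).le, div_pow, Real.sq_sqrt hA.le]
      field_simp
      ring
    · have := (Real.sqrt_pos.2 hA).ne'
      field_simp
    · exact Real.sq_sqrt hA.le
  set Pf : V → V := fun v => (a * v.1, b * v.1 + c * v.2) with hPf
  set Pt : V → V := fun N => (a * N.1 + b * N.2, c * N.2) with hPt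
  set Qf : V → V := fun v => (v.1 / a, (v.2 - b * (v.1 / a)) / c) with hQf
  set Qt : V → V := fun N => ((N.1 - b * (N.2 / c)) / a, N.2 / c) with hQt
  have hadj : ∀ N v, dot (Pt N) v = dot N (Pf v) := by
    intro N v
    simp only [hPt, hPf, dot]
    ring
  have hPQ : ∀ v, Pf (Qf v) = v := by
    intro v
    simp only [hPf, hQf]
    ext
    · change a * (v.1 / a) = v.1
      field_simp
    · change b * (v.1 / a) + c * ((v.2 - b * (v.1 / a)) / c) = v.2
      field_simp
      ring
  have hQP : ∀ v, Qf (Pf v) = v := by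
    intro v
    simp only [hPf, hQf]
    ext
    · change (a * v.1) / a = v.1
      field_simp
    · change (b * v.1 + c * v.2 - b * (a * v.1 / a)) / c = v.2
      field_simp
      ring
  have hPQt : ∀ N, Pt (Qt N) = N := by
    intro N
    simp only [hPt, hQt]
    ext
    · change a * ((N.1 - b * (N.2 / c)) / a) + b * (N.2 / c) = N.1
      field_simp
      ring
    · change c * (N.2 / c) = N.2
      field_simp
  have hQne : ∀ v, v ≠ 0 → Qf v ≠ 0 := by
    intro v hv h0
    apply hv
    rw [← hPQ v, h0]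
    simp [hPf]
  have hPtc : Continuous Pt := by
    simp only [hPt]
    fun_prop
  have hPfc : Continuous Pf := by
    simp only [hPf]
    fun_prop
  have hPtsub : ∀ x y, Pt (y - x) = Pt y - Pt x := by
    intro x y
    simp only [hPt]
    ext
    · simp only [Prod.fst_sub, Prod.snd_sub]; ring
    · simp only [Prod.snd_sub]; ring
  obtain ⟨c', b', d', hmain⟩ := twoD (fun N => -η (Pt N)) (fun N => Pf (W (Pt N)))
    (fun v => k (Qf v))
    (fun v => open Classical in if v = 0 then 0 else
      -(Gf M (R 0 (Qf v, 0) • (Qf v, 0)) (0, 1)) / lam (Qf v))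
    (by
      intro x y
      have h1 := hsub (Pt x) (Pt y)
      rw [← hPtsub, hadj] at h1
      exact h1)
    (hPfc.comp (hWc.comp hPtc))
    (fun v hv => kpos _ (hQne v hv))
    (by
      intro t ht v
      have h1 : Qf (t • v) = t • Qf v := by
        simp only [hQf]
        ext
        · simp only [Prod.smul_fst, smul_eq_mul]; ring
        · simp only [Prod.smul_fst, Prod.smul_snd, smul_eq_mul]; ring
      change k (Qf (t • v)) = t * k (Qf v)
      rw [h1, khom t ht])
    (by
      intro v u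
      have h1 : Qf (v + u) = Qf v + Qf u := by
        simp only [hQf]
        ext
        · simp only [Prod.fst_add]; ring
        · simp only [Prod.fst_add, Prod.snd_add]; ring
      change k (Qf (v + u)) ≤ k (Qf v) + k (Qf u)
      rw [h1]
      exact ksub _ _)
    (by
      intro v hv N hN
      have h1 : dot (Pt N) (Qf v) = k (Qf v) := by
        rw [hadj, hPQ]
        exact hN
      have h2 := hkey (Qf v) (hQne v hv) (Pt N) h1
      simp only [if_neg hv]
      rw [← h2]
      have h3 : dot v (Pf (W (Pt N))) = dot (Pf (Qf v)) (Pf (W (Pt N))) := by rw [hPQ]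
      rw [h3]
      simp only [hPf, dot, ← e1, ← e3]
      have e2' : B = -(b * c) := by linarith
      rw [e2']
      ring)
    (by simp)
  -- the polynomial
  set P1 : (V × ℝ) →ₗ[ℝ] ℝ := (a • (LinearMap.fst ℝ ℝ ℝ)).comp (LinearMap.fst ℝ V ℝ)
    - b'.1 • (LinearMap.snd ℝ V ℝ) with hP1
  set P2 : (V × ℝ) →ₗ[ℝ] ℝ := (b • (LinearMap.fst ℝ ℝ ℝ) + c • (LinearMap.snd ℝ ℝ ℝ)).comp
    (LinearMap.fst ℝ V ℝ) - b'.2 • (LinearMap.snd ℝ V ℝ) with hP2
  have hP1a : ∀ y, P1 y = a * y.1.1 - b'.1 * y.2 := by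
    intro y
    simp [hP1]
  have hP2a : ∀ y, P2 y = b * y.1.1 + c * y.1.2 - b'.2 * y.2 := by
    intro y
    simp [hP2]
  refine ⟨fun y => ((1 / 2) * (P1 y * P1 y) + (1 / 2) * (P2 y * P2 y))
    + ((-c') * (LinearMap.snd ℝ V ℝ y)
      + (-(c' * d')) * (LinearMap.snd ℝ V ℝ y * LinearMap.snd ℝ V ℝ y)), ?_, ?_, ?_, ?_⟩
  · exact (((isQuad_mul P1 P1).smul (1 / 2)).add ((isQuad_mul P2 P2).smul (1 / 2))).add
      (((isQuad_lin (LinearMap.snd ℝ V ℝ)).smul (-c')).add
        ((isQuad_mul (LinearMap.snd ℝ V ℝ) (LinearMap.snd ℝ V ℝ)).smul (-(c' * d'))))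
  · refine ⟨((0, 1), 0), ?_⟩
    simp only [hP1a, hP2a, LinearMap.snd_apply]
    have : 0 < c ^ 2 := by positivity
    intro h0
    nlinarith
  · simp
  · rintro y hy f hf hmax ⟨x, hxK, hx2, hfx⟩
    simp only [hP1a, hP2a, LinearMap.snd_apply]
    -- the functional
    have hfy0 : 0 ≤ f y := by
      have := hmax 0 n.h0
      rwa [map_zero] at this
    rcases hfy0.lt_or_eq with hfy | hfy
    swap
    · have hy0 : y = 0 := by
        apply h.strict finrank_V3 hf hy n.h0 hmax
        intro z hz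
        rw [map_zero, hfy]
        exact hmax z hz
      rw [hy0]
      simp
    -- normalise
    set ξ : V := (f ((1, 0), 0), f ((0, 1), 0)) with hξ
    set N : V := (f y)⁻¹ • ξ with hN
    set e : ℝ := (f y)⁻¹ * f (0, 1) with he
    have hfN : ∀ z : V × ℝ, dot N z.1 + e * z.2 = (f y)⁻¹ * f z := by
      intro z
      rw [fn_decomp f z, hN, he, dot_smul_left]
      ring
    have hNy : dot N y.1 + e * y.2 = 1 := by
      rw [hfN, inv_mul_cancel₀ hfy.ne']
    have hNmax : ∀ z ∈ M, dot N z.1 + e * z.2 ≤ 1 := by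
      intro z hz
      rw [hfN, ← inv_mul_cancel₀ hfy.ne']
      exact mul_le_mul_of_nonneg_left (hmax z hz) (inv_nonneg.2 hfy.le)
    have hNx : 1 < dot N x.1 := by
      have h1 := hfN x
      rw [hx2, mul_zero, add_zero] at h1
      rw [h1, ← inv_mul_cancel₀ hfy.ne']
      exact mul_lt_mul_of_pos_left hfx (inv_pos.2 hfy)
    have hkx : k x.1 ≤ 1 := by
      have h1 : ((x.1, 0) : V × ℝ) = x := Prod.ext rfl hx2.symm
      simp only [hk, h1]
      exact gauge_le_one_of_mem hxK
    have hy2 : 0 < y.2 := by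
      rcases (n.hz _ hy).lt_or_eq with h1 | h1
      · exact h1
      · exfalso
        have h2 := zero_of_snd h n hy h1.symm
        rw [h2] at hNy
        simp [dot] at hNy
    have hee : e = η N := by
      apply le_antisymm
      · have h1 := hNmax (Y N) (hYM N)
        have h2 := hY1 N
        have h3 := hYpos N
        have h4 : (e - η N) * (Y N).2 ≤ 0 := by linarith
        by_contra hcon
        push Not at hcon
        have h5 : 0 < (e - η N) * (Y N).2 := mul_pos (by linarith) h3
        linarith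
      · have h1 := hYle N y hy
        have h2 : (η N - e) * y.2 ≤ 0 := by linarith
        by_contra hcon
        push Not at hcon
        have : 0 < (η N - e) * y.2 := mul_pos (by linarith) hy2
        linarith
    have hyY : y = Y N := by
      apply h.strict finrank_V3 (hfne N) hy (hYM N) _ (hYmax N)
      intro z hz
      rw [fn_apply, fn_apply, ← hee, hNy]
      exact hNmax z hz
    obtain ⟨m1, m2⟩ := hmain (Qt N) ⟨Pf x.1, by
      rw [hQP, ← hadj, hPQt]
      linarith⟩
    rw [hPQt] at m1 m2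
    have hWN : W N = (y.2)⁻¹ • y.1 := by
      simp only [hW, ← hyY]
    rw [hWN] at m1
    set N' : V := Qt N with hN'
    have hdot : dot N y.1 = dot N' (Pf y.1) := by
      rw [← hadj, hN', hPQt]
    have c1 := congrArg Prod.fst m1
    have c2 := congrArg Prod.snd m1
    simp only [hPf, Prod.smul_fst, Prod.smul_snd, Prod.fst_add, Prod.snd_add, smul_eq_mul] at c1 c2
    have d1 : a * y.1.1 - b'.1 * y.2 = y.2 * c' * N'.1 := by
      field_simp at c1
      linarith
    have d2 : b * y.1.1 + c * y.1.2 - b'.2 * y.2 = y.2 * c' * N'.2 := by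
      field_simp at c2
      linarith
    rw [hdot] at hNy
    simp only [hPf, dot] at hNy m2
    rw [d1, d2]
    have e4 : y.2 * (c' / 2 * (N'.1 * N'.1 + N'.2 * N'.2) - d') = 1 := by
      have f1 : a * y.1.1 = y.2 * c' * N'.1 + b'.1 * y.2 := by linarith
      have f2 : b * y.1.1 + c * y.1.2 = y.2 * c' * N'.2 + b'.2 * y.2 := by linarith
      rw [f1, f2, hee] at hNy
      have f3 : η N = -(c' / 2 * (N'.1 * N'.1 + N'.2 * N'.2) + (b'.1 * N'.1 + b'.2 * N'.2) + d') := by
        linarith
      rw [f3] at hNy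
      linear_combination hNy
    linear_combination (c' * y.2) * e4

end

end Pool.Agent.Helper28.FG
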