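import Mathlib
import Pool.Agent.Helper28.FG.LocB

set_option autoImplicit false

namespace Pool.Agent.Helper28.FG

open Filter Topology Set

section

variable {E F : Type*} [NormedAddCommGroup E] [NormedSpace ℝ E] [NormedAddCommGroup F]
  [NormedSpace ℝ F]

/-- transport of the hypothesis under an affine isomorphism -/
lemma GP.map {M K : Set E} (h : GP M K) (Ψ : E ≃L[ℝ] F) (p : E) :
    GP ((fun y => Ψ (y - p)) '' M) ((fun y => Ψ (y - p)) '' K) := by
  set Θ : E ≃ₜ F := (Homeomorph.subRight p).trans Ψ.toHomeomorph with hΘ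
  have hΘa : ∀ y, Θ y = Ψ (y - p) := fun y => rfl
  have hM : (fun y => Ψ (y - p)) '' M = Θ '' M := rfl
  have hK : (fun y => Ψ (y - p)) '' K = Θ '' K := rfl
  have hcv : ∀ S : Set E, Convex ℝ S → Convex ℝ (Θ '' S) := by
    rintro S hS _ ⟨x, hx, rfl⟩ _ ⟨y, hy, rfl⟩ a b ha hb hab
    refine ⟨a • x + b • y, hS hx hy ha hb hab, ?_⟩
    rw [hΘa, hΘa, hΘa, ← map_smul, ← map_smul, ← map_add]
    congr 1
    have : b = 1 - a := by linarith
    subst this
    module
  rw [hM, hK]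
  refine ⟨h.Mc.image Θ.continuous, hcv M h.Mcv, ?_, h.Kc.image Θ.continuous, hcv K h.Kcv, ?_, ?_⟩
  · rw [← Θ.image_interior]
    exact h.Mint.image _
  · rw [← Θ.image_interior]
    exact Set.image_mono h.MK
  · rw [← Θ.image_frontier, ← Θ.image_interior]
    rintro _ ⟨x, hx, rfl⟩
    obtain ⟨g, hg⟩ := h.fl x hx
    refine ⟨g.comp (Ψ.symm : F →L[ℝ] E), ?_⟩
    rintro _ ⟨q, hq, rfl⟩ hline
    have h1 : Θ x - Θ q = Ψ (x - q) := by
      rw [hΘa, hΘa, ← map_sub]
      congr 1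
      abel
    rw [h1]
    have h2 : (g.comp (Ψ.symm : F →L[ℝ] E)) (Ψ (x - q)) = g (x - q) := by simp
    rw [h2]
    apply hg q hq
    intro t ht
    apply hline t
    refine ⟨x + t • (q - x), ht, ?_⟩
    rw [hΘa, hΘa, hΘa, ← map_sub, ← map_smul, ← map_add]
    congr 1
    module

variable [FiniteDimensional ℝ E]

lemma exists_coord (hd : Module.finrank ℝ E = 3) (f : E →L[ℝ] ℝ) (hf : f ≠ 0) :
    ∃ Ψ : E ≃L[ℝ] (V × ℝ), ∀ y, (Ψ y).2 = - f y := by
  obtain ⟨u, hu⟩ : ∃ v, f v ≠ 0 := by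
    by_contra hcon
    push Not at hcon
    exact hf (ContinuousLinearMap.ext hcon)
  set u₀ : E := (-(f u)⁻¹) • u with hu₀
  have hu₀f : f u₀ = -1 := by
    rw [hu₀, map_smul, smul_eq_mul]
    field_simp
  have hr : Module.finrank ℝ (LinearMap.range (f : E →ₗ[ℝ] ℝ)) = 1 := by
    have h1 : LinearMap.range (f : E →ₗ[ℝ] ℝ) = ⊤ := by
      rw [LinearMap.range_eq_top]
      intro t
      refine ⟨(t * (f u)⁻¹) • u, ?_⟩
      simp only [map_smul, smul_eq_mul, ContinuousLinearMap.coe_coe]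
      field_simp
    rw [h1, finrank_top, Module.finrank_self]
  have hk : Module.finrank ℝ (LinearMap.ker (f : E →ₗ[ℝ] ℝ)) = Module.finrank ℝ V := by
    have h1 := LinearMap.finrank_range_add_finrank_ker (f : E →ₗ[ℝ] ℝ)
    rw [hr, hd] at h1
    rw [Module.finrank_prod, Module.finrank_self]
    omega
  set κ : LinearMap.ker (f : E →ₗ[ℝ] ℝ) ≃ₗ[ℝ] V := LinearEquiv.ofFinrankEq _ _ hk with hκ
  set T : (V × ℝ) →ₗ[ℝ] E := ((LinearMap.ker (f : E →ₗ[ℝ] ℝ)).subtype.comp
    (κ.symm : V →ₗ[ℝ] _)).comp (LinearMap.fst ℝ V ℝ) + (LinearMap.snd ℝ V ℝ).smulRight u₀ with hT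
  have hTa : ∀ z, T z = (κ.symm z.1 : E) + z.2 • u₀ := fun z => by simp [hT]
  have hfT : ∀ z, f (T z) = - z.2 := by
    intro z
    have h1 : f (κ.symm z.1 : E) = 0 := (κ.symm z.1).2
    rw [hTa, map_add, map_smul, hu₀f, h1, smul_eq_mul]
    ring
  have hinj : Function.Injective T := by
    rw [← LinearMap.ker_eq_bot, LinearMap.ker_eq_bot']
    intro z hz
    have h1 := hfT z
    rw [hz, map_zero] at h1
    have h2 : z.2 = 0 := by linarith
    rw [hTa, h2, zero_smul, add_zero] at hz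
    have h3 : κ.symm z.1 = 0 := Subtype.ext hz
    have h4 : z.1 = 0 := (LinearEquiv.map_eq_zero_iff κ.symm).1 h3
    exact Prod.ext h4 h2
  have hfd : Module.finrank ℝ (V × ℝ) = Module.finrank ℝ E := by
    rw [hd, Module.finrank_prod, Module.finrank_prod, Module.finrank_self]
  set e : (V × ℝ) ≃ₗ[ℝ] E := LinearEquiv.ofInjectiveOfFinrankEq T hinj hfd with he
  refine ⟨e.symm.toContinuousLinearEquiv, ?_⟩
  intro y
  obtain ⟨z, rfl⟩ := e.surjective y
  have h1 : e z = T z := rfl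
  have h2 : e.symm.toContinuousLinearEquiv (e z) = z := by simp
  rw [h2, h1, hfT]
  ring

/-- Hahn–Banach: a support functional at a frontier point -/
lemma exists_support_functional {M : Set E} (Mcv : Convex ℝ M) (Mc : IsCompact M)
    (Mint : (interior M).Nonempty) {s : E} (hs : s ∈ frontier M) :
    ∃ F : E →L[ℝ] ℝ, F ≠ 0 ∧ ∀ y ∈ M, F y ≤ F s := by
  have h1 : s ∉ interior M := by
    rw [Mc.isClosed.frontier_eq] at hs
    exact hs.2
  obtain ⟨F, hF⟩ := geometric_hahn_banach_open_point Mcv.interior isOpen_interior h1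
  refine ⟨F, ?_, ?_⟩
  · rintro rfl
    obtain ⟨y, hy⟩ := Mint
    have := hF y hy
    simp at this
  · intro y hy
    have h2 : y ∈ closure (interior M) := by
      rw [Mcv.closure_interior_eq_closure_of_nonempty_interior Mint]
      exact subset_closure hy
    refine closure_minimal (s := interior M) (t := {z | F z ≤ F s}) ?_ ?_ h2
    · intro z hz
      exact (hF z hz).le
    · exact isClosed_le F.continuous continuous_const

/-- near every smooth boundary point, within a uniform radius, the boundary lies on a quadric -/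
theorem quadric_near_smooth (hd : Module.finrank ℝ E = 3) {M K : Set E} (h : GP M K) :
    ∃ r₀ > 0, ∀ p ∈ frontier M, ∀ f : E →L[ℝ] ℝ, f ≠ 0 → (∀ y ∈ M, f y ≤ f p) →
      (∀ F : E →L[ℝ] ℝ, F ≠ 0 → (∀ y ∈ M, F y ≤ F p) → ∃ c : ℝ, F = c • f) →
      ∃ q : E → ℝ, IsQuad q ∧ (∃ y, q y ≠ 0) ∧ ∀ s ∈ frontier M, dist s p < r₀ → q s = 0 := by
  have hd2 : 2 ≤ Module.finrank ℝ E := by omega
  obtain ⟨o, ho⟩ := h.Mint
  obtain ⟨ρ₀, hρ₀, hball⟩ := Metric.isOpen_iff.1 isOpen_interior o ho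
  obtain ⟨δ₀, hδ₀, hthick⟩ := h.Mc.exists_thickening_subset_open isOpen_interior h.MK
  obtain ⟨D, hD⟩ := h.Mc.isBounded.exists_norm_le
  have hD0 : 0 ≤ D := (norm_nonneg _).trans (hD o (interior_subset ho))
  have hDo : ∀ y ∈ M, ‖y - o‖ ≤ 2 * D := fun y hy =>
    (norm_sub_le _ _).trans (by linarith [hD y hy, hD o (interior_subset ho)])
  refine ⟨min (ρ₀ / 8) (δ₀ * ρ₀ / (16 * (D + 1))), by positivity, ?_⟩
  intro p hp f hf hmax hsm
  have hpM : p ∈ M := h.Mc.isClosed.frontier_subset hp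
  obtain ⟨Ψ, hΨ⟩ := exists_coord hd f hf
  have hGP := h.map Ψ p
  have hNm : Nm ((fun y => Ψ (y - p)) '' M) := by
    refine ⟨⟨p, hpM, by simp⟩, ?_, ?_⟩
    · rintro _ ⟨y, hy, rfl⟩
      change 0 ≤ (Ψ (y - p)).2
      rw [hΨ, map_sub]
      linarith [hmax y hy]
    · intro ξ hξ
      by_contra hcon
      push Not at hcon
      set F : E →L[ℝ] ℝ := (fn ξ (-1)).comp (Ψ : E →L[ℝ] (V × ℝ)) with hF
      have hFa : ∀ y, F y = dot ξ (Ψ y).1 - (Ψ y).2 := by
        intro y
        have : F y = fn ξ (-1) (Ψ y) := rfl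
        rw [this, fn_apply]
        ring
      have hF0 : F ≠ 0 := by
        intro h0
        have h1 := hFa (Ψ.symm (0, 1))
        rw [h0] at h1
        simp [dot] at h1
      have hFmax : ∀ y ∈ M, F y ≤ F p := by
        intro y hy
        have h1 := hcon _ ⟨y, hy, rfl⟩
        change dot ξ (Ψ (y - p)).1 - (Ψ (y - p)).2 ≤ 0 at h1
        rw [← hFa, map_sub] at h1
        linarith
      obtain ⟨c, hc⟩ := hsm F hF0 hFmax
      have h1 := hFa (Ψ.symm (ξ, 0))
      have h2 := hΨ (Ψ.symm (ξ, 0))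
      rw [Ψ.apply_symm_apply] at h1 h2
      rw [hc] at h1
      simp only [smul_apply, smul_eq_mul] at h1 h2
      have h3 : f (Ψ.symm (ξ, 0)) = 0 := by linarith
      rw [h3, mul_zero, sub_zero] at h1
      have := dot_self_pos ξ hξ
      linarith
  obtain ⟨q, hq, ⟨y₀, hy₀⟩, hq0, hqv⟩ := local_quadric hGP hNm
  refine ⟨fun y => q (Ψ (y - p)), ?_, ⟨Ψ.symm y₀ + p, by simpa using hy₀⟩, ?_⟩
  · exact hq.comp_affine (Ψ : E →L[ℝ] (V × ℝ)).toLinearMap p
  intro s hs hsp
  have hsM : s ∈ M := h.Mc.isClosed.frontier_subset hs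
  change q (Ψ (s - p)) = 0
  by_cases hfs : f s = f p
  · have h1 : s = p := by
      apply h.strict hd2 hf hsM hpM _ hmax
      intro y hy
      rw [hfs]
      exact hmax y hy
    rw [h1, sub_self, map_zero]
    exact hq0
  have hfs' : f s < f p := lt_of_le_of_ne (hmax s hsM) hfs
  obtain ⟨F, hF0, hFmax⟩ := exists_support_functional h.Mcv h.Mc h.Mint hs
  have hfnorm : 0 < ‖f‖ := norm_pos_iff.2 hf
  -- lower bound for f p - f o
  have hfo : ρ₀ * ‖f‖ / 2 ≤ f p - f o := by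
    obtain ⟨u, hu1, hu2⟩ := f.exists_lt_apply_of_lt_opNorm (r := ‖f‖ / 2) (by linarith)
    have key : ∀ u' : E, ‖u'‖ < 1 → ρ₀ * f u' ≤ f p - f o := by
      intro u' hu'
      have h1 : o + ρ₀ • u' ∈ interior M := by
        apply hball
        rw [Metric.mem_ball, dist_eq_norm, add_sub_cancel_left, norm_smul,
          Real.norm_of_nonneg hρ₀.le]
        nlinarith
      have h2 := hmax _ (interior_subset h1)
      rw [map_add, map_smul, smul_eq_mul] at h2
      linarith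
    have k1 := key u hu1
    have k2 := key (-u) (by rwa [norm_neg])
    rw [map_neg] at k2
    rw [Real.norm_eq_abs] at hu2
    rcases abs_cases (f u) with ⟨h1, -⟩ | ⟨h1, -⟩
    · rw [h1] at hu2
      nlinarith
    · rw [h1] at hu2
      nlinarith
  have hfsp : f p - f s ≤ ‖f‖ * dist s p := by
    have h1 : f p - f s = f (p - s) := by rw [map_sub]
    rw [h1, dist_comm, dist_eq_norm]
    exact (le_abs_self _).trans (f.le_opNorm _)
  have hsp1 : dist s p < ρ₀ / 8 := lt_of_lt_of_le hsp (min_le_left _ _)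
  have hsp2 : dist s p < δ₀ * ρ₀ / (16 * (D + 1)) := lt_of_lt_of_le hsp (min_le_right _ _)
  have hfso : ρ₀ * ‖f‖ / 4 ≤ f s - f o := by nlinarith
  have hfso0 : 0 < f s - f o := lt_of_lt_of_le (by positivity) hfso
  set t := (f p - f s) / (f s - f o) with ht
  have htpos : 0 < t := div_pos (by linarith) hfso0
  have htle : t * (2 * D) < δ₀ := by
    have h1 : t ≤ (‖f‖ * dist s p) / (ρ₀ * ‖f‖ / 4) := by
      rw [ht]
      gcongr
    have h2 : (‖f‖ * dist s p) / (ρ₀ * ‖f‖ / 4) = 4 * dist s p / ρ₀ := by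
      field_simp
    rw [h2] at h1
    have h3 : 4 * dist s p / ρ₀ < 4 * (δ₀ * ρ₀ / (16 * (D + 1))) / ρ₀ := by gcongr
    have h4 : 4 * (δ₀ * ρ₀ / (16 * (D + 1))) / ρ₀ = δ₀ / (4 * (D + 1)) := by
      field_simp
      norm_num
    rw [h4] at h3
    have h5 : t < δ₀ / (4 * (D + 1)) := lt_of_le_of_lt h1 h3
    rw [lt_div_iff₀ (by positivity)] at h5
    nlinarith
  have hxK : s + t • (s - o) ∈ K := by
    apply interior_subset
    apply hthick
    rw [Metric.mem_thickening_iff]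
    refine ⟨s, hsM, ?_⟩
    rw [dist_eq_norm, add_sub_cancel_left, norm_smul, Real.norm_of_nonneg htpos.le]
    calc t * ‖s - o‖ ≤ t * (2 * D) := by gcongr; exact hDo s hsM
      _ < δ₀ := htle
  have hfx : f (s + t • (s - o)) = f p := by
    rw [map_add, map_smul, map_sub, smul_eq_mul, ht]
    field_simp
    ring
  set F' : (V × ℝ) →L[ℝ] ℝ := F.comp (Ψ.symm : (V × ℝ) →L[ℝ] E) with hF'
  have hF'a : ∀ y, F' (Ψ y) = F y := by
    intro y
    simp [hF']
  apply hqv (Ψ (s - p)) ⟨s, hsM, rfl⟩ F'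
  · intro h0
    apply hF0
    ext y
    rw [← hF'a y, h0]
    simp
  · rintro _ ⟨y, hy, rfl⟩
    change F' (Ψ (y - p)) ≤ F' (Ψ (s - p))
    rw [hF'a, hF'a, map_sub, map_sub]
    linarith [hFmax y hy]
  · refine ⟨Ψ (s + t • (s - o) - p), ⟨_, hxK, rfl⟩, ?_, ?_⟩
    · rw [hΨ, map_sub, hfx, sub_self, neg_zero]
    · rw [hF'a, hF'a, map_sub, map_sub, map_add, map_smul, map_sub, smul_eq_mul]
      have h1 := interior_lt hF0 hFmax ho
      have h2 : 0 < t * (F s - F o) := mul_pos htpos (by linarith)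
      linarith

end

end Pool.Agent.Helper28.FG
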